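import Pool.Agent.H376R2.MR.Fej

/-! The Fejer kernel: integral, tail, Lipschitz constant. -/

set_option autoImplicit false

namespace Pool.Agent.U762.HU

open Finset MeasureTheory Pool.Agent.H376R2.MR

lemma Fj_even' (K : ℕ) (t : ℝ) : Fj K (-t) = Fj K t := by
  unfold Fj
  refine Finset.sum_congr rfl fun k _ => ?_
  rw [mul_neg, Real.cos_neg]

lemma Fj_cont (K : ℕ) : Continuous (Fj K) := by
  unfold Fj
  fun_prop

lemma cos_int {k : ℤ} (hk : k ≠ 0) : ∫ t in (-Real.pi)..Real.pi, Real.cos (k * t) = 0 := by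
  have hk0 : (k : ℝ) ≠ 0 := by exact_mod_cast hk
  rw [intervalIntegral.integral_comp_mul_left (fun x => Real.cos x) hk0, integral_cos]
  have h1 : Real.sin ((k : ℝ) * Real.pi) = 0 := Real.sin_int_mul_pi k
  have h2 : Real.sin ((k : ℝ) * -Real.pi) = 0 := by
    rw [mul_neg, Real.sin_neg, h1, neg_zero]
  rw [h1, h2]
  simp

theorem Fj_int {K : ℕ} (hK : 1 ≤ K) : ∫ t in (-Real.pi)..Real.pi, Fj K t = 2 * Real.pi := by
  have e : Fj K = fun t => ∑ k ∈ FK K, (1 - |(k : ℝ)| / K) * Real.cos (k * t) := by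
    funext t; rfl
  rw [e, intervalIntegral.integral_finsetSum]
  · have h1 : ∀ k ∈ FK K, ∫ t in (-Real.pi)..Real.pi, (1 - |(k : ℝ)| / K) * Real.cos (k * t) =
        if k = 0 then 2 * Real.pi else 0 := by
      intro k _
      rw [intervalIntegral.integral_const_mul]
      split_ifs with h
      · subst h
        simp
        ring
      · rw [cos_int h, mul_zero]
    rw [Finset.sum_congr rfl h1, Finset.sum_ite_eq']
    rw [if_pos]
    unfold FK
    rw [Finset.mem_Ioo]
    constructor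
    · have : (0 : ℤ) < K := by exact_mod_cast hK
      omega
    · exact_mod_cast hK
  · intro k _
    apply Continuous.intervalIntegrable
    fun_prop

lemma Fj_ii (K : ℕ) (a b : ℝ) : IntervalIntegrable (Fj K) volume a b :=
  (Fj_cont K).intervalIntegrable a b

theorem Fj_tail {K : ℕ} (hK : 1 ≤ K) {b : ℝ} (hb : 0 < b) (hbπ : b ≤ Real.pi) :
    ∫ t in b..Real.pi, Fj K t ≤ Real.pi ^ 2 / (K * b) := by
  have hK0 : (0 : ℝ) < K := by exact_mod_cast hK
  have h1 : ∫ t in b..Real.pi, Fj K t ≤ ∫ t in b..Real.pi, Real.pi ^ 2 / K * (t ^ (-2 : ℤ)) := by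
    apply intervalIntegral.integral_mono_on hbπ (Fj_ii K _ _)
    · apply ContinuousOn.intervalIntegrable
      apply ContinuousOn.mul continuousOn_const
      apply ContinuousOn.zpow₀ continuousOn_id
      intro x hx
      rw [Set.uIcc_of_le hbπ] at hx
      left
      have : 0 < x := lt_of_lt_of_le hb hx.1
      exact this.ne'
    · intro t ht
      have ht0 : 0 < t := lt_of_lt_of_le hb ht.1
      have h2 := Fj_le_sq hK ht0.ne' (by rw [abs_of_pos ht0]; exact ht.2)
      refine h2.trans (le_of_eq ?_)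
      rw [zpow_neg]
      have : t ^ (2 : ℤ) = t ^ 2 := by norm_cast
      rw [this]
      field_simp
  refine h1.trans ?_
  rw [intervalIntegral.integral_const_mul, integral_zpow]
  · have e : ((-2 : ℤ) : ℝ) + 1 = -1 := by norm_num
    have e2 : (-2 : ℤ) + 1 = -1 := by norm_num
    rw [e2, zpow_neg_one, zpow_neg_one]
    push_cast
    have h3 : (Real.pi⁻¹ - b⁻¹) / (-2 + 1) ≤ b⁻¹ := by
      have : 0 < Real.pi⁻¹ := inv_pos.2 Real.pi_pos
      have h4 : (Real.pi⁻¹ - b⁻¹) / (-2 + 1) = b⁻¹ - Real.pi⁻¹ := by norm_num; ring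
      rw [h4]; linarith
    calc Real.pi ^ 2 / K * ((Real.pi⁻¹ - b⁻¹) / (-2 + 1)) ≤ Real.pi ^ 2 / K * b⁻¹ := by gcongr
      _ = _ := by field_simp
  · right
    refine ⟨by norm_num, ?_⟩
    rw [Set.uIcc_of_le hbπ]
    intro h
    exact absurd h.1 (not_le.2 hb)

/-- most of the mass is near zero -/
theorem Fj_mid {K : ℕ} (hK : 1 ≤ K) {b : ℝ} (hb : 0 < b) (hbπ : b ≤ Real.pi) :
    2 * Real.pi - 2 * (Real.pi ^ 2 / (K * b)) ≤ ∫ t in (-b)..b, Fj K t := by
  have h1 := Fj_int hK
  have h2 := Fj_tail hK hb hbπ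
  have h3 : ∫ t in (-Real.pi)..(-b), Fj K t = ∫ t in b..Real.pi, Fj K t := by
    have h4 : ∫ t in b..Real.pi, Fj K t = ∫ t in b..Real.pi, Fj K (-t) := by
      simp_rw [Fj_even']
    rw [h4, intervalIntegral.integral_comp_neg]
  have h4 := intervalIntegral.integral_add_adjacent_intervals (Fj_ii K (-Real.pi) (-b)) (Fj_ii K (-b) b)
  have h5 := intervalIntegral.integral_add_adjacent_intervals (Fj_ii K (-Real.pi) b) (Fj_ii K b Real.pi)
  linarith

theorem Fj_lip (K : ℕ) (s t : ℝ) : |Fj K s - Fj K t| ≤ K ^ 2 * |s - t| := by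
  have e : Fj K s - Fj K t = ∑ k ∈ FK K, (1 - |(k : ℝ)| / K) *
      (Real.cos (k * s) - Real.cos (k * t)) := by
    unfold Fj
    rw [← Finset.sum_sub_distrib]
    refine Finset.sum_congr rfl fun k _ => ?_
    ring
  rw [e]
  refine (Finset.abs_sum_le_sum_abs _ _).trans ?_
  have h1 : ∀ k ∈ FK K, |(1 - |(k : ℝ)| / K) * (Real.cos (k * s) - Real.cos (k * t))| ≤
      (1 - |(k : ℝ)| / K) * Real.cos (k * 0) * (K * |s - t|) := by
    intro k hk
    unfold FK at hk
    rw [Finset.mem_Ioo] at hk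
    have hk1 : |(k : ℝ)| < K := by
      rw [abs_lt]
      exact ⟨by exact_mod_cast hk.1, by exact_mod_cast hk.2⟩
    have hK0 : (0 : ℝ) < K := lt_of_le_of_lt (abs_nonneg _) hk1
    have h2 : 0 ≤ 1 - |(k : ℝ)| / K := by
      rw [sub_nonneg, div_le_one hK0]; exact hk1.le
    have h3 : |Real.cos (k * s) - Real.cos (k * t)| ≤ K * |s - t| := by
      have h4 : |Real.cos (k * s) - Real.cos (k * t)| ≤ |(k : ℝ) * s - k * t| := by
        have := Real.lipschitzWith_cos.dist_le_mul (k * s) (k * t)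
        simpa [Real.dist_eq] using this
      refine h4.trans ?_
      rw [← mul_sub, abs_mul]
      exact mul_le_mul_of_nonneg_right hk1.le (abs_nonneg _)
    rw [abs_mul, abs_of_nonneg h2, mul_zero, Real.cos_zero, mul_one]
    exact mul_le_mul_of_nonneg_left h3 h2
  refine (Finset.sum_le_sum h1).trans ?_
  rw [← Finset.sum_mul]
  have h5 : ∑ k ∈ FK K, (1 - |(k : ℝ)| / K) * Real.cos (k * 0) = Fj K 0 := rfl
  rw [h5]
  calc Fj K 0 * (K * |s - t|) ≤ K * (K * |s - t|) :=
        mul_le_mul_of_nonneg_right (Fj_le K 0) (by positivity)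
    _ = _ := by ring

end Pool.Agent.U762.HU
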