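import Pool.Agent.U762.HU.X
import Pool.Agent.U762.HU.Fj
import Pool.Agent.Q257.KS.FE

/-! The difference of the Fejer sums over primes at two scales is small at almost all points. -/

set_option autoImplicit false

namespace Pool.Agent.U762.HU

open Finset Filter Topology Pool.Agent.H376R2.MR Pool.Agent.Q240.KS Pool.Agent.Q257.KS

/-- the integers near `e^Y` -/
noncomputable def nr (Y : ℝ) : Finset ℕ := (sY Y).filter (fun n : ℕ => |Real.log n - Y| ≤ 1 / 2)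

/-- the Fejer sum over the prime powers near `e^Y` -/
noncomputable def GK (Y : ℝ) (K : ℕ) (u : ℝ) : ℝ :=
  ∑ n ∈ nr Y, ArithmeticFunction.vonMangoldt n / n * Fj K (Real.log n - u)

/-- the low scale -/
noncomputable def K1 (ε₃ Y : ℝ) : ℕ := ⌈Real.exp (ε₃ * Y)⌉₊ ^ 3

/-- the high scale, for the length `e^(3Y/16)` -/
noncomputable def K2 (L₀ Y : ℝ) : ℕ := ⌈L₀ * Real.exp Y / Real.exp (3 / 16 * Y)⌉₊

/-- the size of the parameters -/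
lemma sizes {ε₃ L₀ : ℝ} (hε₃ : 0 < ε₃) (hε₃1 : ε₃ ≤ 1 / 100) (hL₀ : 1 ≤ L₀) :
    ∃ Y₀ : ℝ, ∀ Y : ℝ, Y₀ ≤ Y → 1 ≤ ⌈Real.exp (ε₃ * Y)⌉₊ ∧ ⌈Real.exp (ε₃ * Y)⌉₊ ≤ K1 ε₃ Y ∧
      K1 ε₃ Y ≤ K2 L₀ Y ∧ Real.exp (3 * ε₃ * Y) ≤ K1 ε₃ Y ∧ (K1 ε₃ Y : ℝ) ≤ Real.exp (4 * ε₃ * Y) ∧
      Real.exp (13 / 16 * Y) ≤ K2 L₀ Y ∧ (K2 L₀ Y : ℝ) ≤ 2 * L₀ * Real.exp (13 / 16 * Y) := by
  have hev : ∀ᶠ Y : ℝ in atTop, 0 ≤ Y ∧ 8 * (Y + 3) ^ 0 * Real.exp (-(ε₃ * Y)) ≤ 1 :=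
    (eventually_ge_atTop 0).and (ev_small ε₃ 8 1 0 hε₃ one_pos)
  obtain ⟨Y₀, hY₀⟩ := eventually_atTop.1 hev
  refine ⟨Y₀, fun Y hY => ?_⟩
  obtain ⟨hY0, hV⟩ := hY₀ Y hY
  rw [pow_zero, mul_one] at hV
  obtain ⟨K₀, hK₀⟩ : ∃ K₀ : ℕ, K₀ = ⌈Real.exp (ε₃ * Y)⌉₊ := ⟨_, rfl⟩
  have hK1 : K1 ε₃ Y = K₀ ^ 3 := by unfold K1; rw [hK₀]
  rw [← hK₀, hK1]
  have hex8 : 8 ≤ Real.exp (ε₃ * Y) := by
    have h1 : Real.exp (ε₃ * Y) * Real.exp (-(ε₃ * Y)) = 1 := by rw [← Real.exp_add]; simp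
    nlinarith [Real.exp_pos (ε₃ * Y), Real.exp_pos (-(ε₃ * Y))]
  have hlo : Real.exp (ε₃ * Y) ≤ K₀ := by rw [hK₀]; exact Nat.le_ceil _
  have hhi : (K₀ : ℝ) ≤ Real.exp (ε₃ * Y) + 1 := by
    rw [hK₀]; exact (Nat.ceil_lt_add_one (Real.exp_pos _).le).le
  have hK01 : 1 ≤ K₀ := by
    have : (1 : ℝ) ≤ K₀ := by linarith
    exact_mod_cast this
  have hcast : ((K₀ ^ 3 : ℕ) : ℝ) = (K₀ : ℝ) ^ 3 := by push_cast; ring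
  have hK1lo : Real.exp (3 * ε₃ * Y) ≤ ((K₀ ^ 3 : ℕ) : ℝ) := by
    rw [hcast]
    have : Real.exp (3 * ε₃ * Y) = Real.exp (ε₃ * Y) ^ 3 := by
      rw [← Real.exp_nat_mul]; congr 1; push_cast; ring
    rw [this]
    gcongr
  have hK1hi : ((K₀ ^ 3 : ℕ) : ℝ) ≤ Real.exp (4 * ε₃ * Y) := by
    rw [hcast]
    have e1 : Real.exp (4 * ε₃ * Y) = Real.exp (ε₃ * Y) ^ 4 := by
      rw [← Real.exp_nat_mul]; congr 1; push_cast; ring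
    rw [e1]
    have e2 : (K₀ : ℝ) ≤ 2 * Real.exp (ε₃ * Y) := by linarith
    calc (K₀ : ℝ) ^ 3 ≤ (2 * Real.exp (ε₃ * Y)) ^ 3 := by gcongr
      _ = 8 * Real.exp (ε₃ * Y) ^ 3 := by ring
      _ ≤ Real.exp (ε₃ * Y) * Real.exp (ε₃ * Y) ^ 3 := by gcongr
      _ = _ := by ring
  have hq : Real.exp Y / Real.exp (3 / 16 * Y) = Real.exp (13 / 16 * Y) := by
    rw [← Real.exp_sub]; congr 1; ring
  have hK2e : K2 L₀ Y = ⌈L₀ * Real.exp (13 / 16 * Y)⌉₊ := by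
    unfold K2; rw [mul_div_assoc, hq]
  have hE1 : 1 ≤ Real.exp (13 / 16 * Y) := Real.one_le_exp (by positivity)
  have hK2lo : L₀ * Real.exp (13 / 16 * Y) ≤ K2 L₀ Y := by rw [hK2e]; exact Nat.le_ceil _
  have hK2lo' : Real.exp (13 / 16 * Y) ≤ K2 L₀ Y := by
    refine le_trans ?_ hK2lo
    have := mul_le_mul_of_nonneg_right hL₀ (Real.exp_pos (13 / 16 * Y)).le
    linarith
  have hK2hi : (K2 L₀ Y : ℝ) ≤ 2 * L₀ * Real.exp (13 / 16 * Y) := by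
    have h1 := Nat.ceil_lt_add_one (a := L₀ * Real.exp (13 / 16 * Y)) (by positivity)
    rw [← hK2e] at h1
    have h2 := mul_le_mul_of_nonneg_right hL₀ (Real.exp_pos (13 / 16 * Y)).le
    linarith
  refine ⟨hK01, Nat.le_self_pow (by norm_num) K₀, ?_, hK1lo, hK1hi, hK2lo', hK2hi⟩
  have h1 : ((K₀ ^ 3 : ℕ) : ℝ) ≤ K2 L₀ Y := by
    refine hK1hi.trans (le_trans (Real.exp_le_exp.2 ?_) hK2lo')
    have : 4 * ε₃ ≤ 13 / 16 := by linarith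
    exact mul_le_mul_of_nonneg_right this hY0
  exact_mod_cast h1

/-- many separated points with a large difference do not exist -/
theorem diff_card (ε₃ L₀ c : ℝ) (hε₃ : 0 < ε₃) (hε₃1 : ε₃ ≤ 1 / 100) (hL₀ : 1 ≤ L₀) (hc : 0 < c) :
    ∃ η Y₀ : ℝ, 0 < η ∧ ∀ Y : ℝ, Y₀ ≤ Y → ∀ U : Finset ℝ,
      (∀ y ∈ U, 0 < y ∧ |Real.log y - Y| ≤ 2 / 5 ∧
        |Real.log (y + Real.exp (3 / 16 * Y) / 2) - Y| ≤ 0.405 ∧
        c < |GK Y (K2 L₀ Y) (Real.log (y + Real.exp (3 / 16 * Y) / 2)) -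
          GK Y (K1 ε₃ Y) (Real.log (y + Real.exp (3 / 16 * Y) / 2))|) →
      (∀ y ∈ U, ∀ y' ∈ U, y ≠ y' → Real.exp (3 / 16 * Y) ≤ |y - y'|) →
      (U.card : ℝ) ≤ Real.exp ((13 / 16 - η) * Y) := by
  obtain ⟨η, Y1, hη, hX⟩ := mainX Pool.Agent.Q222.KS.cls Pool.Agent.Q240.KT.near2_all
    Pool.Agent.Q257.KS.lsd Pool.Agent.Q298.KS.tri
    (Pool.Agent.Q31.KT.t_DUA Pool.Agent.Q240.KT.rt_all Pool.Agent.Q31.KT.t_PRD) (13 / 16) (13 / 16)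
    (by norm_num) le_rfl
    (Pool.Agent.Q278.KT.far2_all _ _ (by norm_num) (by norm_num) Pool.Agent.Q278.KT.opts_E)
    ε₃ (c / 4) L₀ hε₃ hε₃1 (by positivity) hL₀
  obtain ⟨Y2, hsz⟩ := sizes hε₃ hε₃1 hL₀
  obtain ⟨Y3, hTUP⟩ := Pool.Agent.Q95.KS.tup Pool.Agent.Q257.KS.hb (ε₃ / 4) (by positivity)
  have hev : ∀ᶠ Y : ℝ in atTop, Y1 ≤ Y ∧ Y2 ≤ Y ∧ Y3 ≤ Y ∧ 0 ≤ Y ∧
      1300 * (Y + 3) ^ 1 * Real.exp (-((11 / 4 * ε₃) * Y)) ≤ c / 8 ∧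
      2 * (Y + 3) ^ 1 * Real.exp (-((3 / 4 * ε₃) * Y)) ≤ c / 4 := by
    filter_upwards [eventually_ge_atTop Y1, eventually_ge_atTop Y2, eventually_ge_atTop Y3,
      eventually_ge_atTop 0, ev_small (11 / 4 * ε₃) 1300 (c / 8) 1 (by positivity) (by positivity),
      ev_small (3 / 4 * ε₃) 2 (c / 4) 1 (by positivity) (by positivity)] with Y a1 a2 a3 a4 a5 a6
    exact ⟨a1, a2, a3, a4, a5, a6⟩
  obtain ⟨Y₀, hY₀⟩ := eventually_atTop.1 hev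
  refine ⟨η, Y₀, hη, fun Y hY U hU hsep => ?_⟩
  obtain ⟨hYa, hYb, hYc, hY0, hV2, hV6⟩ := hY₀ Y hY
  rw [pow_one] at hV2 hV6
  obtain ⟨s1, s2, s3, s4, s5, s6, s7⟩ := hsz Y hYb
  obtain ⟨a, ha0, ha1, ha2, ha3⟩ := hTUP Y hYc
  refine hX Y hYa (Real.exp (3 / 16 * Y)) ?_ ?_ U ?_ hsep
  · apply Real.exp_le_exp.2
    apply mul_le_mul_of_nonneg_right _ hY0
    linarith
  · apply Real.exp_le_exp.2
    apply mul_le_mul_of_nonneg_right _ hY0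
    norm_num
  intro y hy
  obtain ⟨b1, b2, b3, b4⟩ := hU y hy
  refine ⟨b1, b2, ?_⟩
  obtain ⟨u, hu⟩ : ∃ u : ℝ, u = Real.log (y + Real.exp (3 / 16 * Y) / 2) := ⟨_, rfl⟩
  rw [← hu] at b3 b4 ⊢
  obtain ⟨K₀, hK₀⟩ : ∃ K₀ : ℕ, K₀ = ⌈Real.exp (ε₃ * Y)⌉₊ := ⟨_, rfl⟩
  obtain ⟨κ, hκ⟩ : ∃ κ : ℕ, κ = K1 ε₃ Y := ⟨_, rfl⟩
  obtain ⟨K, hK⟩ : ∃ K : ℕ, K = K2 L₀ Y := ⟨_, rfl⟩
  have hκ3 : κ = K₀ ^ 3 := by rw [hκ, hK₀]; rfl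
  rw [← hκ, ← hK] at b4
  rw [← hK₀, ← hκ] at s2
  rw [← hK₀] at s1
  rw [← hκ, ← hK] at s3
  rw [← hκ] at s4
  obtain ⟨E, hE⟩ : ∃ E : ℝ, E = Real.exp (ε₃ / 4 * Y) := ⟨_, rfl⟩
  have hE0 : 0 ≤ E := by rw [hE]; exact (Real.exp_pos _).le
  rw [← hE] at ha2
  have hu' : |u - Y| ≤ 0.41 := b3.trans (by norm_num)
  have hκ1 : 1 ≤ κ := s1.trans s2
  -- outer terms
  have houtb : ∀ K' : ℕ, κ ≤ K' → E * (Y + 3) * (1300 / (K' : ℝ)) ≤ c / 8 := by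
    intro K' hK'
    have hK'' : (κ : ℝ) ≤ K' := by exact_mod_cast hK'
    calc E * (Y + 3) * (1300 / (K' : ℝ)) ≤ E * (Y + 3) * (1300 / Real.exp (3 * ε₃ * Y)) := by
          have := s4.trans hK''
          gcongr
      _ = 1300 * (Y + 3) * (E / Real.exp (3 * ε₃ * Y)) := by ring
      _ = 1300 * (Y + 3) * Real.exp (-((11 / 4 * ε₃) * Y)) := by
          rw [hE, ← Real.exp_sub]; congr 2; ring
      _ ≤ _ := hV2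
  have hFG : ∀ K' : ℕ, κ ≤ K' → |FF Y u a K' - GK Y K' u| ≤ c / 8 := by
    intro K' hK'
    rw [FF_split Y u a ha1]
    have h1 := outer hY0 hE0 ha2 ha3 hu' K' (hκ1.trans hK')
    have e : ∀ x y : ℝ, x + y - x = y := fun x y => by ring
    unfold GK nr
    rw [e]
    exact h1.trans (houtb K' hK')
  have hF1 := abs_le.1 (hFG κ le_rfl)
  have hF2 := abs_le.1 (hFG K s3)
  -- the difference of the full sums
  have hall := mK_sum Y u a hκ1 s3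
  have hlow := low Y u a s1 s2 s3
  have hS := sum_abs_le hY0 hE0 ha2
  have hK₀0 : (0 : ℝ) < K₀ := by exact_mod_cast s1
  have hlow2 : 2 * (K₀ : ℝ) * ((K₀ : ℝ) / κ) * ∑ n ∈ sY Y, |a n| ≤ c / 4 := by
    have hK₀lo : Real.exp (ε₃ * Y) ≤ K₀ := by rw [hK₀]; exact Nat.le_ceil _
    have hcast : (κ : ℝ) = (K₀ : ℝ) ^ 3 := by rw [hκ3]; push_cast; ring
    calc 2 * (K₀ : ℝ) * ((K₀ : ℝ) / κ) * ∑ n ∈ sY Y, |a n| ≤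
          2 * (K₀ : ℝ) * ((K₀ : ℝ) / κ) * (E * (Y + 3)) := by gcongr
      _ = 2 * (Y + 3) * (E / K₀) := by rw [hcast]; field_simp
      _ ≤ 2 * (Y + 3) * (E / Real.exp (ε₃ * Y)) := by gcongr
      _ = 2 * (Y + 3) * Real.exp (-((3 / 4 * ε₃) * Y)) := by
          rw [hE, ← Real.exp_sub]; congr 2; ring
      _ ≤ _ := hV6
  have hsplit3 : ∑ k ∈ FK K, ((mK κ K k : ℝ) : ℂ) * AP Y u a k =
      ∑ k ∈ (FK K).filter (fun k => (K₀ : ℤ) ≤ |k|), ((mK κ K k : ℝ) : ℂ) * AP Y u a k +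
      ∑ k ∈ (FK K).filter (fun k => ¬ (K₀ : ℤ) ≤ |k|), ((mK κ K k : ℝ) : ℂ) * AP Y u a k :=
    (Finset.sum_filter_add_sum_filter_not _ _ _).symm
  have hES : ES ε₃ L₀ Y (Real.exp (3 / 16 * Y)) u =
      ∑ k ∈ (FK K).filter (fun k => (K₀ : ℤ) ≤ |k|), ((mK κ K k : ℝ) : ℂ) * AP Y u a k := by
    unfold ES
    have e1 : ⌈L₀ * Real.exp Y / Real.exp (3 / 16 * Y)⌉₊ = K := by rw [hK]; rfl
    rw [e1, ← hK₀, ← hκ3]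
    refine Finset.sum_congr rfl fun k _ => ?_
    rw [ha0 k]
    unfold AP sY
    rw [mul_assoc]
  have hnorm : c - c / 4 ≤ ‖∑ k ∈ FK K, ((mK κ K k : ℝ) : ℂ) * AP Y u a k‖ := by
    rw [hall, Complex.norm_real, Real.norm_eq_abs]
    rcases lt_abs.1 b4 with h | h
    · refine le_trans ?_ (le_abs_self _)
      linarith [hF1.1, hF1.2, hF2.1, hF2.2]
    · refine le_trans ?_ (neg_le_abs _)
      linarith [hF1.1, hF1.2, hF2.1, hF2.2]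
  have htri : ‖∑ k ∈ FK K, ((mK κ K k : ℝ) : ℂ) * AP Y u a k‖ ≤
      ‖∑ k ∈ (FK K).filter (fun k => (K₀ : ℤ) ≤ |k|), ((mK κ K k : ℝ) : ℂ) * AP Y u a k‖ +
      ‖∑ k ∈ (FK K).filter (fun k => ¬ (K₀ : ℤ) ≤ |k|), ((mK κ K k : ℝ) : ℂ) * AP Y u a k‖ := by
    rw [hsplit3]; exact norm_add_le _ _
  rw [hES]
  linarith

end Pool.Agent.U762.HU
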