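import Pool.Agent.U762.HU.A

/-! The measure of the set where the Fejer sums at the two scales differ. -/

set_option autoImplicit false

namespace Pool.Agent.U762.HU

open Finset Filter Topology MeasureTheory

/-- a set all of whose separated subsets are small has small measure -/
theorem sep_cover {B : Set ℝ} {σ N : ℝ} (hσ : 0 < σ) (hN : 0 ≤ N)
    (h : ∀ U : Finset ℝ, (∀ u ∈ U, u ∈ B) →
      (∀ u ∈ U, ∀ u' ∈ U, u ≠ u' → σ ≤ |u - u'|) → (U.card : ℝ) ≤ N) :
    volume B ≤ ENNReal.ofReal (2 * σ * N) := by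
  classical
  obtain ⟨P, hP⟩ : ∃ P : ℕ → Prop, P = fun m => ∃ U : Finset ℝ, (∀ u ∈ U, u ∈ B) ∧
      (∀ u ∈ U, ∀ u' ∈ U, u ≠ u' → σ ≤ |u - u'|) ∧ U.card = m := ⟨_, rfl⟩
  have hP0 : P 0 := by rw [hP]; exact ⟨∅, by simp, by simp, rfl⟩
  have h1 : P (Nat.findGreatest P ⌊N⌋₊) := Nat.findGreatest_spec (Nat.zero_le _) hP0
  rw [hP] at h1
  obtain ⟨U, hU1, hU2, hU3⟩ := h1
  have hmax : ∀ V : Finset ℝ, (∀ u ∈ V, u ∈ B) →
      (∀ u ∈ V, ∀ u' ∈ V, u ≠ u' → σ ≤ |u - u'|) → V.card ≤ U.card := by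
    intro V hV1 hV2
    have h3 := h V hV1 hV2
    rw [hU3]
    have h4 : P V.card := by rw [hP]; exact ⟨V, hV1, hV2, rfl⟩
    have h5 := Nat.le_findGreatest (Nat.le_floor h3) h4
    rw [hP] at h5
    exact h5
  have hcov : B ⊆ ⋃ u ∈ U, Set.Icc (u - σ) (u + σ) := by
    intro b hb
    by_contra hc
    simp only [Set.mem_iUnion, not_exists] at hc
    have hfar : ∀ u ∈ U, σ ≤ |b - u| := by
      intro u hu
      by_contra h3
      rw [not_le, abs_lt] at h3
      exact hc u hu ⟨by linarith [h3.1], by linarith [h3.2]⟩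
    have hbU : b ∉ U := by
      intro hbU
      have := hfar b hbU
      rw [sub_self, abs_zero] at this
      linarith
    have h3 := hmax (insert b U) (by
      intro u hu
      rw [mem_insert] at hu
      rcases hu with rfl | hu
      · exact hb
      · exact hU1 u hu) (by
      intro u hu u' hu' hne
      rw [mem_insert] at hu hu'
      rcases hu with rfl | hu <;> rcases hu' with rfl | hu'
      · exact absurd rfl hne
      · exact hfar u' hu'
      · rw [abs_sub_comm]; exact hfar u hu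
      · exact hU2 u hu u' hu' hne)
    rw [card_insert_of_notMem hbU] at h3
    omega
  refine (measure_mono hcov).trans ((measure_biUnion_finset_le _ _).trans ?_)
  have h3 : ∀ u ∈ U, volume (Set.Icc (u - σ) (u + σ)) ≤ ENNReal.ofReal (2 * σ) := by
    intro u _
    rw [Real.volume_Icc]
    apply ENNReal.ofReal_le_ofReal
    linarith
  refine (Finset.sum_le_sum h3).trans ?_
  rw [Finset.sum_const, nsmul_eq_mul, ← ENNReal.ofReal_natCast,
    ← ENNReal.ofReal_mul (Nat.cast_nonneg _)]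
  apply ENNReal.ofReal_le_ofReal
  have h4 := h U hU1 hU2
  calc (U.card : ℝ) * (2 * σ) ≤ N * (2 * σ) := by gcongr
    _ = _ := by ring

/-- the points where the two sums differ -/
def Bd (ε₃ L₀ c Y : ℝ) : Set ℝ :=
  {u | |u - Y| ≤ 0.39 ∧ c < |GK Y (K2 L₀ Y) u - GK Y (K1 ε₃ Y) u|}

theorem Bd_vol (ε₃ L₀ c : ℝ) (hε₃ : 0 < ε₃) (hε₃1 : ε₃ ≤ 1 / 100) (hL₀ : 1 ≤ L₀) (hc : 0 < c) :
    ∃ η Y₀ : ℝ, 0 < η ∧ ∀ Y : ℝ, Y₀ ≤ Y →
      volume (Bd ε₃ L₀ c Y) ≤ ENNReal.ofReal (4 * Real.exp (-(η * Y))) := by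
  classical
  obtain ⟨η, Y1, hη, hX⟩ := diff_card ε₃ L₀ c hε₃ hε₃1 hL₀ hc
  refine ⟨η, max Y1 6, hη, fun Y hY => ?_⟩
  have hY1 : Y1 ≤ Y := (le_max_left _ _).trans hY
  have hY6 : 6 ≤ Y := (le_max_right _ _).trans hY
  obtain ⟨h, hh⟩ : ∃ h : ℝ, h = Real.exp (3 / 16 * Y) := ⟨_, rfl⟩
  have hXY := hX Y hY1
  rw [← hh] at hXY
  have hh0 : 0 < h := by rw [hh]; exact Real.exp_pos _
  obtain ⟨σ, hσ⟩ : ∃ σ : ℝ, σ = h / Real.exp (Y - 0.4) := ⟨_, rfl⟩
  have hσ0 : 0 < σ := by rw [hσ]; positivity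
  -- `100 h ≤ e^Y`
  have h100 : 100 * h ≤ Real.exp Y := by
    have e1 : Real.exp Y = Real.exp (13 / 16 * Y) * h := by
      rw [hh, ← Real.exp_add]; congr 1; ring
    rw [e1]
    apply mul_le_mul_of_nonneg_right _ hh0.le
    have e2 : Real.exp 4.8 ≤ Real.exp (13 / 16 * Y) := Real.exp_le_exp.2 (by norm_num; linarith)
    have e3 : Real.exp 4.8 = Real.exp 1 ^ 4 * Real.exp 0.8 := by
      rw [← Real.exp_nat_mul, ← Real.exp_add]; norm_num
    have e4 : (2.7 : ℝ) ^ 4 ≤ Real.exp 1 ^ 4 := by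
      apply pow_le_pow_left₀ (by norm_num)
      linarith [Real.exp_one_gt_d9]
    have e5 : (1.9 : ℝ) ≤ Real.exp 0.8 := by
      have h1 := Real.add_one_le_exp (0.4 : ℝ)
      have h2 : Real.exp 0.8 = Real.exp 0.4 * Real.exp 0.4 := by rw [← Real.exp_add]; norm_num
      rw [h2]
      nlinarith
    have e6 : (2.7 : ℝ) ^ 4 * 1.9 ≤ Real.exp 1 ^ 4 * Real.exp 0.8 := by gcongr
    have e7 : (100 : ℝ) ≤ 2.7 ^ 4 * 1.9 := by norm_num
    linarith
  have hlow : Real.exp (Y - 0.4) ≤ Real.exp (Y - 0.39) - h / 2 := by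
    have e1 : Real.exp (Y - 0.39) = Real.exp (Y - 0.4) * Real.exp 0.01 := by
      rw [← Real.exp_add]; congr 1; norm_num; ring
    have e2 : (1.01 : ℝ) ≤ Real.exp 0.01 := by
      have := Real.add_one_le_exp (0.01 : ℝ); linarith
    have e3 : Real.exp Y = Real.exp (Y - 0.4) * Real.exp 0.4 := by
      rw [← Real.exp_add]; congr 1; ring
    have e4 : Real.exp 0.4 ≤ 1.7 := by
      have := Pool.Agent.Q278.KS.exp04
      have e : (0.4 : ℝ) = 2 / 5 := by norm_num
      rw [e]; exact this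
    have e5 : Real.exp Y ≤ Real.exp (Y - 0.4) * 1.7 := by
      rw [e3]; gcongr
    have e6 : Real.exp (Y - 0.4) * 1.01 ≤ Real.exp (Y - 0.4) * Real.exp 0.01 := by gcongr
    rw [e1]
    linarith
  refine (sep_cover (N := Real.exp ((13 / 16 - η) * Y)) hσ0 (Real.exp_pos _).le ?_).trans
    (ENNReal.ofReal_le_ofReal ?_)
  · intro U hU hsep
    have hinj : Set.InjOn (fun u : ℝ => Real.exp u - h / 2) U := by
      intro u _ u' _ he
      have : Real.exp u = Real.exp u' := by
        simp only at he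
        linarith
      exact Real.exp_injective this
    have h1 := hXY (U.image (fun u : ℝ => Real.exp u - h / 2)) ?_ ?_
    · rw [card_image_of_injOn hinj] at h1
      exact h1
    · intro y hy
      obtain ⟨u, hu, rfl⟩ := mem_image.1 hy
      obtain ⟨a1, a2⟩ := hU u hu
      have a3 := abs_le.1 a1
      have a4 : Real.exp (Y - 0.39) ≤ Real.exp u := Real.exp_le_exp.2 (by linarith [a3.1])
      have a5 : Real.exp (Y - 0.4) ≤ Real.exp u - h / 2 := by linarith
      have a6 : 0 < Real.exp u - h / 2 := lt_of_lt_of_le (Real.exp_pos _) a5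
      have a7 : Real.log (Real.exp u - h / 2 + h / 2) = u := by
        rw [sub_add_cancel, Real.log_exp]
      have a8 : Y - 0.4 ≤ Real.log (Real.exp u - h / 2) := by
        rw [Real.le_log_iff_exp_le a6]; exact a5
      have a9 : Real.log (Real.exp u - h / 2) ≤ Y + 0.39 := by
        rw [Real.log_le_iff_le_exp a6]
        have : Real.exp u ≤ Real.exp (Y + 0.39) := Real.exp_le_exp.2 (by linarith [a3.2])
        linarith
      rw [a7]
      refine ⟨a6, ?_, ?_, a2⟩
      · rw [abs_le]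
        constructor
        · have : (0.4 : ℝ) = 2 / 5 := by norm_num
          linarith
        · have : (0.39 : ℝ) ≤ 2 / 5 := by norm_num
          linarith
      · exact a1.trans (by norm_num)
    · intro y hy y' hy' hne
      obtain ⟨u, hu, rfl⟩ := mem_image.1 hy
      obtain ⟨u', hu', rfl⟩ := mem_image.1 hy'
      have hne' : u ≠ u' := by
        intro hc; apply hne; rw [hc]
      have e1 : Real.exp u - h / 2 - (Real.exp u' - h / 2) = Real.exp u - Real.exp u' := by ring
      rw [e1]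
      have key : ∀ v w : ℝ, v ∈ U → w ∈ U → w < v → σ ≤ v - w → h ≤ Real.exp v - Real.exp w := by
        intro v w hv hw hlt hs
        obtain ⟨a1, -⟩ := hU w hw
        have a3 := abs_le.1 a1
        have a4 : Real.exp (Y - 0.4) ≤ Real.exp w := Real.exp_le_exp.2 (by linarith [a3.1])
        have a5 : Real.exp v = Real.exp w * Real.exp (v - w) := by
          rw [← Real.exp_add]; congr 1; ring
        have a6 := Real.add_one_le_exp (v - w)
        have a7 : Real.exp w * (v - w + 1) ≤ Real.exp v := by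
          rw [a5]; gcongr
        have a8 : Real.exp (Y - 0.4) * σ = h := by rw [hσ]; field_simp
        have a9 : Real.exp (Y - 0.4) * σ ≤ Real.exp w * (v - w) := by gcongr
        linarith
      have hs := hsep u hu u' hu' hne'
      rcases lt_or_gt_of_ne hne' with hlt | hlt
      · rw [abs_sub_comm, abs_of_pos (by linarith)] at hs
        have := key u' u hu' hu hlt hs
        rw [abs_sub_comm]
        exact this.trans (le_abs_self _)
      · rw [abs_of_pos (by linarith)] at hs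
        exact (key u u' hu hu' hlt hs).trans (le_abs_self _)
  · have e1 : 2 * σ * Real.exp ((13 / 16 - η) * Y) = 2 * Real.exp 0.4 * Real.exp (-(η * Y)) := by
      rw [hσ, hh, ← Real.exp_sub, mul_assoc, mul_assoc, ← Real.exp_add, ← Real.exp_add]
      congr 2
      ring
    rw [e1]
    have e4 : Real.exp 0.4 ≤ 1.7 := by
      have := Pool.Agent.Q278.KS.exp04
      have e : (0.4 : ℝ) = 2 / 5 := by norm_num
      rw [e]; exact this
    apply mul_le_mul_of_nonneg_right _ (Real.exp_pos _).le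
    linarith

end Pool.Agent.U762.HU
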