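import Pool.Agent.U762.HU.Kt
import Pool.Agent.U762.HU.A

/-! The Fejer sum over primes at the low scale is at most `2π + δ` at almost all points. -/

set_option autoImplicit false

namespace Pool.Agent.U762.HU

open Finset Filter Topology MeasureTheory Set
open Pool.Agent.W66 (TT tri tri_nonneg tri_zero_of)
open Pool.Agent.U762.GP (TT_cont tri_int1 tri_ii tri_int_zero)
open Pool.Agent.H376R2.MR (Fj Fj_nonneg)
open Pool.Agent.Q257.KS (sY sY_mem)

lemma nr_mem {Y : ℝ} {n : ℕ} (hn : n ∈ nr Y) : 1 ≤ n ∧ |Real.log n - Y| ≤ 1 / 2 := by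
  unfold nr at hn
  obtain ⟨h1, h2⟩ := Finset.mem_filter.1 hn
  exact ⟨sY_mem h1, h2⟩

lemma nr_sub {Y : ℝ} {N : ℕ} (hN : Real.exp (Y + 3) ≤ N) : nr Y ⊆ Finset.Ioc 0 N := by
  intro n hn
  obtain ⟨h1, h2⟩ := nr_mem hn
  rw [Finset.mem_Ioc]
  refine ⟨h1, ?_⟩
  have hn0 : (0 : ℝ) < n := by exact_mod_cast h1
  have h3 : (n : ℝ) ≤ Real.exp (Y + 3) := by
    rw [← Real.log_le_iff_le_exp hn0]
    linarith [(abs_le.1 h2).2]
  exact_mod_cast h3.trans hN

/-- the Fejer sum is at most an average of the smoothed prime sum -/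
theorem GK_le {Y h : ℝ} {K N : ℕ} (hh : 0 < h) (hh1 : h ≤ 1 / 2) (hN : Real.exp (Y + 3) ≤ N) (u : ℝ) :
    GK Y K u ≤ ∫ t in (Y - 1)..(Y + 1), (Fj K (t - u) + K ^ 2 * h) * TT h N t := by
  have hcf := Fj_cont K
  have htc : Continuous (tri h) := Pool.Agent.W66.tri_continuous h
  have hterm : ∀ n ∈ nr Y, ArithmeticFunction.vonMangoldt n / n * Fj K (Real.log n - u) ≤
      ∫ t in (Y - 1)..(Y + 1), (Fj K (t - u) + K ^ 2 * h) *
        (ArithmeticFunction.vonMangoldt n / n * tri h (t - Real.log n)) := by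
    intro n hn
    obtain ⟨h1, h2⟩ := nr_mem hn
    have h3 := abs_le.1 h2
    have hv : 0 ≤ ArithmeticFunction.vonMangoldt n / (n : ℝ) := Pool.Agent.U762.GP.vm_nonneg n
    have h4 : ∫ t in (Y - 1)..(Y + 1), tri h (t - Real.log n) = 1 := by
      rw [intervalIntegral.integral_comp_sub_right (fun x => tri h x)]
      have a1 := intervalIntegral.integral_add_adjacent_intervals (tri_ii h (Y - 1 - Real.log n) (-h))
        (tri_ii h (-h) h)
      have a2 := intervalIntegral.integral_add_adjacent_intervals (tri_ii h (Y - 1 - Real.log n) h)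
        (tri_ii h h (Y + 1 - Real.log n))
      have a3 := tri_int_zero hh (c := Y - 1 - Real.log n) (d := -h) (by linarith) (Or.inl le_rfl)
      have a4 := tri_int_zero hh (c := h) (d := Y + 1 - Real.log n) (by linarith) (Or.inr le_rfl)
      have a5 := tri_int1 hh
      linarith
    have h5 : ArithmeticFunction.vonMangoldt n / n * Fj K (Real.log n - u) =
        ∫ t in (Y - 1)..(Y + 1), Fj K (Real.log n - u) *
          (ArithmeticFunction.vonMangoldt n / n * tri h (t - Real.log n)) := by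
      rw [intervalIntegral.integral_const_mul, intervalIntegral.integral_const_mul, h4]
      ring
    rw [h5]
    apply intervalIntegral.integral_mono_on (by linarith)
    · apply Continuous.intervalIntegrable
      fun_prop
    · apply Continuous.intervalIntegrable
      fun_prop
    · intro t _
      by_cases ht : |t - Real.log n| ≤ h
      · apply mul_le_mul_of_nonneg_right _ (mul_nonneg hv (tri_nonneg hh _))
        have h6 := Fj_lip K (Real.log n - u) (t - u)
        have h7 : Real.log n - u - (t - u) = -(t - Real.log n) := by ring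
        rw [h7, abs_neg] at h6
        have h8 : (K : ℝ) ^ 2 * |t - Real.log n| ≤ K ^ 2 * h := by gcongr
        have h9 := (abs_le.1 h6).2
        linarith
      · rw [not_le] at ht
        rw [tri_zero_of hh ht.le]
        simp
  unfold GK
  refine (Finset.sum_le_sum hterm).trans ?_
  rw [← intervalIntegral.integral_finsetSum]
  · apply intervalIntegral.integral_mono_on (by linarith)
    · apply Continuous.intervalIntegrable
      fun_prop
    · apply Continuous.intervalIntegrable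
      have := TT_cont h N
      fun_prop
    · intro t _
      rw [← Finset.mul_sum]
      apply mul_le_mul_of_nonneg_left _ (by have := Fj_nonneg K (t - u); positivity)
      unfold TT
      apply Finset.sum_le_sum_of_subset_of_nonneg (nr_sub hN)
      intro n _ _
      exact mul_nonneg (Pool.Agent.U762.GP.vm_nonneg n) (tri_nonneg hh _)
  · intro n _
    apply Continuous.intervalIntegrable
    fun_prop

/-- the points where the low sum is large -/
def Lw (ε₃ δ Y : ℝ) : Set ℝ := {u | |u - Y| ≤ 0.39 ∧ 2 * Real.pi + δ < GK Y (K1 ε₃ Y) u}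

theorem Lw_vol (δ : ℝ) (hδ : 0 < δ) (B : ℕ) : ∃ ε₃ Y₀ : ℝ, 0 < ε₃ ∧ ε₃ ≤ 1 / 100 ∧
    ∀ Y : ℝ, Y₀ ≤ Y → volume (Lw ε₃ δ Y) ≤ ENNReal.ofReal (1 / Y ^ B) := by
  obtain ⟨c, Y1, hc, hc1, hKT⟩ := tt_L1 (B + 1)
  obtain ⟨ε₃, hε₃⟩ : ∃ ε₃ : ℝ, ε₃ = c / 16 := ⟨_, rfl⟩
  have hε0 : 0 < ε₃ := by rw [hε₃]; positivity
  have hε1 : ε₃ ≤ 1 / 100 := by rw [hε₃]; linarith
  obtain ⟨Y2, hsz⟩ := sizes (L₀ := 1) hε0 hε1 le_rfl
  have hev : ∀ᶠ Y : ℝ in atTop, Y1 ≤ Y ∧ Y2 ≤ Y ∧ 7 ≤ Y ∧ 4 * Real.pi / δ ≤ Y ∧ 2 ≤ c * Y ∧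
      1 * (Y + 3) ^ 0 * Real.exp (-(c / 2 * Y)) ≤ δ / 6 := by
    filter_upwards [eventually_ge_atTop Y1, eventually_ge_atTop Y2, eventually_ge_atTop 7,
      eventually_ge_atTop (4 * Real.pi / δ), (tendsto_id.const_mul_atTop hc).eventually_ge_atTop 2,
      Pool.Agent.Q257.KS.ev_small (c / 2) 1 (δ / 6) 0 (by positivity) (by positivity)]
      with Y a1 a2 a3 a4 a5 a6
    exact ⟨a1, a2, a3, a4, a5, a6⟩
  obtain ⟨Y₀, hY₀⟩ := eventually_atTop.1 hev
  refine ⟨ε₃, Y₀, hε0, hε1, fun Y hY => ?_⟩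
  obtain ⟨hYa, hYb, hY7, hYδ, hcY2, hsm⟩ := hY₀ Y hY
  rw [pow_zero, mul_one, one_mul] at hsm
  obtain ⟨s1, s2, s3, s4, s5, s6, s7⟩ := hsz Y hYb
  obtain ⟨K, hK⟩ : ∃ K : ℕ, K = K1 ε₃ Y := ⟨_, rfl⟩
  rw [← hK] at s2 s5
  have hKone : 1 ≤ K := s1.trans s2
  obtain ⟨N, hN⟩ : ∃ N : ℕ, N = ⌈Real.exp (Y + 3)⌉₊ := ⟨_, rfl⟩
  have hN1 : Real.exp (Y + 3) ≤ N := by rw [hN]; exact Nat.le_ceil _
  obtain ⟨h, hh⟩ : ∃ h : ℝ, h = Real.exp (-(c * Y)) := ⟨_, rfl⟩
  have hL1 := hKT Y hYa N hN1
  rw [← hh] at hL1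
  have hh0 : 0 < h := by rw [hh]; exact Real.exp_pos _
  have hh1 : h ≤ 1 / 2 := by
    rw [hh, Real.exp_neg]
    have h1 := Real.add_one_le_exp (c * Y)
    rw [← one_div]
    apply one_div_le_one_div_of_le (by norm_num)
    linarith
  -- `K^2 h` is small
  have hK2h : (K : ℝ) ^ 2 * h ≤ δ / 6 := by
    refine le_trans ?_ hsm
    calc (K : ℝ) ^ 2 * h ≤ (Real.exp (4 * ε₃ * Y)) ^ 2 * Real.exp (-(c * Y)) := by
          rw [hh]; gcongr
      _ = Real.exp (-(c / 2 * Y)) := by
          rw [← Real.exp_nat_mul, ← Real.exp_add]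
          congr 1
          rw [hε₃]
          push_cast
          ring
  obtain ⟨F, hF⟩ : ∃ F : ℝ → ℝ, F = fun t => |TT h N t - 1| := ⟨_, rfl⟩
  have hFc : Continuous F := by
    rw [hF]; exact ((TT_cont h N).sub continuous_const).abs
  have hF0 : ∀ x, 0 ≤ F x := fun x => by rw [hF]; exact abs_nonneg _
  have hFL : ∫ t in (Y - 1)..(Y + 1), F t ≤ 1 / Y ^ (B + 1) := by rw [hF]; exact hL1
  obtain ⟨Φ, hΦ⟩ : ∃ Φ : ℝ → ℝ, Φ = fun u => ∫ t in (Y - 1)..(Y + 1), Fj K (t - u) * F t := ⟨_, rfl⟩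
  have hcf : Continuous (fun x => Fj K x) := Fj_cont K
  have hΦc : Continuous Φ := by
    rw [hΦ]
    exact intervalIntegral.continuous_parametric_intervalIntegral_of_continuous'
      (f := fun u t => Fj K (t - u) * F t) (by
        have h1 : Continuous fun p : ℝ × ℝ => Fj K (p.2 - p.1) * F p.2 := by fun_prop
        exact h1) _ _
  have hΦ0 : ∀ u, 0 ≤ Φ u := fun u => by
    rw [hΦ]
    apply intervalIntegral.integral_nonneg (by linarith)
    intro t _
    exact mul_nonneg (Fj_nonneg K _) (hF0 t)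
  have hΦint := conv_int hFc hF0 hKone Y
  have hpi3 := Real.pi_gt_three
  have hpi4 := Real.pi_lt_four
  have hYB : 1 / Y ^ (B + 1) ≤ 1 := by
    rw [div_le_one (by positivity)]
    exact one_le_pow₀ (by linarith)
  -- pointwise
  have hpt : ∀ u : ℝ, |u - Y| ≤ 0.39 → GK Y K u ≤ 2 * Real.pi + δ / 2 + Φ u := by
    intro u hu
    have hu' := abs_le.1 hu
    refine (GK_le hh0 hh1 hN1 u).trans ?_
    have h1 : ∫ t in (Y - 1)..(Y + 1), (Fj K (t - u) + K ^ 2 * h) * TT h N t ≤
        ∫ t in (Y - 1)..(Y + 1), (Fj K (t - u) + (K ^ 2 * h + (Fj K (t - u) * F t +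
          (K ^ 2 * h) * F t))) := by
      apply intervalIntegral.integral_mono_on (by linarith)
      · apply Continuous.intervalIntegrable
        have := TT_cont h N
        fun_prop
      · apply Continuous.intervalIntegrable
        fun_prop
      · intro t _
        have h2 : TT h N t ≤ 1 + F t := by
          rw [hF]
          have := le_abs_self (TT h N t - 1)
          simp only
          linarith
        have h3 : 0 ≤ Fj K (t - u) + K ^ 2 * h := by
          have := Fj_nonneg K (t - u); positivity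
        have h4 := mul_le_mul_of_nonneg_left h2 h3
        have h5 : (Fj K (t - u) + K ^ 2 * h) * (1 + F t) =
          Fj K (t - u) + (K ^ 2 * h + (Fj K (t - u) * F t + (K ^ 2 * h) * F t)) := by ring
        linarith
    refine h1.trans ?_
    rw [intervalIntegral.integral_add, intervalIntegral.integral_add,
      intervalIntegral.integral_add, intervalIntegral.integral_const,
      intervalIntegral.integral_const_mul]
    · have h2 : ∫ t in (Y - 1)..(Y + 1), Fj K (t - u) ≤ 2 * Real.pi := by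
        rw [intervalIntegral.integral_comp_sub_right (fun x => Fj K x), ← Fj_int hKone]
        apply intervalIntegral.integral_mono_interval
        · linarith
        · linarith
        · linarith
        · exact Filter.Eventually.of_forall fun x => Fj_nonneg K x
        · exact Fj_ii K _ _
      have h3 : (K : ℝ) ^ 2 * h * ∫ t in (Y - 1)..(Y + 1), F t ≤ δ / 6 * 1 := by
        apply mul_le_mul hK2h (hFL.trans hYB) _ (by positivity)
        apply intervalIntegral.integral_nonneg (by linarith)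
        intro t _; exact hF0 t
      have h4 : (Y + 1 - (Y - 1)) • ((K : ℝ) ^ 2 * h) ≤ δ / 3 := by
        rw [smul_eq_mul]
        have : (Y + 1 - (Y - 1)) * ((K : ℝ) ^ 2 * h) = 2 * ((K : ℝ) ^ 2 * h) := by ring
        rw [this]
        linarith
      rw [hΦ]
      simp only
      linarith
    · apply Continuous.intervalIntegrable; fun_prop
    · apply Continuous.intervalIntegrable; fun_prop
    · apply Continuous.intervalIntegrable; fun_prop
    · apply Continuous.intervalIntegrable; fun_prop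
    · apply Continuous.intervalIntegrable; fun_prop
    · apply Continuous.intervalIntegrable; fun_prop
  -- Markov
  have hsub : Lw ε₃ δ Y ⊆ {u | δ / 2 ≤ Φ u} ∩ Icc (Y - 0.39) (Y + 0.39) := by
    rintro u ⟨hu1, hu2⟩
    rw [← hK] at hu2
    have h1 := hpt u hu1
    have h2 := abs_le.1 hu1
    refine ⟨?_, by linarith [h2.1], by linarith [h2.2]⟩
    show δ / 2 ≤ Φ u
    linarith
  refine (measure_mono hsub).trans ?_
  have hab : Y - 0.39 ≤ Y + 0.39 := by linarith
  haveI : IsFiniteMeasure (volume.restrict (Ioc (Y - 0.39) (Y + 0.39))) :=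
    ⟨by rw [Measure.restrict_apply_univ]; exact measure_Ioc_lt_top⟩
  have h1 := mul_meas_ge_le_integral_of_nonneg (μ := volume.restrict (Ioc (Y - 0.39) (Y + 0.39)))
    (f := Φ) (Filter.Eventually.of_forall fun y => hΦ0 y)
    (hΦc.integrableOn_Icc.mono_set Ioc_subset_Icc_self) (δ / 2)
  rw [← intervalIntegral.integral_of_le hab] at h1
  have hΦ2 : ∫ u in (Y - 0.39)..(Y + 0.39), Φ u ≤ 2 * Real.pi * (1 / Y ^ (B + 1)) := by
    rw [hΦ]
    exact hΦint.trans (mul_le_mul_of_nonneg_left hFL (by positivity))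
  have h2 : (volume.restrict (Ioc (Y - 0.39) (Y + 0.39))).real {x | δ / 2 ≤ Φ x} ≤ 1 / Y ^ B := by
    have h3 := h1.trans hΦ2
    have h4 : (volume.restrict (Ioc (Y - 0.39) (Y + 0.39))).real {x | δ / 2 ≤ Φ x} ≤
        4 * Real.pi / δ * (1 / Y ^ (B + 1)) := by
      have e : 4 * Real.pi / δ * (1 / Y ^ (B + 1)) = 2 * Real.pi * (1 / Y ^ (B + 1)) / (δ / 2) := by
        field_simp; ring
      rw [e, le_div_iff₀ (by positivity)]
      linarith
    refine h4.trans ?_
    calc 4 * Real.pi / δ * (1 / Y ^ (B + 1)) ≤ Y * (1 / Y ^ (B + 1)) := by gcongr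
      _ = 1 / Y ^ B := by rw [pow_succ]; field_simp
  have h8 : (volume.restrict (Ioc (Y - 0.39) (Y + 0.39))) {x | δ / 2 ≤ Φ x} ≤
      ENNReal.ofReal (1 / Y ^ B) := by
    rw [← ENNReal.ofReal_toReal (measure_ne_top (volume.restrict (Ioc (Y - 0.39) (Y + 0.39)))
      {x | δ / 2 ≤ Φ x})]
    exact ENNReal.ofReal_le_ofReal h2
  have h9 : volume ({u | δ / 2 ≤ Φ u} ∩ Icc (Y - 0.39) (Y + 0.39)) ≤
      (volume.restrict (Ioc (Y - 0.39) (Y + 0.39))) {x | δ / 2 ≤ Φ x} := by
    rw [Measure.restrict_congr_set Ioc_ae_eq_Icc, Measure.restrict_apply' measurableSet_Icc]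
  exact h9.trans h8

end Pool.Agent.U762.HU
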