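import Pool.Agent.U762.HU.B
import Pool.Agent.U762.HU.Low

/-! A uniform bound for the Fejer sum over primes, and windows at almost all points. -/

set_option autoImplicit false

namespace Pool.Agent.U762.HU

open Finset Filter Topology MeasureTheory
open Pool.Agent.H376R2.MR (Fj Fj_nonneg Fj_le)
open Pool.Agent.Q240.KS Pool.Agent.Q257.KS

theorem GK_bdd (L₀ : ℝ) (hL₀ : 1 ≤ L₀) : ∃ C Y₀ : ℝ, 0 < C ∧ ∀ Y : ℝ, Y₀ ≤ Y → ∀ u : ℝ,
    |u - Y| ≤ 0.41 → GK Y (K2 L₀ Y) u ≤ C := by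
  obtain ⟨CB, YB, hCB, hBTL⟩ := Pool.Agent.Q251.KS.btl (7 / 8) (by norm_num) (by norm_num)
  obtain ⟨Y2, hsz⟩ := sizes (ε₃ := 1 / 100) (L₀ := L₀) (by norm_num) le_rfl hL₀
  have hev : ∀ᶠ Y : ℝ in atTop, YB ≤ Y ∧ Y2 ≤ Y ∧ 6 ≤ Y ∧
      (2 * L₀) * (Y + 3) ^ 0 * Real.exp (-(1 / 16 * Y)) ≤ 1 := by
    filter_upwards [eventually_ge_atTop YB, eventually_ge_atTop Y2, eventually_ge_atTop 6,
      ev_small (1 / 16) (2 * L₀) 1 0 (by norm_num) (by norm_num)] with Y a1 a2 a3 a4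
    exact ⟨a1, a2, a3, a4⟩
  obtain ⟨Y₀, hY₀⟩ := eventually_atTop.1 hev
  refine ⟨42 * CB, Y₀, by linarith, fun Y hY u hu => ?_⟩
  obtain ⟨hYa, hYb, hY6, hsm⟩ := hY₀ Y hY
  rw [pow_zero, mul_one] at hsm
  obtain ⟨s1, s2, s3, s4, s5, s6, s7⟩ := hsz Y hYb
  obtain ⟨K, hK⟩ : ∃ K : ℕ, K = K2 L₀ Y := ⟨_, rfl⟩
  rw [← hK] at s6 s7 ⊢
  have hCB0 : 0 ≤ CB := by linarith
  have hK100' : (100 : ℝ) ≤ K := by
    refine le_trans ?_ s6
    have e2 : Real.exp 4.8 ≤ Real.exp (13 / 16 * Y) := Real.exp_le_exp.2 (by norm_num; linarith)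
    have e3 : Real.exp 4.8 = Real.exp 1 ^ 4 * Real.exp 0.8 := by
      rw [← Real.exp_nat_mul, ← Real.exp_add]; norm_num
    have e4 : (2.7 : ℝ) ^ 4 ≤ Real.exp 1 ^ 4 := by
      apply pow_le_pow_left₀ (by norm_num)
      linarith [Real.exp_one_gt_d9]
    have e5 : (1.9 : ℝ) ≤ Real.exp 0.8 := by
      have h1 := Real.add_one_le_exp (0.4 : ℝ)
      have h2 : Real.exp 0.8 = Real.exp 0.4 * Real.exp 0.4 := by rw [← Real.exp_add]; norm_num
      rw [h2]
      nlinarith
    have e6 : (2.7 : ℝ) ^ 4 * 1.9 ≤ Real.exp 1 ^ 4 * Real.exp 0.8 := by gcongr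
    have e7 : (100 : ℝ) ≤ 2.7 ^ 4 * 1.9 := by norm_num
    linarith
  have hK100 : 100 ≤ K := by exact_mod_cast hK100'
  have hK0 : (0 : ℝ) < K := by linarith
  have hK1 : (1 : ℝ) / K ≤ 1 / 100 := by gcongr
  have hKinv : 0 < (1 : ℝ) / K := by positivity
  have hbt : ∀ v : ℝ, |v - Y| ≤ 1 → SL v (1 / K) ≤ CB / K := by
    intro v hv
    have h1 := hBTL Y v (1 / K) hYa hv (by
      rw [le_div_iff₀ hK0]
      calc Real.exp (-(7 / 8 * Y)) * K ≤ Real.exp (-(7 / 8 * Y)) * (2 * L₀ * Real.exp (13 / 16 * Y)) := by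
            gcongr
        _ = 2 * L₀ * (Real.exp (-(7 / 8 * Y)) * Real.exp (13 / 16 * Y)) := by ring
        _ = 2 * L₀ * Real.exp (-(1 / 16 * Y)) := by rw [← Real.exp_add]; congr 2; ring
        _ ≤ 1 := hsm) (by linarith)
    rwa [mul_one_div] at h1
  obtain ⟨y, hy⟩ : ∃ y : ℝ, y = Real.exp (u - 1 / K) := ⟨_, rfl⟩
  obtain ⟨h, hh⟩ : ∃ h : ℝ, h = Real.exp (u + 1 / K) - y := ⟨_, rfl⟩
  have hyh : y + h = Real.exp (u + 1 / K) := by rw [hh]; ring
  have hR := right_side (y := y) (h := h) hCB0 K 1 hK100 le_rfl hbt hu (by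
    intro n hn
    rw [hyh] at hn
    have hn0 : (0 : ℝ) < n := lt_trans (Real.exp_pos _) hn
    have h1 := (Real.lt_log_iff_exp_lt hn0).2 hn
    push_cast
    linarith)
  have hL := left_side (y := y) hCB0 K 1 hK100 le_rfl hbt hu (by
    intro n hn1 hn
    have hn0 : (0 : ℝ) < n := by exact_mod_cast hn1
    rw [hy] at hn
    have h1 := (Real.log_le_iff_le_exp hn0).2 hn
    push_cast
    linarith)
  have hu' := abs_le.1 hu
  -- the middle terms
  obtain ⟨M, hM⟩ : ∃ M : Finset ℕ, M = (((sY Y).filter (fun n : ℕ => |Real.log n - Y| ≤ 1 / 2)).filter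
      (fun n : ℕ => ¬ (n : ℝ) ≤ y)).filter (fun n : ℕ => ¬ y + h < n) := ⟨_, rfl⟩
  have hMmem : ∀ n ∈ M, 1 ≤ n ∧ u - 1 / K ≤ Real.log n ∧ Real.log n ≤ u + 1 / K := by
    intro n hn
    rw [hM] at hn
    obtain ⟨h1, h2⟩ := Finset.mem_filter.1 hn
    obtain ⟨h3, h4⟩ := Finset.mem_filter.1 h1
    obtain ⟨h5, h6⟩ := Finset.mem_filter.1 h3
    have hn1 := sY_mem h5
    have hn0 : (0 : ℝ) < n := by exact_mod_cast hn1
    rw [not_le, hy] at h4
    rw [not_lt, hyh] at h2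
    exact ⟨hn1, ((Real.lt_log_iff_exp_lt hn0).2 h4).le, (Real.log_le_iff_le_exp hn0).2 h2⟩
  have hv : ∀ n : ℕ, 0 ≤ ArithmeticFunction.vonMangoldt n / (n : ℝ) :=
    fun n => div_nonneg ArithmeticFunction.vonMangoldt_nonneg (Nat.cast_nonneg _)
  have hMid : ∑ n ∈ M, ArithmeticFunction.vonMangoldt n / n * Fj K (Real.log n - u) ≤ 2 * CB := by
    have h1 : ∑ n ∈ M, ArithmeticFunction.vonMangoldt n / n * Fj K (Real.log n - u) ≤
        K * ∑ n ∈ M, ArithmeticFunction.vonMangoldt n / n := by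
      rw [Finset.mul_sum]
      refine Finset.sum_le_sum fun n _ => ?_
      rw [mul_comm]
      exact mul_le_mul_of_nonneg_right (Fj_le K _) (hv n)
    have h2 : ∑ n ∈ M, ArithmeticFunction.vonMangoldt n / (n : ℝ) ≤
        ∑ n ∈ M.filter (fun n : ℕ => Real.log n ≤ u), ArithmeticFunction.vonMangoldt n / (n : ℝ) +
        ∑ n ∈ M.filter (fun n : ℕ => ¬ Real.log n ≤ u), ArithmeticFunction.vonMangoldt n / (n : ℝ) := by
      rw [Finset.sum_filter_add_sum_filter_not]
    have h3 := le_SL (v := u - 1 / K) (t := 1 / K) (M.filter (fun n : ℕ => Real.log n ≤ u)) (by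
      intro n hn
      obtain ⟨a1, a2⟩ := Finset.mem_filter.1 hn
      obtain ⟨b1, b2, b3⟩ := hMmem n a1
      exact ⟨b1, b2, by linarith⟩)
    have h4 := le_SL (v := u) (t := 1 / K) (M.filter (fun n : ℕ => ¬ Real.log n ≤ u)) (by
      intro n hn
      obtain ⟨a1, a2⟩ := Finset.mem_filter.1 hn
      obtain ⟨b1, b2, b3⟩ := hMmem n a1
      exact ⟨b1, (not_le.1 a2).le, b3⟩)
    have h5 := hbt (u - 1 / K) (by rw [abs_le]; constructor <;> linarith)
    have h6 := hbt u (by rw [abs_le]; constructor <;> linarith)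
    have h7 : ∑ n ∈ M, ArithmeticFunction.vonMangoldt n / (n : ℝ) ≤ 2 * (CB / K) := by linarith
    calc _ ≤ K * ∑ n ∈ M, ArithmeticFunction.vonMangoldt n / (n : ℝ) := h1
      _ ≤ K * (2 * (CB / K)) := by gcongr
      _ = 2 * CB := by field_simp
  have hsplit : GK Y K u =
      ∑ n ∈ ((sY Y).filter (fun n : ℕ => |Real.log n - Y| ≤ 1 / 2)).filter (fun n : ℕ => (n : ℝ) ≤ y),
        ArithmeticFunction.vonMangoldt n / n * Fj K (Real.log n - u) +
      (∑ n ∈ (((sY Y).filter (fun n : ℕ => |Real.log n - Y| ≤ 1 / 2)).filter (fun n : ℕ => ¬ (n : ℝ) ≤ y)).filter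
        (fun n : ℕ => y + h < n), ArithmeticFunction.vonMangoldt n / n * Fj K (Real.log n - u) +
      ∑ n ∈ M, ArithmeticFunction.vonMangoldt n / n * Fj K (Real.log n - u)) := by
    rw [hM]
    rw [Finset.sum_filter_add_sum_filter_not, Finset.sum_filter_add_sum_filter_not]
    rfl
  have hRsub : ∑ n ∈ (((sY Y).filter (fun n : ℕ => |Real.log n - Y| ≤ 1 / 2)).filter (fun n : ℕ => ¬ (n : ℝ) ≤ y)).filter
        (fun n : ℕ => y + h < n), ArithmeticFunction.vonMangoldt n / n * Fj K (Real.log n - u) ≤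
      ∑ n ∈ ((sY Y).filter (fun n : ℕ => |Real.log n - Y| ≤ 1 / 2)).filter (fun n : ℕ => y + h < n),
        ArithmeticFunction.vonMangoldt n / n * Fj K (Real.log n - u) :=
    Finset.sum_le_sum_of_subset_of_nonneg
      (Finset.filter_subset_filter _ (Finset.filter_subset _ _)) (fun n _ _ => term_nonneg u K n)
  rw [hsplit]
  simp only [Nat.cast_one, div_one] at hR hL
  linarith

/-- windows at dyadic scales -/
theorem dyad {F : ℝ → ℝ} (hF : Continuous F) (h0 : ∀ x, 0 ≤ F x) {p q T τ a : ℝ} (J : ℕ)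
    (hpq : p ≤ q) (hT : ∫ t in (p - 1 / 5)..(q + 1 / 5), F t ≤ T) (hτ : 0 < τ)
    (ha : (1 / 2 : ℝ) ^ J ≤ a) :
    volume ({v : ℝ | ∃ η : ℝ, a ≤ η ∧ η ≤ 1 / 20 ∧ τ * η < ∫ t in (v - η)..(v + 2 * η), F t} ∩
      Set.Icc p q) ≤ ENNReal.ofReal ((J + 1) * (6 * T / τ)) := by
  have hFi : ∀ c d, IntervalIntegrable F volume c d := fun c d => hF.intervalIntegrable c d
  have ha0 : 0 < a := lt_of_lt_of_le (by positivity) ha
  have hT0 : 0 ≤ T := by
    refine le_trans ?_ hT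
    apply intervalIntegral.integral_nonneg (by linarith)
    intro t _; exact h0 t
  obtain ⟨G, hG⟩ : ∃ G : ℝ → ℝ → ℝ, G = fun r v => ∫ t in (v - r)..(v + 2 * r), F t := ⟨_, rfl⟩
  have hprim : Continuous (fun x : ℝ => ∫ t in (0 : ℝ)..x, F t) :=
    intervalIntegral.continuous_primitive (fun a b => hFi a b) 0
  have hGc : ∀ r, Continuous (G r) := by
    intro r
    have e : G r = fun y => (∫ t in (0 : ℝ)..(y + 2 * r), F t) - ∫ t in (0 : ℝ)..(y - r), F t := by
      funext y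
      rw [hG]
      simp only
      rw [intervalIntegral.integral_interval_sub_left (hFi _ _) (hFi _ _)]
    rw [e]
    exact (hprim.comp (by fun_prop)).sub (hprim.comp (by fun_prop))
  have hG0 : ∀ r, 0 ≤ r → ∀ y, 0 ≤ G r y := fun r hr y => by
    rw [hG]
    apply intervalIntegral.integral_nonneg (by linarith)
    intro t _; exact h0 t
  -- the mean of a window
  have hmean : ∀ r : ℝ, 0 ≤ r → r ≤ 1 / 10 → ∫ v in p..q, G r v ≤ 3 * r * T := by
    intro r hr hr1
    have e1 : ∀ v, G r v = ∫ s in (-r)..(2 * r), F (v + s) := by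
      intro v
      rw [hG]
      simp only
      rw [intervalIntegral.integral_comp_add_left F v, sub_eq_add_neg]
    simp_rw [e1]
    have e2 : ∫ v in p..q, ∫ s in (-r)..(2 * r), F (v + s) =
        ∫ s in (-r)..(2 * r), ∫ v in p..q, F (v + s) := by
      apply intervalIntegral_intervalIntegral_swap
      have hc : Continuous (Function.uncurry fun v s : ℝ => F (v + s)) := by
        apply hF.comp
        fun_prop
      have hcomp : IsCompact (Set.uIcc p q ×ˢ Set.uIcc (-r) (2 * r)) :=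
        isCompact_uIcc.prod isCompact_uIcc
      exact (hc.continuousOn.integrableOn_compact hcomp).mono_set
        (Set.prod_mono Set.uIoc_subset_uIcc Set.uIoc_subset_uIcc)
    rw [e2]
    have h1 : ∀ s ∈ Set.Icc (-r) (2 * r), ∫ v in p..q, F (v + s) ≤ T := by
      intro s hs
      rw [intervalIntegral.integral_comp_add_right F s]
      refine le_trans ?_ hT
      apply intervalIntegral.integral_mono_interval (by linarith [hs.1]) (by linarith)
        (by linarith [hs.2])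
      · exact Filter.Eventually.of_forall fun x => h0 x
      · exact hFi _ _
    have h2 : ∫ s in (-r)..(2 * r), ∫ v in p..q, F (v + s) ≤ ∫ _s in (-r)..(2 * r), T := by
      apply intervalIntegral.integral_mono_on (by linarith)
      · apply Continuous.intervalIntegrable
        exact intervalIntegral.continuous_parametric_intervalIntegral_of_continuous'
          (f := fun s v => F (v + s)) (by
            have : (Function.uncurry fun s v : ℝ => F (v + s)) = fun z : ℝ × ℝ => F (z.2 + z.1) := rfl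
            rw [this]
            exact hF.comp (by fun_prop)) _ _
      · exact intervalIntegrable_const
      · exact h1
    refine h2.trans (le_of_eq ?_)
    rw [intervalIntegral.integral_const, smul_eq_mul]
    ring
  obtain ⟨Bj, hBj⟩ : ∃ Bj : ℕ → Set ℝ, Bj = fun j => {v | (1 / 2 : ℝ) ^ j ≤ 1 / 10 ∧
      τ / 2 * (1 / 2 : ℝ) ^ j ≤ G ((1 / 2 : ℝ) ^ j) v} := ⟨_, rfl⟩
  have hBm : ∀ j, volume (Bj j ∩ Set.Icc p q) ≤ ENNReal.ofReal (6 * T / τ) := by
    intro j
    by_cases hj : (1 / 2 : ℝ) ^ j ≤ 1 / 10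
    swap
    · have : Bj j = ∅ := by
        ext y
        rw [hBj]
        simp only [Set.mem_setOf_eq, Set.mem_empty_iff_false, iff_false, not_and]
        intro h1
        exact absurd h1 hj
      rw [this]; simp
    have hpj : (0 : ℝ) < (1 / 2 : ℝ) ^ j := by positivity
    haveI : IsFiniteMeasure (volume.restrict (Set.Ioc p q)) :=
      ⟨by rw [Measure.restrict_apply_univ]; exact measure_Ioc_lt_top⟩
    have h1 := mul_meas_ge_le_integral_of_nonneg (μ := volume.restrict (Set.Ioc p q))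
      (f := G ((1 / 2 : ℝ) ^ j)) (Filter.Eventually.of_forall fun y => hG0 _ hpj.le y)
      ((hGc _).integrableOn_Icc.mono_set Set.Ioc_subset_Icc_self) (τ / 2 * (1 / 2 : ℝ) ^ j)
    rw [← intervalIntegral.integral_of_le hpq] at h1
    have h2 := hmean _ hpj.le hj
    have h3 : (volume.restrict (Set.Ioc p q)).real
        {x | τ / 2 * (1 / 2 : ℝ) ^ j ≤ G ((1 / 2 : ℝ) ^ j) x} ≤ 6 * T / τ := by
      have h4 := h1.trans h2
      rw [le_div_iff₀ hτ]
      have h5 : (1 / 2 : ℝ) ^ j * ((volume.restrict (Set.Ioc p q)).real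
          {x | τ / 2 * (1 / 2 : ℝ) ^ j ≤ G ((1 / 2 : ℝ) ^ j) x} * τ) ≤ (1 / 2 : ℝ) ^ j * (6 * T) := by
        linarith
      exact le_of_mul_le_mul_left h5 hpj
    have h8 : (volume.restrict (Set.Ioc p q)) {x | τ / 2 * (1 / 2 : ℝ) ^ j ≤ G ((1 / 2 : ℝ) ^ j) x} ≤
        ENNReal.ofReal (6 * T / τ) := by
      rw [← ENNReal.ofReal_toReal (measure_ne_top (volume.restrict (Set.Ioc p q))
        {x | τ / 2 * (1 / 2 : ℝ) ^ j ≤ G ((1 / 2 : ℝ) ^ j) x})]
      exact ENNReal.ofReal_le_ofReal h3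
    have h9 : volume (Bj j ∩ Set.Icc p q) ≤
        (volume.restrict (Set.Ioc p q)) {x | τ / 2 * (1 / 2 : ℝ) ^ j ≤ G ((1 / 2 : ℝ) ^ j) x} := by
      rw [Measure.restrict_congr_set Ioc_ae_eq_Icc, Measure.restrict_apply' measurableSet_Icc]
      apply measure_mono
      apply Set.inter_subset_inter_left
      intro y hy
      rw [hBj] at hy
      exact hy.2
    exact h9.trans h8
  have hsub : {v : ℝ | ∃ η : ℝ, a ≤ η ∧ η ≤ 1 / 20 ∧ τ * η < ∫ t in (v - η)..(v + 2 * η), F t} ∩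
      Set.Icc p q ⊆ ⋃ j ∈ Finset.range (J + 1), (Bj j ∩ Set.Icc p q) := by
    rintro v ⟨⟨η, h1, h2, h3⟩, hv⟩
    have hη : 0 < η := lt_of_lt_of_le ha0 h1
    have hex : ∃ j : ℕ, (1 / 2 : ℝ) ^ (j + 1) < η := by
      obtain ⟨j, hj⟩ := exists_pow_lt_of_lt_one hη (by norm_num : (1 / 2 : ℝ) < 1)
      exact ⟨j, lt_of_le_of_lt (pow_le_pow_of_le_one (by norm_num) (by norm_num) (by omega)) hj⟩
    classical
    obtain ⟨j, hj⟩ : ∃ j : ℕ, j = Nat.find hex := ⟨_, rfl⟩
    have hj1 : (1 / 2 : ℝ) ^ (j + 1) < η := by rw [hj]; exact Nat.find_spec hex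
    have hj2 : η ≤ (1 / 2 : ℝ) ^ j := by
      rcases Nat.eq_zero_or_pos j with h | h
      · rw [h, pow_zero]; linarith
      · have := Nat.find_min hex (m := j - 1) (by rw [← hj]; omega)
        rw [not_lt] at this
        have e : j - 1 + 1 = j := by omega
        rwa [e] at this
    have hjJ : j ≤ J := by
      by_contra hc
      rw [not_le] at hc
      have h4 : (1 / 2 : ℝ) ^ j < (1 / 2 : ℝ) ^ J :=
        pow_lt_pow_right_of_lt_one₀ (by norm_num) (by norm_num) hc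
      linarith
    have h10 : (1 / 2 : ℝ) ^ j ≤ 1 / 10 := by
      rw [pow_succ] at hj1
      linarith
    rw [Set.mem_iUnion₂]
    refine ⟨j, Finset.mem_range.2 (by omega), ?_, hv⟩
    rw [hBj]
    refine ⟨h10, ?_⟩
    have h4 : ∫ t in (v - η)..(v + 2 * η), F t ≤ G ((1 / 2 : ℝ) ^ j) v := by
      rw [hG]
      apply intervalIntegral.integral_mono_interval (by linarith) (by linarith) (by linarith)
      · exact Filter.Eventually.of_forall fun x => h0 x
      · exact hFi _ _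
    have h5 : τ / 2 * (1 / 2 : ℝ) ^ j ≤ τ * η := by
      rw [pow_succ] at hj1
      have : (1 / 2 : ℝ) ^ j ≤ 2 * η := by linarith
      calc τ / 2 * (1 / 2 : ℝ) ^ j ≤ τ / 2 * (2 * η) := by gcongr
        _ = _ := by ring
    linarith
  refine (measure_mono hsub).trans ((measure_biUnion_finset_le _ _).trans ?_)
  refine (Finset.sum_le_sum fun j _ => hBm j).trans ?_
  rw [Finset.sum_const, nsmul_eq_mul, Finset.card_range, ← ENNReal.ofReal_natCast,
    ← ENNReal.ofReal_mul (Nat.cast_nonneg _)]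
  apply ENNReal.ofReal_le_ofReal
  push_cast
  exact le_rfl

end Pool.Agent.U762.HU
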