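import Pool.Agent.U762.HU.D

/-! Windows of length `≥ e^(-0.81 Y)` at almost all points. -/

set_option autoImplicit false

namespace Pool.Agent.U762.HU

open Finset Filter Topology MeasureTheory
open Pool.Agent.H376R2.MR (Fj Fj_nonneg Fj_le)
open Pool.Agent.Q257.KS
open Pool.Agent.U762.GP (Th mem_win vm_nonneg)

lemma GK_cont (Y : ℝ) (K : ℕ) : Continuous (GK Y K) := by
  unfold GK
  apply continuous_finset_sum
  intro n _
  exact continuous_const.mul ((Fj_cont K).comp (by fun_prop))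

/-- the window sum against the Fejer sum -/
lemma Th_GK {Y v η b : ℝ} {K : ℕ} (hK : 1 ≤ K) (hb : 0 < b) (hbπ : b ≤ Real.pi)
    (hη : 0 ≤ η) (hη1 : η ≤ 1 / 20) (hv : |v - Y| ≤ 1 / 10) :
    (2 * Real.pi - 2 * (Real.pi ^ 2 / (K * b))) * Th v η ≤
      ∫ u in (v - b)..(v + η + b), GK Y K u := by
  have hv' := abs_le.1 hv
  have hcf := Fj_cont K
  have e1 : ∫ u in (v - b)..(v + η + b), GK Y K u =
      ∑ n ∈ nr Y, ArithmeticFunction.vonMangoldt n / n *
        ∫ x in (Real.log n - (v + η + b))..(Real.log n - (v - b)), Fj K x := by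
    unfold GK
    rw [intervalIntegral.integral_finset_sum]
    · apply Finset.sum_congr rfl
      intro n _
      rw [intervalIntegral.integral_const_mul,
        intervalIntegral.integral_comp_sub_left (fun x => Fj K x)]
    · intro n _
      apply Continuous.intervalIntegrable
      exact continuous_const.mul (hcf.comp (by fun_prop))
  rw [e1]
  have hsub : Finset.Ioc ⌊Real.exp v⌋₊ ⌊Real.exp (v + η)⌋₊ ⊆ nr Y := by
    intro n hn
    have h1 := mem_win hn
    have hn0 : (0 : ℝ) < n := by exact_mod_cast h1.1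
    unfold nr sY
    rw [Finset.mem_filter, Finset.mem_Icc]
    refine ⟨⟨h1.1, ?_⟩, ?_⟩
    · apply Nat.le_floor
      rw [← Real.log_le_iff_le_exp hn0]
      linarith [h1.2.2]
    · rw [abs_le]
      constructor
      · linarith [h1.2.1]
      · linarith [h1.2.2]
  refine le_trans ?_ (Finset.sum_le_sum_of_subset_of_nonneg hsub ?_)
  · unfold Th
    rw [Finset.mul_sum]
    apply Finset.sum_le_sum
    intro n hn
    have h1 := mem_win hn
    have h2 : 2 * Real.pi - 2 * (Real.pi ^ 2 / (K * b)) ≤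
        ∫ x in (Real.log n - (v + η + b))..(Real.log n - (v - b)), Fj K x := by
      refine (Fj_mid hK hb hbπ).trans ?_
      apply intervalIntegral.integral_mono_interval (by linarith [h1.2.2]) (by linarith)
        (by linarith [h1.2.1])
      · exact Filter.Eventually.of_forall fun x => Fj_nonneg K x
      · exact Fj_ii K _ _
    calc _ = ArithmeticFunction.vonMangoldt n / n * (2 * Real.pi - 2 * (Real.pi ^ 2 / (K * b))) := by
          ring
      _ ≤ _ := mul_le_mul_of_nonneg_left h2 (vm_nonneg n)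
  · intro n _ _
    apply mul_nonneg (vm_nonneg n)
    apply intervalIntegral.integral_nonneg (by linarith)
    intro x _
    exact Fj_nonneg K x

/-- **windows at all scales down to `e^(-0.81 Y)`** -/
theorem win3 (δ : ℝ) (hδ : 0 < δ) (hδ1 : δ ≤ 1) (B : ℕ) : ∃ Y₀ : ℝ, ∀ Y : ℝ, Y₀ ≤ Y →
    volume ({v : ℝ | ∃ η : ℝ, Real.exp (-(0.81 * Y)) ≤ η ∧ η ≤ 1 / 20 ∧ (1 + δ) * η < Th v η} ∩
      Set.Icc (Y - 1 / 10) (Y + 1 / 10)) ≤ ENNReal.ofReal (1 / Y ^ B) := by
  obtain ⟨d, hd⟩ : ∃ d : ℝ, d = δ / 4 := ⟨_, rfl⟩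
  have hd0 : 0 < d := by rw [hd]; linarith
  have hd1 : d ≤ 1 / 4 := by rw [hd]; linarith
  obtain ⟨ε₃, YL, hε₃, hε₃1, hLw⟩ := Lw_vol d hd0 (B + 2)
  obtain ⟨η₁, YB, hη₁, hBd⟩ := Bd_vol ε₃ 1 d hε₃ hε₃1 le_rfl hd0
  obtain ⟨C, YG, hC, hG⟩ := GK_bdd 1 le_rfl
  obtain ⟨YS, hsz⟩ := sizes hε₃ hε₃1 (le_refl (1 : ℝ))
  have hev : ∀ᶠ Y : ℝ in atTop, YL ≤ Y ∧ YB ≤ Y ∧ YG ≤ Y ∧ YS ≤ Y ∧ 10 ≤ Y ∧
      4 * (Y + 3) ^ (B + 2) * Real.exp (-(η₁ * Y)) ≤ 1 ∧
      (20 / d ^ 2) * (Y + 3) ^ 0 * Real.exp (-(0.0025 * Y)) ≤ 1 ∧ 72 * C / d ≤ Y := by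
    filter_upwards [eventually_ge_atTop YL, eventually_ge_atTop YB, eventually_ge_atTop YG,
      eventually_ge_atTop YS, eventually_ge_atTop 10, ev_small η₁ 4 1 (B + 2) hη₁ (by norm_num),
      ev_small 0.0025 (20 / d ^ 2) 1 0 (by norm_num) (by norm_num),
      eventually_ge_atTop (72 * C / d)] with Y a1 a2 a3 a4 a5 a6 a7 a8
    exact ⟨a1, a2, a3, a4, a5, a6, a7, a8⟩
  obtain ⟨Y₀, hY₀⟩ := eventually_atTop.1 hev
  refine ⟨Y₀, fun Y hY => ?_⟩
  obtain ⟨h1, h2, h3, h4, h5, h6, h7, h8⟩ := hY₀ Y hY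
  rw [pow_zero, mul_one] at h7
  obtain ⟨s1, s2, s3, s4, s5, s6, s7⟩ := hsz Y h4
  obtain ⟨K, hK⟩ : ∃ K : ℕ, K = K2 1 Y := ⟨_, rfl⟩
  have hLY := hLw Y h1
  have hBY := hBd Y h2
  have hGY := hG Y h3
  rw [← hK] at s3 s6 s7 hGY
  have hK1 : 1 ≤ K := le_trans s1 (s2.trans s3)
  have hK0 : (0 : ℝ) < K := by exact_mod_cast hK1
  have hπ := Real.pi_gt_three
  have hπ4 := Real.pi_lt_four
  -- the excess
  obtain ⟨F, hF⟩ : ∃ F : ℝ → ℝ, F = fun u => max 0 (GK Y K u - (2 * Real.pi + 2 * d)) := ⟨_, rfl⟩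
  have hFc : Continuous F := by
    rw [hF]
    exact continuous_const.max ((GK_cont Y K).sub continuous_const)
  have hF0 : ∀ x, 0 ≤ F x := fun x => by rw [hF]; exact le_max_left _ _
  have hFC : ∀ u, |u - Y| ≤ 0.39 → F u ≤ C := by
    intro u hu
    rw [hF]
    apply max_le hC.le
    have := hGY u (by linarith)
    linarith
  obtain ⟨S, hS⟩ : ∃ S : Set ℝ, S = Bd ε₃ 1 d Y ∪ Lw ε₃ d Y := ⟨_, rfl⟩
  have hFz : ∀ u, |u - Y| ≤ 0.39 → u ∉ S → F u = 0 := by
    intro u hu hnS
    rw [hS, Set.mem_union, not_or] at hnS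
    obtain ⟨a1, a2⟩ := hnS
    have b1 : |GK Y K u - GK Y (K1 ε₃ Y) u| ≤ d := by
      by_contra hc
      rw [not_le] at hc
      apply a1
      rw [hK] at hc
      exact ⟨hu, hc⟩
    have b2 : GK Y (K1 ε₃ Y) u ≤ 2 * Real.pi + d := by
      by_contra hc
      rw [not_le] at hc
      exact a2 ⟨hu, hc⟩
    rw [hF]
    apply max_eq_left
    have := (abs_le.1 b1).2
    linarith
  have hSvol : volume S ≤ ENNReal.ofReal (2 / Y ^ (B + 2)) := by
    rw [hS]
    refine (measure_union_le _ _).trans ?_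
    have e1 : 4 * Real.exp (-(η₁ * Y)) ≤ 1 / Y ^ (B + 2) := by
      rw [le_div_iff₀ (by positivity)]
      refine le_trans ?_ h6
      have : Y ^ (B + 2) ≤ (Y + 3) ^ (B + 2) := pow_le_pow_left₀ (by linarith) (by linarith) _
      calc 4 * Real.exp (-(η₁ * Y)) * Y ^ (B + 2) ≤ 4 * Real.exp (-(η₁ * Y)) * (Y + 3) ^ (B + 2) := by
            gcongr
        _ = _ := by ring
    calc volume (Bd ε₃ 1 d Y) + volume (Lw ε₃ d Y) ≤
          ENNReal.ofReal (1 / Y ^ (B + 2)) + ENNReal.ofReal (1 / Y ^ (B + 2)) :=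
          add_le_add (hBY.trans (ENNReal.ofReal_le_ofReal e1)) hLY
      _ = ENNReal.ofReal (2 / Y ^ (B + 2)) := by
          rw [← ENNReal.ofReal_add (by positivity) (by positivity)]
          congr 1
          ring
  -- the integral of the excess
  have hT : ∫ t in ((Y - 1 / 10) - 1 / 5)..((Y + 1 / 10) + 1 / 5), F t ≤ C * (2 / Y ^ (B + 2)) := by
    rw [intervalIntegral.integral_of_le (by linarith)]
    obtain ⟨I, hI⟩ : ∃ I : Set ℝ, I = Set.Ioc ((Y - 1 / 10) - 1 / 5) ((Y + 1 / 10) + 1 / 5) := ⟨_, rfl⟩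
    rw [← hI]
    have hIm : MeasurableSet I := by rw [hI]; exact measurableSet_Ioc
    have hFI : ∀ u ∈ I, |u - Y| ≤ 0.39 := by
      intro u hu
      rw [hI] at hu
      rw [abs_le]
      constructor
      · linarith [hu.1]
      · linarith [hu.2]
    obtain ⟨P, hP⟩ : ∃ P : Set ℝ, P = I ∩ {u | 0 < F u} := ⟨_, rfl⟩
    have hPm : MeasurableSet P := by
      rw [hP]
      exact hIm.inter (isOpen_lt continuous_const hFc).measurableSet
    have hPS : P ⊆ S := by
      intro u hu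
      rw [hP] at hu
      by_contra hc
      have := hFz u (hFI u hu.1) hc
      have h9 : 0 < F u := hu.2
      linarith
    have hPv : volume P ≤ ENNReal.ofReal (2 / Y ^ (B + 2)) := (measure_mono hPS).trans hSvol
    have e1 : ∫ t in I, F t = ∫ t in P, F t := by
      rw [hP]
      apply setIntegral_eq_of_subset_of_forall_diff_eq_zero hIm Set.inter_subset_left
      intro x hx
      by_contra hc
      exact hx.2 ⟨hx.1, lt_of_le_of_ne (hF0 x) (Ne.symm hc)⟩
    rw [e1]
    have hPfin : volume P < ⊤ := lt_of_le_of_lt hPv ENNReal.ofReal_lt_top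
    have e2 : ∫ t in P, F t ≤ ∫ t in P, C := by
      apply setIntegral_mono_on
      · have : IntegrableOn F I volume := by
          rw [hI]
          exact (hFc.integrableOn_Icc).mono_set Set.Ioc_subset_Icc_self
        exact this.mono_set (by rw [hP]; exact Set.inter_subset_left)
      · exact integrableOn_const hPfin.ne
      · exact hPm
      · intro u hu
        rw [hP] at hu
        exact hFC u (hFI u hu.1)
    refine e2.trans ?_
    rw [setIntegral_const, smul_eq_mul, mul_comm]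
    apply mul_le_mul_of_nonneg_left _ hC.le
    rw [Measure.real]
    exact ENNReal.toReal_le_of_le_ofReal (by positivity) hPv
  -- the number of dyadic scales
  obtain ⟨J, hJ⟩ : ∃ J : ℕ, J = ⌈2 * Y⌉₊ := ⟨_, rfl⟩
  have hJ1 : 2 * Y ≤ J := by rw [hJ]; exact Nat.le_ceil _
  have hJ2 : (J : ℝ) ≤ 2 * Y + 1 := by rw [hJ]; exact (Nat.ceil_lt_add_one (by linarith)).le
  have hpow : (1 / 2 : ℝ) ^ J ≤ Real.exp (-(0.81 * Y)) := by
    have e1 : (1 / 2 : ℝ) ≤ Real.exp (-0.5) := by
      have h9 : Real.exp 0.5 ≤ 2 := by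
        have a1 : Real.exp 0.5 * Real.exp 0.5 = Real.exp 1 := by rw [← Real.exp_add]; norm_num
        have a2 := Real.exp_one_lt_d9
        nlinarith [Real.exp_pos (0.5 : ℝ)]
      rw [Real.exp_neg, one_div]
      exact inv_anti₀ (Real.exp_pos _) h9
    calc (1 / 2 : ℝ) ^ J ≤ (Real.exp (-0.5)) ^ J := pow_le_pow_left₀ (by norm_num) e1 _
      _ = Real.exp (J * (-0.5)) := by rw [← Real.exp_nat_mul]
      _ ≤ Real.exp (-(0.81 * Y)) := by
          apply Real.exp_le_exp.2
          linarith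
  have hdy := dyad hFc hF0 (p := Y - 1 / 10) (q := Y + 1 / 10) (T := C * (2 / Y ^ (B + 2)))
    (τ := d) (a := Real.exp (-(0.81 * Y))) J (by linarith) hT hd0 hpow
  refine le_trans (measure_mono ?_) (hdy.trans (ENNReal.ofReal_le_ofReal ?_))
  · -- good points
    rintro v ⟨⟨η, a1, a2, a3⟩, hv⟩
    refine ⟨⟨η, a1, a2, ?_⟩, hv⟩
    by_contra hc
    rw [not_lt] at hc
    have hη0 : 0 < η := lt_of_lt_of_le (Real.exp_pos _) a1
    have hvY : |v - Y| ≤ 1 / 10 := by
      rw [abs_le]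
      constructor
      · linarith [hv.1]
      · linarith [hv.2]
    obtain ⟨b, hb⟩ : ∃ b : ℝ, b = d * η := ⟨_, rfl⟩
    have hb0 : 0 < b := by rw [hb]; positivity
    have hbη : b ≤ η / 4 := by rw [hb]; nlinarith
    have hbπ : b ≤ Real.pi := by linarith
    have c1 := Th_GK (Y := Y) (v := v) hK1 hb0 hbπ hη0.le a2 hvY
    have hKb : 20 / d ≤ K * b := by
      rw [hb]
      have k1 : Real.exp (13 / 16 * Y) * (d * Real.exp (-(0.81 * Y))) ≤ K * (d * η) := by gcongr
      have k2 : Real.exp (13 / 16 * Y) * (d * Real.exp (-(0.81 * Y))) = d * Real.exp (0.0025 * Y) := by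
        have : Real.exp (13 / 16 * Y) * Real.exp (-(0.81 * Y)) = Real.exp (0.0025 * Y) := by
          rw [← Real.exp_add]; congr 1; ring
        rw [← this]; ring
      rw [k2] at k1
      refine le_trans ?_ k1
      rw [Real.exp_neg, ← div_eq_mul_inv, div_le_one (Real.exp_pos _)] at h7
      rw [div_le_iff₀ hd0]
      rw [div_le_iff₀ (by positivity)] at h7
      nlinarith
    have c2 : Real.pi ^ 2 / (K * b) ≤ d := by
      rw [div_le_iff₀ (by positivity)]
      have k1 : d * (20 / d) ≤ d * (K * b) := mul_le_mul_of_nonneg_left hKb hd0.le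
      have k2 : d * (20 / d) = 20 := by field_simp
      have k3 : Real.pi ^ 2 ≤ 16 := by nlinarith
      linarith
    have c3 : ∫ u in (v - b)..(v + η + b), GK Y K u ≤
        ∫ u in (v - b)..(v + η + b), ((2 * Real.pi + 2 * d) + F u) := by
      apply intervalIntegral.integral_mono_on (by linarith)
      · exact (GK_cont Y K).intervalIntegrable _ _
      · exact (continuous_const.add hFc).intervalIntegrable _ _
      · intro u _
        rw [hF]
        have := le_max_right 0 (GK Y K u - (2 * Real.pi + 2 * d))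
        simp only
        linarith
    have c4 : ∫ u in (v - b)..(v + η + b), ((2 * Real.pi + 2 * d) + F u) =
        (2 * Real.pi + 2 * d) * (η + 2 * b) + ∫ u in (v - b)..(v + η + b), F u := by
      rw [intervalIntegral.integral_add intervalIntegrable_const (hFc.intervalIntegrable _ _),
        intervalIntegral.integral_const, smul_eq_mul]
      ring
    have c5 : ∫ u in (v - b)..(v + η + b), F u ≤ ∫ u in (v - η)..(v + 2 * η), F u := by
      apply intervalIntegral.integral_mono_interval (by linarith) (by linarith) (by linarith)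
      · exact Filter.Eventually.of_forall fun x => hF0 x
      · exact hFc.intervalIntegrable _ _
    have hTh0 : 0 ≤ Th v η := Finset.sum_nonneg fun n _ => vm_nonneg n
    have c6 : (2 * Real.pi - 2 * d) * Th v η ≤ (2 * Real.pi + 2 * d) * (η + 2 * b) + d * η := by
      have k1 : (2 * Real.pi - 2 * d) * Th v η ≤
          (2 * Real.pi - 2 * (Real.pi ^ 2 / (K * b))) * Th v η := by gcongr
      linarith
    have c7 : (2 * Real.pi + 2 * d) * (η + 2 * b) + d * η ≤ (2 * Real.pi - 2 * d) * ((1 + δ) * η) := by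
      have e1 : δ = 4 * d := by rw [hd]; ring
      rw [hb, e1]
      have k1 : (2 * Real.pi + 2 * d) * (η + 2 * (d * η)) + d * η =
          η * ((2 * Real.pi + 2 * d) * (1 + 2 * d) + d) := by ring
      have k2 : (2 * Real.pi - 2 * d) * ((1 + 4 * d) * η) =
          η * ((2 * Real.pi - 2 * d) * (1 + 4 * d)) := by ring
      rw [k1, k2]
      apply mul_le_mul_of_nonneg_left _ hη0.le
      nlinarith [mul_pos hd0 hd0, mul_pos hd0 (by linarith : 0 < Real.pi - 3)]
    have c8 : (2 * Real.pi - 2 * d) * ((1 + δ) * η) < (2 * Real.pi - 2 * d) * Th v η :=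
      mul_lt_mul_of_pos_left a3 (by linarith)
    linarith
  · -- sizes
    have hYp : 0 < Y := by linarith
    have e1 : ((J : ℝ) + 1) * (6 * (C * (2 / Y ^ (B + 2))) / d) =
        ((J : ℝ) + 1) * (12 * C / d) / Y ^ (B + 2) := by field_simp; ring
    rw [e1, pow_add, ← div_div, div_right_comm]
    apply div_le_div_of_nonneg_right _ (by positivity)
    rw [div_le_one (by positivity)]
    have e2 : ((J : ℝ) + 1) ≤ 6 * Y := by linarith
    have e3 : 12 * C / d ≤ Y / 6 := by
      have : 72 * C / d = 6 * (12 * C / d) := by ring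
      linarith
    calc ((J : ℝ) + 1) * (12 * C / d) ≤ 6 * Y * (Y / 6) := by gcongr
      _ = Y ^ 2 := by ring

end Pool.Agent.U762.HU
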