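import Pool.Agent.U762.HU.D

/-! Long windows at almost all points, with a good error term. -/

set_option autoImplicit false

namespace Pool.Agent.U762.HU

open Finset Filter Topology MeasureTheory
open Pool.Agent.W66 (TT)
open Pool.Agent.Q257.KS (ev_small)
open Pool.Agent.U762.GP (Th mem_win vm_nonneg TT_cont Th_close)

/-- **long windows** -/
theorem win4 (B : ℕ) : ∃ c Y₀ : ℝ, 0 < c ∧ c ≤ 1 / 20 ∧ ∀ Y : ℝ, Y₀ ≤ Y →
    volume ({v : ℝ | ∃ η : ℝ, Real.exp (-(c * Y)) ≤ η ∧ η ≤ 4 / 5 ∧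
      (1 / Y ^ 6) * η < |Th v η - η|} ∩
      Set.Icc (Y - 1 / 10) (Y + 1 / 10)) ≤ ENNReal.ofReal (1 / Y ^ B) := by
  obtain ⟨c', Y1, hc', hc'1, hL1⟩ := tt_L1 (B + 9)
  have hev : ∀ᶠ Y : ℝ in atTop, Y1 ≤ Y ∧ 100 ≤ Y ∧
      4 * (Y + 3) ^ 6 * Real.exp (-(c' / 2 * Y)) ≤ 1 ∧
      80 * (Y + 3) ^ 6 * Real.exp (-(c' * Y)) ≤ 1 ∧
      10 * (Y + 3) ^ 0 * Real.exp (-(c' * Y)) ≤ 1 := by
    filter_upwards [eventually_ge_atTop Y1, eventually_ge_atTop 100,
      ev_small (c' / 2) 4 1 6 (by linarith) (by norm_num),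
      ev_small c' 80 1 6 hc' (by norm_num), ev_small c' 10 1 0 hc' (by norm_num)] with
      Y a1 a2 a3 a4 a5
    exact ⟨a1, a2, a3, a4, a5⟩
  obtain ⟨Y₀, hY₀⟩ := eventually_atTop.1 hev
  refine ⟨c' / 2, Y₀, by linarith, by linarith, fun Y hY => ?_⟩
  obtain ⟨h1, h2, h3, h4, h5⟩ := hY₀ Y hY
  rw [pow_zero, mul_one] at h5
  have hY0 : 0 < Y := by linarith
  obtain ⟨N, hN⟩ : ∃ N : ℕ, N = ⌈Real.exp (Y + 3)⌉₊ := ⟨_, rfl⟩
  have hNe : Real.exp (Y + 3) ≤ N := by rw [hN]; exact Nat.le_ceil _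
  obtain ⟨h, hh⟩ : ∃ h : ℝ, h = Real.exp (-(c' * Y)) := ⟨_, rfl⟩
  have hh0 : 0 < h := by rw [hh]; exact Real.exp_pos _
  have hT' := hL1 Y h1 N hNe
  rw [← hh] at hT' h4 h5
  obtain ⟨F, hF⟩ : ∃ F : ℝ → ℝ, F = fun z => |TT h N z - 1| := ⟨_, rfl⟩
  have hFc : Continuous F := by
    rw [hF]
    exact ((TT_cont h N).sub continuous_const).abs
  have hF0 : ∀ x, 0 ≤ F x := fun x => by rw [hF]; exact abs_nonneg _
  have hT : ∫ z in (Y - 1)..(Y + 1), F z ≤ 1 / Y ^ (B + 9) := by rw [hF]; exact hT'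
  have hTs : ∀ p q : ℝ, Y - 1 ≤ p → p ≤ q → q ≤ Y + 1 → ∫ z in p..q, F z ≤ 1 / Y ^ (B + 9) := by
    intro p q a1 a2 a3
    refine le_trans ?_ hT
    apply intervalIntegral.integral_mono_interval a1 a2 a3
    · exact Filter.Eventually.of_forall fun x => hF0 x
    · exact hFc.intervalIntegrable _ _
  obtain ⟨J, hJ⟩ : ∃ J : ℕ, J = ⌈2 * Y⌉₊ := ⟨_, rfl⟩
  have hJ1 : 2 * Y ≤ J := by rw [hJ]; exact Nat.le_ceil _
  have hJ2 : (J : ℝ) ≤ 2 * Y + 1 := by rw [hJ]; exact (Nat.ceil_lt_add_one (by linarith)).le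
  have hpow : (1 / 2 : ℝ) ^ J ≤ Real.exp (-(c' / 2 * Y)) := by
    have e1 : (1 / 2 : ℝ) ≤ Real.exp (-0.5) := by
      have h9 : Real.exp 0.5 ≤ 2 := by
        have a1 : Real.exp 0.5 * Real.exp 0.5 = Real.exp 1 := by rw [← Real.exp_add]; norm_num
        have a2 := Real.exp_one_lt_d9
        nlinarith [Real.exp_pos (0.5 : ℝ)]
      rw [Real.exp_neg, one_div]
      exact inv_anti₀ (Real.exp_pos _) h9
    calc (1 / 2 : ℝ) ^ J ≤ (Real.exp (-0.5)) ^ J := pow_le_pow_left₀ (by norm_num) e1 _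
      _ = Real.exp (J * (-0.5)) := by rw [← Real.exp_nat_mul]
      _ ≤ Real.exp (-(c' / 2 * Y)) := by
          apply Real.exp_le_exp.2
          nlinarith
  have hdy := dyad hFc hF0 (p := Y - 1 / 10) (q := Y + 1 / 10) (T := 1 / Y ^ (B + 9))
    (τ := 1 / (2 * Y ^ 6)) (a := Real.exp (-(c' / 2 * Y))) J (by linarith)
    (hTs _ _ (by linarith) (by linarith) (by linarith)) (by positivity) hpow
  refine le_trans (measure_mono ?_) (hdy.trans (ENNReal.ofReal_le_ofReal ?_))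
  · rintro v ⟨⟨η, a1, a2, a3⟩, hv⟩
    have hη0 : 0 < η := lt_of_lt_of_le (Real.exp_pos _) a1
    -- `h` is small
    have k1 : h = Real.exp (-(c' / 2 * Y)) * Real.exp (-(c' / 2 * Y)) := by
      rw [hh, ← Real.exp_add]; congr 1; ring
    have k0 : Y ^ 6 ≤ (Y + 3) ^ 6 := pow_le_pow_left₀ hY0.le (by linarith) _
    have k2 : Real.exp (-(c' / 2 * Y)) ≤ 1 / (4 * Y ^ 6) := by
      rw [le_div_iff₀ (by positivity)]
      refine le_trans ?_ h3
      calc Real.exp (-(c' / 2 * Y)) * (4 * Y ^ 6) ≤ Real.exp (-(c' / 2 * Y)) * (4 * (Y + 3) ^ 6) := by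
            gcongr
        _ = _ := by ring
    have k3 : 2 * h ≤ 1 / (2 * Y ^ 6) * η := by
      rw [k1]
      calc 2 * (Real.exp (-(c' / 2 * Y)) * Real.exp (-(c' / 2 * Y))) ≤
            2 * (η * (1 / (4 * Y ^ 6))) := by gcongr
        _ = _ := by field_simp; ring
    have k4 : 1 / (2 * Y ^ 6) ≤ 1 / 2 := by
      apply div_le_div_of_nonneg_left (by norm_num) (by norm_num)
      have : (1 : ℝ) ≤ Y ^ 6 := one_le_pow₀ (by linarith)
      linarith
    have k5 : 2 * h ≤ η := by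
      have : 1 / (2 * Y ^ 6) * η ≤ 1 / 2 * η := by gcongr
      linarith
    have k6 : Real.exp (v + η) ≤ N := by
      refine le_trans (Real.exp_le_exp.2 ?_) hNe
      linarith [hv.2]
    have k7 := Th_close hh0 k5 k6
    have k8 : ∫ z in (v - h)..(v + η + h), |TT h N z - 1| = ∫ z in (v - h)..(v + η + h), F z := by
      rw [hF]
    rw [k8] at k7
    have hp1 : v - Y ≤ 1 / 10 := by linarith [hv.2]
    have hp2 : -(1 / 10) ≤ v - Y := by linarith [hv.1]
    by_cases hη1 : η ≤ 1 / 20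
    · refine ⟨⟨η, a1, hη1, ?_⟩, hv⟩
      have k9 : ∫ z in (v - h)..(v + η + h), F z ≤ ∫ z in (v - η)..(v + 2 * η), F z := by
        apply intervalIntegral.integral_mono_interval (by linarith) (by linarith) (by linarith)
        · exact Filter.Eventually.of_forall fun x => hF0 x
        · exact hFc.intervalIntegrable _ _
      have k10 : (1 / Y ^ 6) * η = 1 / (2 * Y ^ 6) * η + 1 / (2 * Y ^ 6) * η := by field_simp; ring
      linarith
    · exfalso
      rw [not_le] at hη1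
      have hh10 : h ≤ 1 / 10 := by linarith
      have k9 := hTs (v - h) (v + η + h) (by linarith) (by linarith) (by linarith)
      have k10 : 1 / Y ^ (B + 9) ≤ 1 / (40 * Y ^ 6) := by
        apply div_le_div_of_nonneg_left (by norm_num) (by positivity)
        have : Y ^ (B + 9) = Y ^ B * Y ^ 3 * Y ^ 6 := by rw [← pow_add, ← pow_add]
        rw [this]
        apply mul_le_mul_of_nonneg_right _ (by positivity)
        have q1 : (1 : ℝ) ≤ Y ^ B := one_le_pow₀ (by linarith)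
        have q2 : (40 : ℝ) ≤ Y ^ 3 := by
          calc (40 : ℝ) ≤ 100 ^ 3 := by norm_num
            _ ≤ Y ^ 3 := pow_le_pow_left₀ (by norm_num) h2 _
        nlinarith
      have k11 : 2 * h ≤ 1 / (40 * Y ^ 6) := by
        rw [le_div_iff₀ (by positivity)]
        refine le_trans ?_ h4
        calc 2 * h * (40 * Y ^ 6) = 80 * Y ^ 6 * h := by ring
          _ ≤ 80 * (Y + 3) ^ 6 * h := by gcongr
      have k12 : (1 / Y ^ 6) * η = 20 * η * (1 / (40 * Y ^ 6)) + 20 * η * (1 / (40 * Y ^ 6)) := by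
        field_simp; ring
      have k13 : 1 / (40 * Y ^ 6) ≤ 20 * η * (1 / (40 * Y ^ 6)) := by
        have : 0 ≤ 1 / (40 * Y ^ 6) := by positivity
        nlinarith
      linarith
  · have e1 : ((J : ℝ) + 1) * (6 * (1 / Y ^ (B + 9)) / (1 / (2 * Y ^ 6))) =
        ((J : ℝ) + 1) * 12 / (Y ^ B * Y ^ 3) := by
      have : Y ^ (B + 9) = Y ^ B * Y ^ 3 * Y ^ 6 := by rw [← pow_add, ← pow_add]
      rw [this]
      field_simp
      ring
    rw [e1, ← div_div, div_right_comm]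
    apply div_le_div_of_nonneg_right _ (by positivity)
    rw [div_le_one (by positivity)]
    have q1 : (10000 : ℝ) ≤ Y * Y := by nlinarith
    have q2 : Y ^ 3 = Y * (Y * Y) := by ring
    rw [q2]
    nlinarith

end Pool.Agent.U762.HU
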