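import Pool.Agent.H442R2.EHI.PntErr

/-! `π(y) ≥ y / log y + y / (3 log² y)`. -/

set_option autoImplicit false

namespace Pool.Agent.U762.HU

open Finset Filter Topology
open Pool.Agent.H442R2.EHI (lis)

lemma lis_low {y : ℕ} (hy : 2 ≤ y) :
    ((y : ℝ) - 1) / Real.log y + ((y : ℝ) - 3) / (2 * Real.log y ^ 2) ≤ lis y := by
  have hy2 : (2 : ℝ) ≤ y := by exact_mod_cast hy
  obtain ⟨L, hL⟩ : ∃ L : ℝ, L = Real.log y := ⟨_, rfl⟩
  have hL0 : 0 < L := by rw [hL]; exact Real.log_pos (by linarith)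
  rw [← hL]
  have h1 : ∀ n ∈ Icc 2 y, 1 / L + (1 - (n : ℝ) / y) / L ^ 2 ≤ 1 / Real.log n := by
    intro n hn
    rw [mem_Icc] at hn
    have hn2 : (2 : ℝ) ≤ n := by exact_mod_cast hn.1
    have hny : (n : ℝ) ≤ y := by exact_mod_cast hn.2
    obtain ⟨a, ha⟩ : ∃ a : ℝ, a = Real.log n := ⟨_, rfl⟩
    obtain ⟨s, hs⟩ : ∃ s : ℝ, s = 1 - (n : ℝ) / y := ⟨_, rfl⟩
    rw [← ha, ← hs]
    have ha0 : 0 < a := by rw [ha]; exact Real.log_pos (by linarith)
    have hs0 : 0 ≤ s := by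
      rw [hs, sub_nonneg, div_le_one (by linarith)]
      exact hny
    have h2 : a ≤ L - s := by
      have h3 := Real.log_le_sub_one_of_pos (x := (n : ℝ) / y) (by positivity)
      rw [Real.log_div (by linarith) (by linarith), ← ha, ← hL] at h3
      rw [hs]
      linarith
    have h3 : 1 / L + s / L ^ 2 = (L + s) / L ^ 2 := by
      field_simp
    rw [h3, div_le_div_iff₀ (by positivity) ha0]
    nlinarith [mul_nonneg hs0 hs0]
  have h2 : lis y = ∑ n ∈ Icc 2 y, 1 / Real.log n := rfl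
  rw [h2]
  refine le_trans ?_ (Finset.sum_le_sum h1)
  rw [Finset.sum_add_distrib, Finset.sum_const, Nat.card_Icc, nsmul_eq_mul, ← Finset.sum_div,
    Finset.sum_sub_distrib, Finset.sum_const, Nat.card_Icc, nsmul_eq_mul, ← Finset.sum_div]
  have h3 : ((y + 1 - 2 : ℕ) : ℝ) = (y : ℝ) - 1 := by
    have : y + 1 - 2 = y - 1 := by omega
    rw [this, Nat.cast_sub (by omega)]
    simp
  rw [h3]
  have h4 : ∑ n ∈ Icc 2 y, (n : ℝ) = (y : ℝ) * (y + 1) / 2 - 1 := by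
    clear h1 h2 h3 hL hL0
    clear hy2
    induction y, hy using Nat.le_induction with
    | base => norm_num
    | succ m hm ih =>
      rw [Finset.sum_Icc_succ_top (by omega), ih]
      push_cast
      ring
  rw [h4]
  have h5 : ((y : ℝ) - 1) * (1 / L) = ((y : ℝ) - 1) / L := by ring
  have h6 : ((y : ℝ) * (y + 1) / 2 - 1) / y = ((y : ℝ) + 1) / 2 - 1 / y := by
    field_simp
  rw [h5, h6]
  have h7 : ((y : ℝ) - 3) / (2 * L ^ 2) ≤ (((y : ℝ) - 1) * 1 - (((y : ℝ) + 1) / 2 - 1 / y)) / L ^ 2 := by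
    rw [← div_div]
    apply div_le_div_of_nonneg_right _ (by positivity)
    have : 0 < 1 / (y : ℝ) := by positivity
    linarith
  linarith

lemma pc_card (y : ℕ) : (((Icc 1 y).filter (fun p : ℕ => p.Prime)).card : ℝ) =
    (Nat.primeCounting y : ℝ) := by
  rw [Nat.primeCounting, Nat.primeCounting', Nat.count_eq_card_filter_range]
  congr 2
  ext p
  simp only [mem_filter, mem_Icc, mem_range]
  constructor
  · rintro ⟨⟨h1, h2⟩, h3⟩
    exact ⟨by omega, h3⟩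
  · rintro ⟨h1, h3⟩
    exact ⟨⟨h3.one_lt.le, by omega⟩, h3⟩

/-- a lower bound for `π(y)` of the second order -/
theorem pi_low2 : ∃ y1 : ℕ, 2 ≤ y1 ∧ ∀ y : ℕ, y1 ≤ y →
    (y : ℝ) / Real.log y + (y : ℝ) / (3 * Real.log y ^ 2) ≤ Nat.primeCounting y := by
  obtain ⟨C, hC⟩ := Pool.Agent.H442R2.EHI.pnt_err 3
  have hlog : Tendsto (fun y : ℕ => Real.log y) atTop atTop :=
    Real.tendsto_log_atTop.comp tendsto_natCast_atTop_atTop
  have hlo : ∀ᶠ y : ℕ in atTop, Real.log y ≤ (1 / 24) * y := by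
    have h1 := Real.isLittleO_log_id_atTop.def (c := 1 / 24) (by norm_num)
    have h2 := tendsto_natCast_atTop_atTop (R := ℝ) |>.eventually h1
    filter_upwards [h2, eventually_ge_atTop 1] with y h3 h4
    have h5 : (1 : ℝ) ≤ y := by exact_mod_cast h4
    simp only [Real.norm_eq_abs, id] at h3
    rw [abs_of_nonneg (Real.log_nonneg h5), abs_of_nonneg (by linarith : (0 : ℝ) ≤ y)] at h3
    exact h3
  have hev : ∀ᶠ y : ℕ in atTop, 12 * C ≤ Real.log y ∧ Real.log y ≤ (1 / 24) * y ∧ 36 ≤ y := by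
    filter_upwards [hlog.eventually_ge_atTop (12 * C), hlo, eventually_ge_atTop 36] with y a b c
    exact ⟨a, b, c⟩
  obtain ⟨y1, hy1⟩ := eventually_atTop.1 hev
  refine ⟨max y1 2, le_max_right _ _, fun y hy => ?_⟩
  obtain ⟨h1, h2, h3⟩ := hy1 y ((le_max_left _ _).trans hy)
  have hy2 : 2 ≤ y := (le_max_right _ _).trans hy
  have h36 : (36 : ℝ) ≤ y := by exact_mod_cast h3
  have h4 := (abs_le.1 (hC y hy2)).1
  rw [pc_card] at h4
  have h5 := lis_low hy2
  obtain ⟨L, hL⟩ : ∃ L : ℝ, L = Real.log y := ⟨_, rfl⟩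
  have hL0 : 0 < L := by rw [hL]; exact Real.log_pos (by linarith)
  rw [← hL] at h1 h2 h4 h5 ⊢
  have h6 : C * y / L ^ 3 ≤ (y : ℝ) / (12 * L ^ 2) := by
    rw [div_le_div_iff₀ (by positivity) (by positivity)]
    have : C * y * (12 * L ^ 2) = (12 * C) * (y * L ^ 2) := by ring
    rw [this]
    calc (12 * C) * (y * L ^ 2) ≤ L * (y * L ^ 2) := by gcongr
      _ = y * L ^ 3 := by ring
  have h7 : ((y : ℝ) - 1) / L + ((y : ℝ) - 3) / (2 * L ^ 2) - (y : ℝ) / (12 * L ^ 2) -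
      ((y : ℝ) / L + (y : ℝ) / (3 * L ^ 2)) = ((y : ℝ) / 12 - L - 3 / 2) / L ^ 2 := by
    field_simp
    ring
  have h8 : 0 ≤ ((y : ℝ) / 12 - L - 3 / 2) / L ^ 2 := by
    apply div_nonneg _ (by positivity)
    linarith
  linarith

end Pool.Agent.U762.HU
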