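import Pool.Agent.U762.HU.E
import Pool.Agent.U762.HU.F

/-! From the measure of sets of logarithms to numbers of integers. -/

set_option autoImplicit false

namespace Pool.Agent.U762.HU

open Finset Filter Topology MeasureTheory

/-- five short intervals cover a unit interval -/
theorem five {S : Set ℝ} {B : ℕ} {T : ℝ → Set ℝ} {Y₀ Y₁ : ℝ}
    (hT : ∀ Y : ℝ, Y₀ ≤ Y → volume (T Y ∩ Set.Icc (Y - 1 / 10) (Y + 1 / 10)) ≤
      ENNReal.ofReal (1 / Y ^ B))
    (hST : ∀ Y : ℝ, Y₁ ≤ Y → S ∩ Set.Icc (Y - 1 / 10) (Y + 1 / 10) ⊆ T Y) :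
    ∀ᶠ Z : ℕ in atTop, volume (S ∩ Set.Icc (Z : ℝ) (Z + 1)) ≤ ENNReal.ofReal (5 / (Z : ℝ) ^ B) := by
  filter_upwards [eventually_ge_atTop 1, (tendsto_natCast_atTop_atTop (R := ℝ)).eventually_ge_atTop Y₀,
    (tendsto_natCast_atTop_atTop (R := ℝ)).eventually_ge_atTop Y₁] with Z h1 h2 h3
  have hZ1 : (1 : ℝ) ≤ Z := by exact_mod_cast h1
  have hone : ∀ Y : ℝ, (Z : ℝ) ≤ Y → volume (S ∩ Set.Icc (Y - 1 / 10) (Y + 1 / 10)) ≤
      ENNReal.ofReal (1 / (Z : ℝ) ^ B) := by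
    intro Y hY
    have h4 : S ∩ Set.Icc (Y - 1 / 10) (Y + 1 / 10) ⊆ T Y ∩ Set.Icc (Y - 1 / 10) (Y + 1 / 10) :=
      Set.subset_inter (hST Y (h3.trans hY)) Set.inter_subset_right
    refine (measure_mono h4).trans ((hT Y (h2.trans hY)).trans (ENNReal.ofReal_le_ofReal ?_))
    apply div_le_div_of_nonneg_left (by norm_num) (by positivity)
    exact pow_le_pow_left₀ (by linarith) hY _
  have hsub : S ∩ Set.Icc (Z : ℝ) (Z + 1) ⊆ ⋃ i ∈ Finset.range 5,
      (S ∩ Set.Icc (((Z : ℝ) + (2 * (i : ℕ) + 1) / 10) - 1 / 10)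
        (((Z : ℝ) + (2 * (i : ℕ) + 1) / 10) + 1 / 10)) := by
    rintro v ⟨hv, hv1, hv2⟩
    obtain ⟨i, hi⟩ : ∃ i : ℕ, i = min ⌊5 * (v - Z)⌋₊ 4 := ⟨_, rfl⟩
    have hi4 : i ≤ 4 := by rw [hi]; exact min_le_right _ _
    have e0 : 0 ≤ 5 * (v - Z) := by linarith
    have e1 : (i : ℝ) ≤ 5 * (v - Z) := by
      refine le_trans ?_ (Nat.floor_le e0)
      rw [hi]
      exact_mod_cast min_le_left _ _
    have e2 : 5 * (v - Z) ≤ i + 1 := by
      rcases le_total ⌊5 * (v - Z)⌋₊ 4 with h | h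
      · rw [hi, min_eq_left h]
        exact (Nat.lt_floor_add_one _).le
      · rw [hi, min_eq_right h]
        push_cast
        linarith
    rw [Set.mem_iUnion₂]
    refine ⟨i, Finset.mem_range.2 (by omega), hv, ?_, ?_⟩
    · linarith
    · linarith
  refine (measure_mono hsub).trans ((measure_biUnion_finset_le _ _).trans ?_)
  refine (Finset.sum_le_sum fun i _ => hone _ ?_).trans ?_
  · have : (0 : ℝ) ≤ i := Nat.cast_nonneg i
    linarith
  · rw [Finset.sum_const, nsmul_eq_mul, Finset.card_range, ← ENNReal.ofReal_natCast,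
      ← ENNReal.ofReal_mul (Nat.cast_nonneg _)]
    apply ENNReal.ofReal_le_ofReal
    push_cast
    rw [mul_one_div]

/-- **few integers over a set of small measure** -/
theorem vol_count {S : Set ℝ} {B : ℕ} {C : ℝ} (hC : 0 ≤ C)
    (hS : ∀ᶠ Z : ℕ in atTop, volume (S ∩ Set.Icc (Z : ℝ) (Z + 1)) ≤
      ENNReal.ofReal (C / (Z : ℝ) ^ (B + 3)))
    {P : ℕ → Prop} [DecidablePred P] {n0 : ℕ}
    (hP : ∀ n : ℕ, n0 ≤ n → P n → ∀ v : ℝ, Real.log ((n : ℝ) - 1) < v → v ≤ Real.log n → v ∈ S) :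
    ∀ᶠ X : ℕ in atTop, (((Icc 1 X).filter P).card : ℝ) ≤ X / (Real.log X) ^ (B + 1) := by
  obtain ⟨Z1, hZ1⟩ := hS.exists_forall_of_atTop
  have hlog : Tendsto (fun X : ℕ => Real.log X) atTop atTop :=
    Real.tendsto_log_atTop.comp tendsto_natCast_atTop_atTop
  have hexp : ∀ᶠ L : ℝ in atTop, 4 * L ^ (B + 1) * Real.exp (-(1 / 2 * L)) ≤ 1 / 2 := by
    have h1 := Pool.Agent.Q257.KS.ev_small (1 / 2) 4 (1 / 2) (B + 1) (by norm_num) (by norm_num)
    filter_upwards [h1, eventually_ge_atTop 0] with L h2 h3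
    refine le_trans ?_ h2
    gcongr
    linarith
  have hn0 : ∀ᶠ X : ℕ in atTop, (n0 : ℝ) + 1 ≤ Real.exp (1 / 4 * Real.log X) := by
    have h1 : Tendsto (fun X : ℕ => Real.exp (1 / 4 * Real.log X)) atTop atTop :=
      Real.tendsto_exp_atTop.comp (hlog.const_mul_atTop (by norm_num))
    exact h1.eventually_ge_atTop _
  filter_upwards [hlog.eventually_ge_atTop (max 16 (max (4 * (Z1 : ℝ) + 4) (4 ^ (B + 4) * C))),
    hlog.eventually hexp, hn0, eventually_ge_atTop 2] with X h1 h2 h3 h4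
  obtain ⟨L, hL⟩ : ∃ L : ℝ, L = Real.log X := ⟨_, rfl⟩
  rw [← hL] at h1 h2 h3 ⊢
  have hL16 : 16 ≤ L := (le_max_left _ _).trans h1
  have hLZ : 4 * (Z1 : ℝ) + 4 ≤ L := ((le_max_left _ _).trans (le_max_right _ _)).trans h1
  have hLC : 4 ^ (B + 4) * C ≤ L := ((le_max_right _ _).trans (le_max_right _ _)).trans h1
  have hX2 : (2 : ℝ) ≤ X := by exact_mod_cast h4
  have hXe : (X : ℝ) = Real.exp L := by rw [hL, Real.exp_log (by linarith)]
  obtain ⟨m, hm⟩ : ∃ m : ℕ, m = ⌊L / 2⌋₊ := ⟨_, rfl⟩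
  have hm1 : (m : ℝ) ≤ L / 2 := by rw [hm]; exact Nat.floor_le (by linarith)
  have hm2 : L / 4 + 1 ≤ (m : ℝ) := by
    have : L / 2 < m + 1 := by rw [hm]; exact Nat.lt_floor_add_one _
    linarith
  obtain ⟨q, hq⟩ : ∃ q : ℕ, q = ⌈Real.exp m⌉₊ + 1 := ⟨_, rfl⟩
  have hq1 : Real.exp m + 1 ≤ q := by
    rw [hq]; push_cast
    linarith [Nat.le_ceil (Real.exp (m : ℝ))]
  have hq2 : (q : ℝ) ≤ Real.exp (1 / 2 * L) + 2 := by
    have a1 : (⌈Real.exp (m : ℝ)⌉₊ : ℝ) < Real.exp m + 1 := Nat.ceil_lt_add_one (Real.exp_pos _).le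
    have a2 : Real.exp (m : ℝ) ≤ Real.exp (1 / 2 * L) := Real.exp_le_exp.2 (by linarith)
    rw [hq]; push_cast; linarith
  have hqn0 : n0 ≤ q := by
    have a2 : Real.exp (1 / 4 * L) ≤ Real.exp (m : ℝ) := Real.exp_le_exp.2 (by linarith)
    have : (n0 : ℝ) ≤ q := by linarith
    exact_mod_cast this
  obtain ⟨F, hF⟩ : ∃ F : Finset ℕ, F = (Icc 1 X).filter P := ⟨_, rfl⟩
  rw [← hF]
  obtain ⟨F2, hF2⟩ : ∃ F2 : Finset ℕ, F2 = F.filter (fun n => q < n) := ⟨_, rfl⟩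
  have hcard : (F.card : ℝ) ≤ q + F2.card := by
    have a1 : F ⊆ Icc 1 q ∪ F2 := by
      intro n hn
      rw [Finset.mem_union, hF2, Finset.mem_filter, Finset.mem_Icc]
      rw [hF, Finset.mem_filter, Finset.mem_Icc] at hn
      by_cases hc : n ≤ q
      · left; exact ⟨hn.1.1, hc⟩
      · right
        rw [hF, Finset.mem_filter, Finset.mem_Icc]
        exact ⟨hn, not_le.1 hc⟩
    have a2 := (Finset.card_le_card a1).trans (Finset.card_union_le _ _)
    rw [Nat.card_Icc, Nat.add_sub_cancel] at a2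
    exact_mod_cast a2
  -- the intervals
  have hmem : ∀ n ∈ F2, q < n ∧ n ≤ X ∧ P n := by
    intro n hn
    rw [hF2, Finset.mem_filter, hF, Finset.mem_filter, Finset.mem_Icc] at hn
    exact ⟨hn.2, hn.1.1.2, hn.1.2⟩
  have hmem2 : ∀ n ∈ F2, Real.exp m ≤ (n : ℝ) - 1 ∧ (n : ℝ) ≤ X := by
    intro n hn
    obtain ⟨a1, a2, a3⟩ := hmem n hn
    have a4 : (q : ℝ) < n := by exact_mod_cast a1
    have a5 : (n : ℝ) ≤ X := by exact_mod_cast a2
    exact ⟨by linarith, a5⟩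
  obtain ⟨J, hJ⟩ : ∃ J : ℕ → Set ℝ, J = fun n : ℕ => Set.Ioc (Real.log ((n : ℝ) - 1)) (Real.log n) :=
    ⟨_, rfl⟩
  have hdisj : (F2 : Set ℕ).PairwiseDisjoint J := by
    intro a ha b hb hab
    have key : ∀ a ∈ F2, ∀ b ∈ F2, a < b → Disjoint (J a) (J b) := by
      intro a ha b hb hab
      rw [Set.disjoint_left]
      intro v hva hvb
      rw [hJ] at hva hvb
      obtain ⟨a1, a2⟩ := hmem2 a ha
      have a3 : (a : ℝ) ≤ (b : ℝ) - 1 := by
        have : a + 1 ≤ b := hab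
        have : (a : ℝ) + 1 ≤ b := by exact_mod_cast this
        linarith
      have a4 : (0 : ℝ) < a := by linarith [Real.exp_pos (m : ℝ)]
      have a5 : Real.log a ≤ Real.log ((b : ℝ) - 1) := Real.log_le_log a4 a3
      have b1 := hva.2
      have b2 := hvb.1
      linarith
    rcases lt_or_gt_of_ne hab with h | h
    · exact key a ha b hb h
    · exact (key b hb a ha h).symm
  have hJm : ∀ n ∈ F2, MeasurableSet (J n) := by
    intro n _
    rw [hJ]
    exact measurableSet_Ioc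
  have hvolU := measure_biUnion_finset (μ := (volume : Measure ℝ)) hdisj hJm
  have hlow : ENNReal.ofReal (F2.card / X) ≤ volume (⋃ n ∈ F2, J n) := by
    rw [hvolU]
    have a1 : ∀ n ∈ F2, ENNReal.ofReal (1 / X) ≤ volume (J n) := by
      intro n hn
      obtain ⟨a1, a2⟩ := hmem2 n hn
      rw [hJ]
      simp only
      rw [Real.volume_Ioc]
      apply ENNReal.ofReal_le_ofReal
      have a4 : 0 < (n : ℝ) - 1 := by linarith [Real.exp_pos (m : ℝ)]
      have a5 : 0 < (n : ℝ) := by linarith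
      rw [← Real.log_div a5.ne' a4.ne']
      have a6 := Real.one_sub_inv_le_log_of_pos (div_pos a5 a4)
      have a7 : 1 - ((n : ℝ) / ((n : ℝ) - 1))⁻¹ = 1 / n := by
        rw [inv_div]; field_simp; ring
      rw [a7] at a6
      refine le_trans ?_ a6
      exact div_le_div_of_nonneg_left (by norm_num) a5 a2
    refine le_trans (le_of_eq ?_) (Finset.sum_le_sum a1)
    rw [Finset.sum_const, nsmul_eq_mul, ← ENNReal.ofReal_natCast,
      ← ENNReal.ofReal_mul (Nat.cast_nonneg _)]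
    congr 1
    ring
  have hsub : (⋃ n ∈ F2, J n) ⊆ ⋃ Z ∈ Finset.Icc m ⌊L⌋₊, (S ∩ Set.Icc ((Z : ℕ) : ℝ) (Z + 1)) := by
    intro v hv
    rw [Set.mem_iUnion₂] at hv
    obtain ⟨n, hn, hvn⟩ := hv
    obtain ⟨a1, a2⟩ := hmem2 n hn
    obtain ⟨b1, b2, b3⟩ := hmem n hn
    rw [hJ] at hvn
    have a4 : 0 < (n : ℝ) - 1 := by linarith [Real.exp_pos (m : ℝ)]
    have a5 : (m : ℝ) ≤ Real.log ((n : ℝ) - 1) := by
      rw [Real.le_log_iff_exp_le a4]; exact a1
    have a6 : Real.log n ≤ L := by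
      rw [hL]; exact Real.log_le_log (by linarith) a2
    have c1 : (m : ℝ) < v := lt_of_le_of_lt a5 hvn.1
    have c2 : v ≤ L := hvn.2.trans a6
    have c3 : 0 ≤ v := by
      have : (0 : ℝ) ≤ m := Nat.cast_nonneg m
      linarith
    rw [Set.mem_iUnion₂]
    refine ⟨⌊v⌋₊, ?_, ?_, ?_, ?_⟩
    · rw [Finset.mem_Icc]
      exact ⟨Nat.le_floor c1.le, Nat.floor_le_floor c2⟩
    · exact hP n (hqn0.trans b1.le) b3 v hvn.1 hvn.2
    · exact Nat.floor_le c3
    · exact (Nat.lt_floor_add_one v).le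
  have hup : volume (⋃ n ∈ F2, J n) ≤ ENNReal.ofReal (2 * L * (C / (L / 4) ^ (B + 3))) := by
    refine (measure_mono hsub).trans ((measure_biUnion_finset_le _ _).trans ?_)
    have a1 : ∀ Z ∈ Finset.Icc m ⌊L⌋₊, volume (S ∩ Set.Icc ((Z : ℕ) : ℝ) (Z + 1)) ≤
        ENNReal.ofReal (C / (L / 4) ^ (B + 3)) := by
      intro Z hZ
      rw [Finset.mem_Icc] at hZ
      have hmZ : (m : ℝ) ≤ Z := by exact_mod_cast hZ.1
      have hZZ : Z1 ≤ Z := by
        have : (Z1 : ℝ) ≤ Z := by linarith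
        exact_mod_cast this
      refine (hZ1 Z hZZ).trans (ENNReal.ofReal_le_ofReal ?_)
      apply div_le_div_of_nonneg_left hC (by positivity)
      apply pow_le_pow_left₀ (by linarith)
      linarith
    refine (Finset.sum_le_sum a1).trans ?_
    rw [Finset.sum_const, nsmul_eq_mul, ← ENNReal.ofReal_natCast,
      ← ENNReal.ofReal_mul (Nat.cast_nonneg _)]
    apply ENNReal.ofReal_le_ofReal
    apply mul_le_mul_of_nonneg_right _ (by positivity)
    rw [Nat.card_Icc]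
    have a2 : ((⌊L⌋₊ + 1 - m : ℕ) : ℝ) ≤ (⌊L⌋₊ : ℝ) + 1 := by
      have : ⌊L⌋₊ + 1 - m ≤ ⌊L⌋₊ + 1 := Nat.sub_le _ _
      exact_mod_cast this
    have a3 : (⌊L⌋₊ : ℝ) ≤ L := Nat.floor_le (by linarith)
    linarith
  have hfin : (F2.card : ℝ) / X ≤ 2 * L * (C / (L / 4) ^ (B + 3)) := by
    have := hlow.trans hup
    rwa [ENNReal.ofReal_le_ofReal_iff (by positivity)] at this
  have hF2c : (F2.card : ℝ) ≤ 1 / 2 * (X / L ^ (B + 1)) := by
    rw [div_le_iff₀ (by linarith)] at hfin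
    refine hfin.trans ?_
    have a1 : (L / 4) ^ (B + 3) = L ^ (B + 3) / 4 ^ (B + 3) := div_pow _ _ _
    rw [a1]
    have a2 : 2 * L * (C / (L ^ (B + 3) / 4 ^ (B + 3))) * X =
        (4 ^ (B + 4) * C / L) * (1 / 2 * (X / L ^ (B + 1))) := by
      have e1 : (4 : ℝ) ^ (B + 4) = 4 * 4 ^ (B + 3) := by ring
      have e2 : L ^ (B + 3) = L ^ (B + 1) * L * L := by ring
      rw [e1, e2]
      field_simp
      ring
    rw [a2]
    have a3 : 4 ^ (B + 4) * C / L ≤ 1 := by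
      rw [div_le_one (by linarith)]
      exact hLC
    calc (4 ^ (B + 4) * C / L) * (1 / 2 * (X / L ^ (B + 1))) ≤ 1 * (1 / 2 * (X / L ^ (B + 1))) := by
          gcongr
      _ = _ := one_mul _
  have hqc : (q : ℝ) ≤ 1 / 2 * (X / L ^ (B + 1)) := by
    have a0 : 0 < Real.exp (1 / 2 * L) := Real.exp_pos _
    have a1 : (2 : ℝ) ≤ 3 * Real.exp (1 / 2 * L) := by
      have : (1 : ℝ) ≤ Real.exp (1 / 2 * L) := Real.one_le_exp (by linarith)
      linarith
    have a2 : (q : ℝ) ≤ 4 * Real.exp (1 / 2 * L) := by linarith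
    refine a2.trans ?_
    rw [← mul_div_assoc, le_div_iff₀ (by positivity)]
    have a3 : (X : ℝ) = Real.exp (1 / 2 * L) * Real.exp (1 / 2 * L) := by
      rw [hXe, ← Real.exp_add]; congr 1; ring
    have a4 : Real.exp (-(1 / 2 * L)) * Real.exp (1 / 2 * L) = 1 := by
      rw [← Real.exp_add]; simp
    calc 4 * Real.exp (1 / 2 * L) * L ^ (B + 1) =
          (4 * L ^ (B + 1) * Real.exp (-(1 / 2 * L))) *
            (Real.exp (1 / 2 * L) * Real.exp (1 / 2 * L)) := by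
          calc _ = 4 * Real.exp (1 / 2 * L) * L ^ (B + 1) *
              (Real.exp (-(1 / 2 * L)) * Real.exp (1 / 2 * L)) := by rw [a4]; ring
            _ = _ := by ring
      _ ≤ (1 / 2) * (Real.exp (1 / 2 * L) * Real.exp (1 / 2 * L)) := by gcongr
      _ = 1 / 2 * X := by rw [a3]
  linarith

end Pool.Agent.U762.HU
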