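import Pool.Agent.U762.HU.G
import Pool.Agent.U762.HU.H
import Pool.Agent.U762.GP.Prm

/-! From weighted windows to numbers of primes. -/

set_option autoImplicit false

namespace Pool.Agent.U762.HU

open Finset Filter Topology MeasureTheory
open Pool.Agent.R516 (pcn)
open Pool.Agent.U762.GP (Th mem_win vm_nonneg)

/-- the number of primes and the weighted sum of one window -/
lemma pcn_Th {v H η : ℝ} (hv : 0 < v) (hx : Real.exp (v + η) = Real.exp v + H) :
    (pcn ⌊Real.exp v⌋₊ ⌊Real.exp v + H⌋₊ : ℝ) * v ≤ (Real.exp v + H) * Th v η := by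
  have hx0 : 0 < Real.exp v := Real.exp_pos v
  unfold pcn Th
  rw [← hx, Finset.mul_sum]
  calc (((Finset.Ioc ⌊Real.exp v⌋₊ ⌊Real.exp (v + η)⌋₊).filter Nat.Prime).card : ℝ) * v =
      ∑ n ∈ (Finset.Ioc ⌊Real.exp v⌋₊ ⌊Real.exp (v + η)⌋₊).filter Nat.Prime, v := by
        rw [Finset.sum_const, nsmul_eq_mul]
    _ ≤ ∑ n ∈ (Finset.Ioc ⌊Real.exp v⌋₊ ⌊Real.exp (v + η)⌋₊).filter Nat.Prime,
        Real.exp (v + η) * (ArithmeticFunction.vonMangoldt n / (n : ℝ)) := by
        apply Finset.sum_le_sum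
        intro n hn
        rw [Finset.mem_filter] at hn
        obtain ⟨h1, h2, h3⟩ := mem_win hn.1
        have hn0 : (0 : ℝ) < n := by exact_mod_cast h1
        rw [ArithmeticFunction.vonMangoldt_apply_prime hn.2]
        have h4 : (n : ℝ) ≤ Real.exp (v + η) := (Real.log_le_iff_le_exp hn0).1 h3
        rw [mul_div_assoc', le_div_iff₀ hn0, mul_comm]
        exact mul_le_mul h4 h2.le hv.le (Real.exp_pos _).le
    _ ≤ _ := by
        apply Finset.sum_le_sum_of_subset_of_nonneg (Finset.filter_subset _ _)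
        intro n _ _
        exact mul_nonneg (Real.exp_pos _).le (vm_nonneg n)

/-- the number of primes from many windows -/
lemma pcn_Th_multi {v H η E : ℝ} {M : ℕ} (hv : 0 < v) (hη : 0 < η) (hM : 1 ≤ M) (hE : 0 ≤ E)
    (hx : Real.exp (v + η) = Real.exp v + H)
    (hT : ∀ j : ℕ, 1 ≤ j → j ≤ M → |Th v (j * (η / M)) - j * (η / M)| ≤ E) :
    (pcn ⌊Real.exp v⌋₊ ⌊Real.exp v + H⌋₊ : ℝ) * v ≤
      (1 + 2 * E * M / η) * Real.exp (η / M) * H := by
  have hM0 : (0 : ℝ) < M := by exact_mod_cast hM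
  obtain ⟨s, hs⟩ : ∃ s : ℝ, s = η / M := ⟨_, rfl⟩
  have hs0 : 0 < s := by rw [hs]; positivity
  have hMs : (M : ℝ) * s = η := by rw [hs]; field_simp
  rw [← hs] at hT ⊢
  obtain ⟨G, hG⟩ : ∃ G : ℕ → ℝ, G = fun j : ℕ => ∑ n ∈ Finset.Ioc ⌊Real.exp v⌋₊
    ⌊Real.exp (v + j * s)⌋₊, ArithmeticFunction.vonMangoldt n := ⟨_, rfl⟩
  have hTh0 : Th v 0 = 0 := by unfold Th; simp
  have hT' : ∀ j : ℕ, j ≤ M → |Th v (j * s) - j * s| ≤ E := by
    intro j hj
    rcases Nat.eq_zero_or_pos j with h | h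
    · rw [h]; simp [hTh0, hE]
    · exact hT j h hj
  have hmono : ∀ j : ℕ, ⌊Real.exp (v + j * s)⌋₊ ≤ ⌊Real.exp (v + (j + 1 : ℕ) * s)⌋₊ := by
    intro j
    apply Nat.floor_le_floor
    apply Real.exp_le_exp.2
    push_cast
    linarith
  have hmono0 : ∀ j : ℕ, ⌊Real.exp v⌋₊ ≤ ⌊Real.exp (v + j * s)⌋₊ := by
    intro j
    apply Nat.floor_le_floor
    apply Real.exp_le_exp.2
    have : (0 : ℝ) ≤ j * s := by positivity
    linarith
  have hclaim : ∀ j : ℕ, j ≤ M → G j ≤ (1 + 2 * E / s) * Real.exp s *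
      (Real.exp (v + j * s) - Real.exp v) := by
    intro j
    induction j with
    | zero =>
      intro _
      rw [hG]
      simp
    | succ j ih =>
      intro hj
      have h1 := ih (by omega)
      have h2 : G (j + 1) = G j + ∑ n ∈ Finset.Ioc ⌊Real.exp (v + j * s)⌋₊
          ⌊Real.exp (v + (j + 1 : ℕ) * s)⌋₊, ArithmeticFunction.vonMangoldt n := by
        rw [hG]
        simp only
        rw [Finset.sum_Ioc_consecutive _ (hmono0 j) (hmono j)]
      have h3 : Th v ((j + 1 : ℕ) * s) = Th v (j * s) + ∑ n ∈ Finset.Ioc ⌊Real.exp (v + j * s)⌋₊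
          ⌊Real.exp (v + (j + 1 : ℕ) * s)⌋₊, ArithmeticFunction.vonMangoldt n / (n : ℝ) := by
        unfold Th
        rw [Finset.sum_Ioc_consecutive _ (hmono0 j) (hmono j)]
      have h4 : ∑ n ∈ Finset.Ioc ⌊Real.exp (v + j * s)⌋₊
          ⌊Real.exp (v + (j + 1 : ℕ) * s)⌋₊, ArithmeticFunction.vonMangoldt n ≤
          Real.exp (v + (j + 1 : ℕ) * s) * ∑ n ∈ Finset.Ioc ⌊Real.exp (v + j * s)⌋₊
          ⌊Real.exp (v + (j + 1 : ℕ) * s)⌋₊, ArithmeticFunction.vonMangoldt n / (n : ℝ) := by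
        rw [Finset.mul_sum]
        apply Finset.sum_le_sum
        intro n hn
        rw [Finset.mem_Ioc] at hn
        have hn1 : 0 < n := by omega
        have hn0 : (0 : ℝ) < n := by exact_mod_cast hn1
        have h5 : (n : ℝ) ≤ Real.exp (v + (j + 1 : ℕ) * s) :=
          (Nat.le_floor_iff (Real.exp_pos _).le).1 hn.2
        have h6 : ArithmeticFunction.vonMangoldt n = n * (ArithmeticFunction.vonMangoldt n / n) := by
          field_simp
        calc ArithmeticFunction.vonMangoldt n = n * (ArithmeticFunction.vonMangoldt n / n) := h6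
          _ ≤ _ := mul_le_mul_of_nonneg_right h5 (vm_nonneg n)
      have h5 : ∑ n ∈ Finset.Ioc ⌊Real.exp (v + j * s)⌋₊
          ⌊Real.exp (v + (j + 1 : ℕ) * s)⌋₊, ArithmeticFunction.vonMangoldt n / (n : ℝ) ≤ s + 2 * E := by
        have a1 := (abs_le.1 (hT' (j + 1) hj)).2
        have a2 := (abs_le.1 (hT' j (by omega))).1
        rw [h3] at a1
        have e : ((j + 1 : ℕ) : ℝ) * s = j * s + s := by push_cast; ring
        linarith
      have h6 : Real.exp (v + (j + 1 : ℕ) * s) = Real.exp (v + j * s) * Real.exp s := by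
        rw [← Real.exp_add]; congr 1; push_cast; ring
      have h7 : Real.exp (v + j * s) * s ≤ Real.exp (v + (j + 1 : ℕ) * s) - Real.exp (v + j * s) := by
        rw [h6]
        have := Real.add_one_le_exp s
        nlinarith [Real.exp_pos (v + j * s)]
      have h8 : ∑ n ∈ Finset.Ioc ⌊Real.exp (v + j * s)⌋₊
          ⌊Real.exp (v + (j + 1 : ℕ) * s)⌋₊, ArithmeticFunction.vonMangoldt n ≤
          (1 + 2 * E / s) * Real.exp s *
            (Real.exp (v + (j + 1 : ℕ) * s) - Real.exp (v + j * s)) := by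
        calc _ ≤ _ := h4
          _ ≤ Real.exp (v + (j + 1 : ℕ) * s) * (s + 2 * E) :=
              mul_le_mul_of_nonneg_left h5 (Real.exp_pos _).le
          _ = (1 + 2 * E / s) * Real.exp s * (Real.exp (v + j * s) * s) := by
              rw [h6]; field_simp
          _ ≤ _ := by
              apply mul_le_mul_of_nonneg_left h7
              positivity
      rw [h2]
      have h9 : (1 + 2 * E / s) * Real.exp s * (Real.exp (v + (j + 1 : ℕ) * s) - Real.exp v) =
        (1 + 2 * E / s) * Real.exp s * (Real.exp (v + j * s) - Real.exp v) +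
        (1 + 2 * E / s) * Real.exp s *
            (Real.exp (v + (j + 1 : ℕ) * s) - Real.exp (v + j * s)) := by ring
      rw [h9]
      exact add_le_add h1 h8
  have hfin := hclaim M le_rfl
  have e1 : (1 : ℝ) + 2 * E * M / η = 1 + 2 * E / s := by
    rw [← hMs]; field_simp
  rw [hMs, hx] at hfin
  rw [e1]
  have e2 : Real.exp v + H - Real.exp v = H := by ring
  rw [e2] at hfin
  refine le_trans ?_ hfin
  rw [hG]
  simp only
  rw [hMs, ← hx]
  unfold pcn
  calc (((Finset.Ioc ⌊Real.exp v⌋₊ ⌊Real.exp (v + η)⌋₊).filter Nat.Prime).card : ℝ) * v =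
      ∑ n ∈ (Finset.Ioc ⌊Real.exp v⌋₊ ⌊Real.exp (v + η)⌋₊).filter Nat.Prime, v := by
        rw [Finset.sum_const, nsmul_eq_mul]
    _ ≤ ∑ n ∈ (Finset.Ioc ⌊Real.exp v⌋₊ ⌊Real.exp (v + η)⌋₊).filter Nat.Prime,
        ArithmeticFunction.vonMangoldt n := by
        apply Finset.sum_le_sum
        intro n hn
        rw [Finset.mem_filter] at hn
        obtain ⟨h1, h2, h3⟩ := mem_win hn.1
        rw [ArithmeticFunction.vonMangoldt_apply_prime hn.2]
        exact h2.le
    _ ≤ _ := by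
        apply Finset.sum_le_sum_of_subset_of_nonneg (Finset.filter_subset _ _)
        intro n _ _
        exact ArithmeticFunction.vonMangoldt_nonneg

/-- the transfer from an integer to the real points below it -/
lemma pcn_real {n y : ℕ} {x : ℝ} (h1 : (n : ℝ) - 1 < x) (h2 : x ≤ n) :
    (pcn n (n + y) : ℝ) ≤ pcn ⌊x⌋₊ ⌊x + ((y : ℝ) + 1)⌋₊ := by
  have h3 : pcn n (n + y) ≤ pcn ⌊x⌋₊ ⌊x + ((y : ℝ) + 1)⌋₊ := by
    unfold pcn
    apply Finset.card_le_card
    apply Finset.filter_subset_filter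
    apply Finset.Ioc_subset_Ioc
    · have := Nat.floor_le_floor h2
      rwa [Nat.floor_natCast] at this
    · apply Nat.le_floor
      push_cast
      linarith
  exact_mod_cast h3

end Pool.Agent.U762.HU
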