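import Pool.Agent.U762.HU.I
import Pool.Agent.U762.SH.Large

/-! The number of integers with too many primes in some window of length `≥ n ^ (1 / 5)`. -/

set_option autoImplicit false

namespace Pool.Agent.U762.HU

open Finset Filter Topology MeasureTheory
open Pool.Agent.R516 (pcn)
open Pool.Agent.U762.GP (Th mem_win vm_nonneg)
open Pool.Agent.Q257.KS (ev_small)

/-- medium windows -/
def Q3 (κ : ℝ) (M n : ℕ) : Prop := ∃ y : ℕ, (n : ℝ) ^ (1 / 5 : ℝ) ≤ y ∧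
  (y : ℝ) ≤ (n : ℝ) ^ (1 - κ) ∧ Nat.primeCounting y < pcn n (n + y) + M

/-- long windows -/
def Q4 (κ : ℝ) (M n : ℕ) : Prop := ∃ y : ℕ, (n : ℝ) ^ (1 - κ) ≤ y ∧ y ≤ n ∧
  Nat.primeCounting y < pcn n (n + y) + M

/-- the exceptional logarithms, medium windows -/
def S3 (δ : ℝ) : Set ℝ :=
  {v | ∃ η : ℝ, Real.exp (-(0.805 * v)) ≤ η ∧ η ≤ 1 / 20 ∧ (1 + δ) * η < Th v η}

/-- the exceptional logarithms, long windows -/
def S4 (c : ℝ) : Set ℝ :=
  {v | ∃ η : ℝ, Real.exp (-(c * v)) ≤ η ∧ η ≤ 4 / 5 ∧ (1 / v ^ 5) * η < |Th v η - η|}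

lemma S3_vol (δ : ℝ) (hδ : 0 < δ) (hδ1 : δ ≤ 1) (B : ℕ) : ∀ᶠ Z : ℕ in atTop,
    volume (S3 δ ∩ Set.Icc (Z : ℝ) (Z + 1)) ≤ ENNReal.ofReal (5 / (Z : ℝ) ^ B) := by
  obtain ⟨Y₀, h⟩ := win3 δ hδ hδ1 B
  refine five (T := fun Y => {v : ℝ | ∃ η : ℝ, Real.exp (-(0.81 * Y)) ≤ η ∧ η ≤ 1 / 20 ∧
    (1 + δ) * η < Th v η}) (Y₁ := 20) h ?_
  rintro Y hY v ⟨⟨η, h1, h2, h3⟩, hv1, hv2⟩
  refine ⟨η, le_trans (Real.exp_le_exp.2 ?_) h1, h2, h3⟩
  linarith

lemma S4_vol (B : ℕ) : ∃ c : ℝ, 0 < c ∧ c ≤ 1 / 40 ∧ ∀ᶠ Z : ℕ in atTop,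
    volume (S4 c ∩ Set.Icc (Z : ℝ) (Z + 1)) ≤ ENNReal.ofReal (5 / (Z : ℝ) ^ B) := by
  obtain ⟨c, Y₀, hc0, hc1, h⟩ := win4 B
  refine ⟨c / 2, by linarith, by linarith, ?_⟩
  refine five (T := fun Y => {v : ℝ | ∃ η : ℝ, Real.exp (-(c * Y)) ≤ η ∧ η ≤ 4 / 5 ∧
    (1 / Y ^ 6) * η < |Th v η - η|}) (Y₁ := 20) h ?_
  rintro Y hY v ⟨⟨η, h1, h2, h3⟩, hv1, hv2⟩
  have hη : 0 < η := lt_of_lt_of_le (Real.exp_pos _) h1
  refine ⟨η, le_trans (Real.exp_le_exp.2 ?_) h1, h2, lt_of_le_of_lt ?_ h3⟩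
  · nlinarith
  · apply mul_le_mul_of_nonneg_right _ hη.le
    apply div_le_div_of_nonneg_left (by norm_num)
    · have : 0 < v := by linarith
      positivity
    · have a1 : v ≤ 1.05 * Y := by linarith
      calc v ^ 5 ≤ (1.05 * Y) ^ 5 := pow_le_pow_left₀ (by linarith) a1 _
        _ = 1.05 ^ 5 * Y ^ 5 := by ring
        _ ≤ Y * Y ^ 5 := by
            apply mul_le_mul_of_nonneg_right _ (by positivity)
            norm_num
            linarith
        _ = Y ^ 6 := by ring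

/-- properties of the points just below an integer -/
lemma below {n : ℕ} {v : ℝ} (hn : 20 ≤ n) (h1 : Real.log ((n : ℝ) - 1) < v) (h2 : v ≤ Real.log n) :
    (n : ℝ) - 1 < Real.exp v ∧ Real.exp v ≤ n ∧ (n : ℝ) / 2 ≤ Real.exp v ∧
      Real.log n - 2 / n ≤ v ∧ Real.log n - 1 ≤ v := by
  have hn20 : (20 : ℝ) ≤ n := by exact_mod_cast hn
  have hn0 : (0 : ℝ) < n := by linarith
  have hn1 : (0 : ℝ) < (n : ℝ) - 1 := by linarith
  have a1 : (n : ℝ) - 1 < Real.exp v := (Real.log_lt_iff_lt_exp hn1).1 h1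
  have a2 : Real.exp v ≤ n := by
    rw [← Real.exp_log hn0]; exact Real.exp_le_exp.2 h2
  have a3 : Real.log n - Real.log ((n : ℝ) - 1) ≤ 2 / n := by
    rw [← Real.log_div hn0.ne' hn1.ne']
    have h3 := Real.log_le_sub_one_of_pos (div_pos hn0 hn1)
    refine h3.trans ?_
    have : (n : ℝ) / ((n : ℝ) - 1) - 1 = 1 / ((n : ℝ) - 1) := by field_simp; ring
    rw [this, div_le_div_iff₀ hn1 hn0]
    linarith
  have a4 : 2 / (n : ℝ) ≤ 1 := by rw [div_le_one hn0]; linarith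
  refine ⟨a1, a2, by linarith, by linarith, by linarith⟩

theorem cnt3 (κ : ℝ) (hκ : 0 < κ) (hκ1 : κ ≤ 1 / 20) (M A : ℕ) [DecidablePred (Q3 κ M)] :
    ∀ᶠ X : ℕ in atTop, (((Icc 1 X).filter (Q3 κ M)).card : ℝ) ≤ X / (Real.log X) ^ (A + 1) := by
  obtain ⟨δ, hδd⟩ : ∃ δ : ℝ, δ = κ / 20 := ⟨_, rfl⟩
  have hδ : 0 < δ := by rw [hδd]; linarith
  have hδ1 : δ ≤ 1 / 400 := by rw [hδd]; linarith
  obtain ⟨Yp, hYp2, hYp⟩ := Pool.Agent.U762.SH.pnt_lower hδ
  have hvol := S3_vol δ hδ (by linarith) (A + 3)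
  have hevL : ∀ᶠ L : ℝ in atTop, 6 ≤ Real.exp (0.005 * L) ∧ 4 * Real.exp (-(κ * L)) ≤ δ ∧
      1 ≤ δ * Real.exp (L / 5) ∧ 2 ≤ δ * L ∧ Yp ≤ Real.exp (L / 5) ∧
      M * L < 0.7 * κ * Real.exp (L / 5) ∧ 20 ≤ L := by
    have t1 : Tendsto (fun L : ℝ => Real.exp (0.005 * L)) atTop atTop :=
      Real.tendsto_exp_atTop.comp (tendsto_id.const_mul_atTop (by norm_num))
    have t2 : Tendsto (fun L : ℝ => Real.exp (L / 5)) atTop atTop :=
      Real.tendsto_exp_atTop.comp (tendsto_id.atTop_div_const (by norm_num))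
    have t3 := ev_small κ 4 δ 0 hκ hδ
    have t4 := ev_small (1 / 5) (M / (0.7 * κ)) (1 / 2) 1 (by norm_num) (by norm_num)
    filter_upwards [t1.eventually_ge_atTop 6, t3, t2.eventually_ge_atTop (1 / δ),
      eventually_ge_atTop (2 / δ), t2.eventually_ge_atTop Yp, t4, eventually_ge_atTop 20] with
      L a1 a2 a3 a4 a5 a6 a7
    rw [pow_zero, mul_one] at a2
    refine ⟨a1, a2, ?_, ?_, a5, ?_, a7⟩
    · rw [div_le_iff₀ hδ] at a3; linarith
    · rw [div_le_iff₀ hδ] at a4; linarith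
    · rw [pow_one] at a6
      have e1 : Real.exp (-(1 / 5 * L)) * Real.exp (L / 5) = 1 := by
        rw [← Real.exp_add]
        have : -(1 / 5 * L) + L / 5 = 0 := by ring
        rw [this, Real.exp_zero]
      have e2 := mul_le_mul_of_nonneg_right a6 (Real.exp_pos (L / 5)).le
      have e3 : (M : ℝ) / (0.7 * κ) * (L + 3) * Real.exp (-(1 / 5 * L)) * Real.exp (L / 5) =
          (M : ℝ) / (0.7 * κ) * (L + 3) := by rw [mul_assoc, e1, mul_one]
      rw [e3] at e2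
      have hκ' : 0 < 0.7 * κ := by linarith
      have e4 : (M : ℝ) / (0.7 * κ) * (L + 3) = (M : ℝ) * (L + 3) / (0.7 * κ) := by ring
      rw [e4, div_le_iff₀ hκ'] at e2
      have e5 : 0 < Real.exp (L / 5) := Real.exp_pos _
      have e6 : (M : ℝ) * L ≤ (M : ℝ) * (L + 3) :=
        mul_le_mul_of_nonneg_left (by linarith) (Nat.cast_nonneg M)
      have e7 : 1 / 2 * Real.exp (L / 5) * (0.7 * κ) < 0.7 * κ * Real.exp (L / 5) := by
        have : 0 < 0.7 * κ * Real.exp (L / 5) := by positivity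
        linarith
      linarith
  have hlog : Tendsto (fun X : ℕ => Real.log X) atTop atTop :=
    Real.tendsto_log_atTop.comp tendsto_natCast_atTop_atTop
  obtain ⟨n0, hn0⟩ := ((hlog.eventually hevL).and (eventually_ge_atTop 20)).exists_forall_of_atTop
  refine vol_count (C := 5) (by norm_num) hvol (n0 := n0) ?_
  rintro n hn ⟨y, hy1, hy2, hy3⟩ v hv1 hv2
  obtain ⟨⟨c1, c2, c3, c4, c5, c6, c7⟩, hn20⟩ := hn0 n hn
  obtain ⟨b1, b2, b3, b4, b5⟩ := below hn20 hv1 hv2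
  obtain ⟨L, hL⟩ : ∃ L : ℝ, L = Real.log n := ⟨_, rfl⟩
  rw [← hL] at c1 c2 c3 c4 c5 c6 c7 b4 b5 hv2
  have hnr : (20 : ℝ) ≤ n := by exact_mod_cast hn20
  have hnL : (n : ℝ) = Real.exp L := by rw [hL, Real.exp_log (by linarith)]
  have hpow : ∀ t : ℝ, (n : ℝ) ^ t = Real.exp (t * L) := by
    intro t
    rw [Real.rpow_def_of_pos (by linarith), ← hL, mul_comm]
  rw [hpow] at hy1 hy2
  have hy1' : Real.exp (L / 5) ≤ y := by
    refine le_trans (le_of_eq ?_) hy1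
    congr 1; ring
  by_contra hvS
  have hL0 : 0 < L := by linarith
  have hv0 : 0 < v := by linarith
  have hx0 : 0 < Real.exp v := Real.exp_pos v
  obtain ⟨x, hxd⟩ : ∃ x : ℝ, x = Real.exp v := ⟨_, rfl⟩
  obtain ⟨H, hH⟩ : ∃ H : ℝ, H = (y : ℝ) + 1 := ⟨_, rfl⟩
  obtain ⟨u, hu⟩ : ∃ u : ℝ, u = H / x := ⟨_, rfl⟩
  obtain ⟨η, hη⟩ : ∃ η : ℝ, η = Real.log (1 + u) := ⟨_, rfl⟩
  rw [← hxd] at b1 b2 b3 hx0
  have hy0 : (1 : ℝ) ≤ y := by
    have : (1 : ℝ) ≤ Real.exp (L / 5) := Real.one_le_exp (by linarith)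
    linarith
  have hH0 : 0 < H := by rw [hH]; linarith
  have hu0 : 0 < u := by rw [hu]; positivity
  have hxe : Real.exp (v + η) = x + H := by
    rw [Real.exp_add, ← hxd, hη, Real.exp_log (by linarith), hu]
    field_simp
  have huδ : u ≤ δ := by
    rw [hu, div_le_iff₀ hx0, hH]
    have e1 : Real.exp ((1 - κ) * L) = Real.exp (-(κ * L)) * n := by
      rw [hnL, ← Real.exp_add]; congr 1; ring
    have e2 : (y : ℝ) + 1 ≤ 2 * y := by linarith
    calc (y : ℝ) + 1 ≤ 2 * y := e2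
      _ ≤ 2 * (Real.exp (-(κ * L)) * n) := by rw [← e1]; linarith
      _ = 4 * Real.exp (-(κ * L)) * (n / 2) := by ring
      _ ≤ δ * x := mul_le_mul c2 b3 (by positivity) hδ.le
  have hη1 : η ≤ u := by
    rw [hη]
    have := Real.log_le_sub_one_of_pos (by linarith : 0 < 1 + u)
    linarith
  have hη2 : u / 2 ≤ η := by
    have h2 := Real.one_sub_inv_le_log_of_pos (by linarith : 0 < 1 + u)
    rw [← hη] at h2
    refine le_trans ?_ h2
    have h3 : 1 - (1 + u)⁻¹ = u / (1 + u) := by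
      field_simp
      ring
    rw [h3]
    exact div_le_div_of_nonneg_left hu0.le (by linarith) (by linarith)
  have hη3 : Real.exp (-(0.805 * v)) ≤ η := by
    refine le_trans ?_ hη2
    have e1 : Real.exp (-(0.8 * L)) ≤ u := by
      rw [hu, le_div_iff₀ hx0]
      calc Real.exp (-(0.8 * L)) * x ≤ Real.exp (-(0.8 * L)) * n := by gcongr
        _ = Real.exp (L / 5) := by
            rw [hnL, ← Real.exp_add]; congr 1; ring
        _ ≤ H := by rw [hH]; linarith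
    have e2 : Real.exp (-(0.805 * v)) ≤ Real.exp (1 - 0.805 * L) := by
      apply Real.exp_le_exp.2
      linarith
    have e3 : Real.exp (1 - 0.805 * L) = Real.exp 1 * (Real.exp (-(0.005 * L)) * Real.exp (-(0.8 * L))) := by
      rw [← Real.exp_add, ← Real.exp_add]; congr 1; ring
    have e4 : Real.exp 1 * Real.exp (-(0.005 * L)) ≤ 1 / 2 := by
      have q1 : Real.exp (-(0.005 * L)) ≤ 1 / 6 := by
        rw [Real.exp_neg, one_div]
        exact inv_anti₀ (by norm_num) c1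
      have q2 := Real.exp_one_lt_d9
      calc Real.exp 1 * Real.exp (-(0.005 * L)) ≤ 3 * (1 / 6) := by
            apply mul_le_mul (by linarith) q1 (Real.exp_pos _).le (by norm_num)
        _ = 1 / 2 := by norm_num
    calc Real.exp (-(0.805 * v)) ≤ Real.exp 1 * (Real.exp (-(0.005 * L)) * Real.exp (-(0.8 * L))) := by
          rw [← e3]; exact e2
      _ = Real.exp 1 * Real.exp (-(0.005 * L)) * Real.exp (-(0.8 * L)) := by ring
      _ ≤ 1 / 2 * u := by gcongr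
      _ = u / 2 := by ring
  have hTh : Th v η ≤ (1 + δ) * η := by
    by_contra hc
    rw [not_le] at hc
    exact hvS ⟨η, hη3, by linarith, hc⟩
  have hP := pcn_Th (H := H) hv0 (by rw [← hxd]; exact hxe)
  rw [← hxd] at hP
  have hP0 : (pcn n (n + y) : ℝ) ≤ pcn ⌊x⌋₊ ⌊x + H⌋₊ := by
    rw [hH]; exact pcn_real b1 b2
  obtain ⟨P, hPd⟩ : ∃ P : ℝ, P = (pcn n (n + y) : ℝ) := ⟨_, rfl⟩
  have hPnn : 0 ≤ P := by rw [hPd]; exact Nat.cast_nonneg _
  rw [← hPd] at hP0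
  have g1 : P * v ≤ (1 + δ) ^ 3 * y := by
    calc P * v ≤ (pcn ⌊x⌋₊ ⌊x + H⌋₊ : ℝ) * v := mul_le_mul_of_nonneg_right hP0 hv0.le
      _ ≤ (x + H) * Th v η := hP
      _ ≤ (x + H) * ((1 + δ) * u) := by
          apply mul_le_mul_of_nonneg_left _ (by linarith)
          refine hTh.trans ?_
          exact mul_le_mul_of_nonneg_left hη1 (by linarith)
      _ = (1 + δ) * (1 + u) * H := by rw [hu]; field_simp
      _ ≤ (1 + δ) * (1 + δ) * ((1 + δ) * y) := by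
          have q1 : H ≤ (1 + δ) * y := by
            rw [hH]
            have : 1 ≤ δ * y := c3.trans (mul_le_mul_of_nonneg_left hy1' hδ.le)
            linarith
          have q2 : 1 + u ≤ 1 + δ := by linarith
          apply mul_le_mul _ q1 hH0.le (by positivity)
          exact mul_le_mul_of_nonneg_left q2 (by linarith)
      _ = (1 + δ) ^ 3 * y := by ring
  have g2 : P * L ≤ (1 + δ) ^ 4 * y := by
    have q1 : L ≤ (1 + δ) * v := by
      have q0 := mul_le_mul_of_nonneg_left b5 (by linarith : 0 ≤ 1 + δ)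
      have q2 : (1 + δ) * (L - 1) = L + (δ * L - 1 - δ) := by ring
      rw [q2] at q0
      linarith
    calc P * L ≤ P * ((1 + δ) * v) := mul_le_mul_of_nonneg_left q1 hPnn
      _ = (1 + δ) * (P * v) := by ring
      _ ≤ (1 + δ) * ((1 + δ) ^ 3 * y) := mul_le_mul_of_nonneg_left g1 (by linarith)
      _ = _ := by ring
  -- the prime number theorem below
  have g3 := hYp (y : ℝ) (c5.trans hy1')
  rw [Nat.floor_natCast] at g3
  have hly : 0 < Real.log y := Real.log_pos (by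
    have : (2 : ℝ) ≤ y := hYp2.trans (c5.trans hy1')
    linarith)
  have hly2 : Real.log y ≤ (1 - κ) * L := by
    rw [Real.log_le_iff_le_exp (by linarith)]
    exact hy2
  rw [div_le_iff₀ hly] at g3
  obtain ⟨p, hp⟩ : ∃ p : ℝ, p = (Nat.primeCounting y : ℝ) := ⟨_, rfl⟩
  rw [← hp] at g3
  have hp0 : 0 ≤ p := by rw [hp]; exact Nat.cast_nonneg _
  have g4 : p ≤ P + M := by
    rw [hp, hPd]
    exact_mod_cast hy3.le
  have g5 : (1 - δ) * y ≤ (1 - κ) * ((1 + δ) ^ 4 * y + M * L) := by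
    calc (1 - δ) * y ≤ p * Real.log y := g3
      _ ≤ p * ((1 - κ) * L) := mul_le_mul_of_nonneg_left hly2 hp0
      _ ≤ (P + M) * ((1 - κ) * L) := by
          apply mul_le_mul_of_nonneg_right g4
          apply mul_nonneg (by linarith) hL0.le
      _ = (1 - κ) * (P * L + M * L) := by ring
      _ ≤ _ := by
          apply mul_le_mul_of_nonneg_left _ (by linarith)
          linarith
  have g6 : (1 + δ) ^ 4 ≤ 1 + 5 * δ := by
    have q1 : (1 + δ) ^ 4 = 1 + 4 * δ + 6 * δ ^ 2 + 4 * δ ^ 3 + δ ^ 4 := by ring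
    have q2 : δ ^ 2 ≤ δ * (1 / 400) := by rw [pow_two]; gcongr
    have q3 : δ ^ 3 ≤ δ * (1 / 400) :=
      le_trans (pow_le_pow_of_le_one hδ.le (by linarith) (by norm_num)) q2
    have q4 : δ ^ 4 ≤ δ * (1 / 400) :=
      le_trans (pow_le_pow_of_le_one hδ.le (by linarith) (by norm_num)) q2
    rw [q1]
    linarith
  have g7 : (1 - κ) * ((1 + δ) ^ 4 * y + M * L) ≤ (1 - κ) * ((1 + 5 * δ) * y) + M * L := by
    have q1 : (1 + δ) ^ 4 * y ≤ (1 + 5 * δ) * y := mul_le_mul_of_nonneg_right g6 (by linarith)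
    have q2 : 0 ≤ κ * ((M : ℝ) * L) := by positivity
    have q3 : (1 - κ) * ((1 + δ) ^ 4 * y) ≤ (1 - κ) * ((1 + 5 * δ) * y) :=
      mul_le_mul_of_nonneg_left q1 (by linarith)
    have q4 : (1 - κ) * ((1 + δ) ^ 4 * y + M * L) = (1 - κ) * ((1 + δ) ^ 4 * y) +
      (M * L - κ * (M * L)) := by ring
    rw [q4]
    linarith
  have g8 : (1 - κ) * ((1 + 5 * δ) * y) ≤ (1 - 3 / 4 * κ) * y := by
    have e : (1 - κ) * ((1 + 5 * δ) * y) = (1 - κ) * (1 + κ / 4) * y := by rw [hδd]; ring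
    rw [e]
    apply mul_le_mul_of_nonneg_right _ (by linarith)
    have q1 : (1 - κ) * (1 + κ / 4) = 1 - 3 / 4 * κ - κ * κ / 4 := by ring
    rw [q1]
    have q2 : 0 ≤ κ * κ := by positivity
    linarith
  have g9 : 0.7 * κ * Real.exp (L / 5) ≤ 0.7 * κ * y := by gcongr
  have g10 : (1 - δ) * y = y - κ / 20 * y := by rw [hδd]; ring
  rw [g10] at g5
  have g11 : (1 - 3 / 4 * κ) * y = y - 3 / 4 * κ * y := by ring
  rw [g11] at g8
  linarith

end Pool.Agent.U762.HU
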