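import Pool.Agent.U762.HU.J

/-! The number of integers with too many primes in some window of length `≥ n ^ (1 - κ)`. -/

set_option autoImplicit false

namespace Pool.Agent.U762.HU

open Finset Filter Topology MeasureTheory
open Pool.Agent.R516 (pcn)
open Pool.Agent.U762.GP (Th mem_win vm_nonneg)
open Pool.Agent.Q257.KS (ev_small)

lemma exp_half_le : Real.exp 0.5 ≤ 2 := by
  have a1 : Real.exp 0.5 * Real.exp 0.5 = Real.exp 1 := by rw [← Real.exp_add]; norm_num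
  have a2 := Real.exp_one_lt_d9
  nlinarith [Real.exp_pos (0.5 : ℝ)]

theorem cnt4 (A : ℕ) : ∃ κ : ℝ, 0 < κ ∧ κ ≤ 1 / 20 ∧ ∀ M : ℕ, ∀ _ : DecidablePred (Q4 κ M),
    ∀ᶠ X : ℕ in atTop, (((Icc 1 X).filter (Q4 κ M)).card : ℝ) ≤ X / (Real.log X) ^ (A + 1) := by
  obtain ⟨c, hc0, hc1, hvol⟩ := S4_vol (A + 3)
  obtain ⟨κ, hκd⟩ : ∃ κ : ℝ, κ = c / 4 := ⟨_, rfl⟩
  have hκ : 0 < κ := by rw [hκd]; linarith
  have hκ1 : κ ≤ 1 / 20 := by rw [hκd]; linarith
  refine ⟨κ, hκ, hκ1, fun M _ => ?_⟩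
  obtain ⟨y1, hy12, hpi⟩ := pi_low2
  have hevL : ∀ᶠ L : ℝ in atTop, 12 * (L + 3) ^ 2 * Real.exp (-(3 * κ * L)) ≤ 1 ∧
      (y1 : ℝ) ≤ Real.exp (L / 2) ∧
      (30 + 6 * M) * (L + 3) ^ 2 * Real.exp (-(1 / 2 * L)) ≤ 1 / 2 ∧ 200 ≤ L := by
    have t2 : Tendsto (fun L : ℝ => Real.exp (L / 2)) atTop atTop :=
      Real.tendsto_exp_atTop.comp (tendsto_id.atTop_div_const (by norm_num))
    filter_upwards [ev_small (3 * κ) 12 1 2 (by linarith) (by norm_num),
      t2.eventually_ge_atTop (y1 : ℝ), ev_small (1 / 2) (30 + 6 * M) (1 / 2) 2 (by norm_num)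
      (by norm_num), eventually_ge_atTop 200] with L a1 a2 a3 a4
    exact ⟨a1, a2, a3, a4⟩
  have hlog : Tendsto (fun X : ℕ => Real.log X) atTop atTop :=
    Real.tendsto_log_atTop.comp tendsto_natCast_atTop_atTop
  obtain ⟨n0, hn0⟩ := ((hlog.eventually hevL).and (eventually_ge_atTop 20)).exists_forall_of_atTop
  refine vol_count (C := 5) (by norm_num) hvol (n0 := n0) ?_
  rintro n hn ⟨y, hy1, hy2, hy3⟩ v hv1 hv2
  obtain ⟨⟨c1, c2, c3, c4⟩, hn20⟩ := hn0 n hn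
  obtain ⟨b1, b2, b3, b4, b5⟩ := below hn20 hv1 hv2
  obtain ⟨L, hL⟩ : ∃ L : ℝ, L = Real.log n := ⟨_, rfl⟩
  rw [← hL] at c1 c2 c3 c4 b4 b5 hv2
  have hnr : (20 : ℝ) ≤ n := by exact_mod_cast hn20
  have hnL : (n : ℝ) = Real.exp L := by rw [hL, Real.exp_log (by linarith)]
  have hpow : ∀ t : ℝ, (n : ℝ) ^ t = Real.exp (t * L) := by
    intro t
    rw [Real.rpow_def_of_pos (by linarith), ← hL, mul_comm]
  rw [hpow] at hy1
  have hyn : (y : ℝ) ≤ n := by exact_mod_cast hy2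
  have hL0 : 0 < L := by linarith
  have hy1' : Real.exp (L / 2) ≤ y := by
    refine le_trans (Real.exp_le_exp.2 ?_) hy1
    have q1 := mul_nonneg (by linarith : 0 ≤ 1 / 2 - κ) hL0.le
    linarith
  by_contra hvS
  have hv0 : 0 < v := by linarith
  have hx0 : 0 < Real.exp v := Real.exp_pos v
  obtain ⟨x, hxd⟩ : ∃ x : ℝ, x = Real.exp v := ⟨_, rfl⟩
  obtain ⟨H, hH⟩ : ∃ H : ℝ, H = (y : ℝ) + 1 := ⟨_, rfl⟩
  obtain ⟨u, hu⟩ : ∃ u : ℝ, u = H / x := ⟨_, rfl⟩
  obtain ⟨η, hη⟩ : ∃ η : ℝ, η = Real.log (1 + u) := ⟨_, rfl⟩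
  rw [← hxd] at b1 b2 b3 hx0
  have hy0 : (1 : ℝ) ≤ y := by
    have : (1 : ℝ) ≤ Real.exp (L / 2) := Real.one_le_exp (by linarith)
    linarith
  have hH0 : 0 < H := by rw [hH]; linarith
  have hu0 : 0 < u := by rw [hu]; positivity
  have hxe : Real.exp (v + η) = x + H := by
    rw [Real.exp_add, ← hxd, hη, Real.exp_log (by linarith), hu]
    field_simp
  have hu65 : u ≤ 6 / 5 := by
    rw [hu, div_le_iff₀ hx0, hH]
    linarith
  have hη1 : η ≤ 4 / 5 := by
    rw [hη, Real.log_le_iff_le_exp (by linarith)]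
    have q1 := Real.quadratic_le_exp_of_nonneg (x := 1 / 5) (by norm_num)
    have q2 : Real.exp (4 / 5) = Real.exp (1 / 5) ^ 4 := by
      rw [← Real.exp_nat_mul]; norm_num
    rw [q2]
    calc 1 + u ≤ (1 + 1 / 5 + (1 / 5) ^ 2 / 2) ^ 4 := by norm_num; linarith
      _ ≤ Real.exp (1 / 5) ^ 4 := pow_le_pow_left₀ (by norm_num) q1 _
  have hη2 : u / 3 ≤ η := by
    have h2 := Real.one_sub_inv_le_log_of_pos (by linarith : 0 < 1 + u)
    rw [← hη] at h2
    refine le_trans ?_ h2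
    have h3 : 1 - (1 + u)⁻¹ = u / (1 + u) := by
      field_simp
      ring
    rw [h3]
    exact div_le_div_of_nonneg_left hu0.le (by linarith) (by linarith)
  have hη0 : 0 < η := by linarith [div_pos hu0 (by norm_num : (0 : ℝ) < 3)]
  have hul : Real.exp (-(κ * L)) ≤ u := by
    rw [hu, le_div_iff₀ hx0]
    calc Real.exp (-(κ * L)) * x ≤ Real.exp (-(κ * L)) * n := by gcongr
      _ = Real.exp ((1 - κ) * L) := by
          rw [hnL, ← Real.exp_add]; congr 1; ring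
      _ ≤ H := by rw [hH]; linarith
  -- the number of windows
  obtain ⟨m, hm⟩ : ∃ m : ℕ, m = ⌈v ^ 2⌉₊ := ⟨_, rfl⟩
  have hv5 : 100 ≤ v := by linarith
  have hvL : v ≤ L := hv2
  have hm1 : v ^ 2 ≤ m := by rw [hm]; exact Nat.le_ceil _
  have hm2 : (m : ℝ) ≤ 2 * v ^ 2 := by
    have : (m : ℝ) < v ^ 2 + 1 := by rw [hm]; exact Nat.ceil_lt_add_one (by positivity)
    have h9 : 1 ≤ v ^ 2 := one_le_pow₀ (by linarith)
    linarith
  have hm0 : (0 : ℝ) < m := lt_of_lt_of_le (by positivity) hm1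
  have hmn : 1 ≤ m := by exact_mod_cast (by
    have : (0 : ℝ) < m := hm0
    exact_mod_cast this : 0 < m)
  have hsmall : Real.exp (-(c * v)) ≤ η / m := by
    rw [le_div_iff₀ hm0]
    have e1 : Real.exp (-(c * v)) ≤ 2 * Real.exp (-(4 * κ * L)) := by
      have e2 : Real.exp (-(c * v)) ≤ Real.exp (c + -(4 * κ * L)) := by
        apply Real.exp_le_exp.2
        rw [hκd]
        have q1 := mul_le_mul_of_nonneg_left b5 hc0.le
        linarith
      rw [Real.exp_add] at e2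
      refine e2.trans ?_
      apply mul_le_mul_of_nonneg_right _ (Real.exp_pos _).le
      have e3 : Real.exp c ≤ Real.exp 0.5 := Real.exp_le_exp.2 (by linarith)
      exact e3.trans exp_half_le
    have e4 : (m : ℝ) ≤ 2 * (L + 3) ^ 2 := by
      refine hm2.trans ?_
      have : v ^ 2 ≤ (L + 3) ^ 2 := pow_le_pow_left₀ hv0.le (by linarith) _
      linarith
    have e5 : Real.exp (-(4 * κ * L)) = Real.exp (-(3 * κ * L)) * Real.exp (-(κ * L)) := by
      rw [← Real.exp_add]; congr 1; ring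
    calc Real.exp (-(c * v)) * m ≤ (2 * Real.exp (-(4 * κ * L))) * (2 * (L + 3) ^ 2) := by gcongr
      _ = (12 * (L + 3) ^ 2 * Real.exp (-(3 * κ * L))) * (Real.exp (-(κ * L)) / 3) := by
          rw [e5]; ring
      _ ≤ 1 * (u / 3) := by gcongr
      _ ≤ η := by linarith
  have hT : ∀ j : ℕ, 1 ≤ j → j ≤ m → |Th v (j * (η / m)) - j * (η / m)| ≤ 1 / v ^ 5 * η := by
    intro j hj1 hj2
    have hj1' : (1 : ℝ) ≤ j := by exact_mod_cast hj1
    have hj2' : (j : ℝ) ≤ m := by exact_mod_cast hj2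
    have hs0 : 0 < η / m := by positivity
    have q1 : η / m ≤ j * (η / m) := le_mul_of_one_le_left hs0.le hj1'
    have q2 : j * (η / m) ≤ η := by
      calc (j : ℝ) * (η / m) ≤ m * (η / m) := by gcongr
        _ = η := by field_simp
    by_contra hc
    rw [not_le] at hc
    apply hvS
    refine ⟨j * (η / m), hsmall.trans q1, by linarith, lt_of_le_of_lt ?_ hc⟩
    exact mul_le_mul_of_nonneg_left q2 (by positivity)
  have hP := pcn_Th_multi (H := H) hv0 hη0 hmn (by positivity : 0 ≤ 1 / v ^ 5 * η)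
    (by rw [← hxd]; exact hxe) hT
  rw [← hxd] at hP
  have hP0 : (pcn n (n + y) : ℝ) ≤ pcn ⌊x⌋₊ ⌊x + H⌋₊ := by
    rw [hH]; exact pcn_real b1 b2
  obtain ⟨P, hPd⟩ : ∃ P : ℝ, P = (pcn n (n + y) : ℝ) := ⟨_, rfl⟩
  have hPnn : 0 ≤ P := by rw [hPd]; exact Nat.cast_nonneg _
  rw [← hPd] at hP0
  have e1 : 1 + 2 * (1 / v ^ 5 * η) * m / η ≤ 1 + 4 / v ^ 3 := by
    have q1 : 2 * (1 / v ^ 5 * η) * m / η = 2 * m / v ^ 5 := by field_simp
    rw [q1]
    have q2 : 2 * (m : ℝ) / v ^ 5 ≤ 4 / v ^ 3 := by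
      rw [div_le_div_iff₀ (by positivity) (by positivity)]
      have : v ^ 5 = v ^ 2 * v ^ 3 := by ring
      rw [this]
      have q3 := mul_le_mul_of_nonneg_right hm2 (pow_pos hv0 3).le
      linarith
    linarith
  have e2 : Real.exp (η / m) ≤ 1 + 2 / v ^ 2 := by
    have q1 : η / m ≤ 1 / v ^ 2 := by
      rw [div_le_div_iff₀ hm0 (by positivity)]
      have q3 := mul_le_mul_of_nonneg_right (by linarith : η ≤ 1) (pow_pos hv0 2).le
      linarith
    have q3 : 1 / v ^ 2 ≤ 1 / 2 := by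
      apply div_le_div_of_nonneg_left (by norm_num) (by norm_num)
      have q4 := pow_le_pow_left₀ (by norm_num) hv5 2
      linarith
    obtain ⟨t, ht⟩ : ∃ t : ℝ, t = 1 / v ^ 2 := ⟨_, rfl⟩
    rw [← ht] at q1 q3
    have ht0 : 0 < t := by rw [ht]; positivity
    have q4 : Real.exp (η / m) ≤ Real.exp t := Real.exp_le_exp.2 q1
    have q5 := Real.exp_bound_div_one_sub_of_interval ht0.le (by linarith)
    have q6 : 1 / (1 - t) ≤ 1 + 2 * t := by
      rw [div_le_iff₀ (by linarith)]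
      have q8 := mul_le_mul_of_nonneg_left q3 ht0.le
      linarith
    have q7 : 2 / v ^ 2 = 2 * t := by rw [ht]; ring
    rw [q7]
    linarith
  have e3 : (1 + 4 / v ^ 3) * (1 + 2 / v ^ 2) ≤ 1 + 3 / v ^ 2 := by
    have q1 : (1 + 4 / v ^ 3) * (1 + 2 / v ^ 2) = 1 + 2 / v ^ 2 + (4 / v + 8 / v ^ 3) / v ^ 2 := by
      field_simp
      ring
    rw [q1]
    have q2 : (4 / v + 8 / v ^ 3) / v ^ 2 ≤ 1 / v ^ 2 := by
      apply div_le_div_of_nonneg_right _ (by positivity)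
      have q3 : 4 / v ≤ 4 / 100 := div_le_div_of_nonneg_left (by norm_num) (by norm_num) hv5
      have q4 : 8 / v ^ 3 ≤ 8 / 100 := by
        apply div_le_div_of_nonneg_left (by norm_num) (by norm_num)
        calc (100 : ℝ) ≤ v := hv5
          _ = v ^ 1 := (pow_one v).symm
          _ ≤ v ^ 3 := pow_le_pow_right₀ (by linarith) (by norm_num)
      linarith
    have q5 : 3 / v ^ 2 = 2 / v ^ 2 + 1 / v ^ 2 := by ring
    linarith
  have g1 : P * v ≤ (1 + 3 / v ^ 2) * (y + 1) := by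
    calc P * v ≤ (pcn ⌊x⌋₊ ⌊x + H⌋₊ : ℝ) * v := mul_le_mul_of_nonneg_right hP0 hv0.le
      _ ≤ (1 + 2 * (1 / v ^ 5 * η) * m / η) * Real.exp (η / m) * H := hP
      _ ≤ ((1 + 4 / v ^ 3) * (1 + 2 / v ^ 2)) * H := by
          apply mul_le_mul_of_nonneg_right _ hH0.le
          exact mul_le_mul e1 e2 (Real.exp_pos _).le (by positivity)
      _ ≤ (1 + 3 / v ^ 2) * H := mul_le_mul_of_nonneg_right e3 hH0.le
      _ = _ := by rw [hH]
  -- the prime number theorem below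
  have hy1y : y1 ≤ y := by
    have : (y1 : ℝ) ≤ y := c2.trans hy1'
    exact_mod_cast this
  have g2 := hpi y hy1y
  have hy2r : (2 : ℝ) ≤ y := by
    have : 2 ≤ y := hy12.trans hy1y
    exact_mod_cast this
  have hly : 0 < Real.log y := Real.log_pos (by linarith)
  have hly2 : Real.log y ≤ L := by
    rw [hL]; exact Real.log_le_log (by linarith) hyn
  have g3 : (y : ℝ) / L + (y : ℝ) / (3 * L ^ 2) ≤ Nat.primeCounting y := by
    refine le_trans (add_le_add ?_ ?_) g2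
    · exact div_le_div_of_nonneg_left (by linarith) hly hly2
    · apply div_le_div_of_nonneg_left (by linarith) (by positivity)
      have : Real.log y ^ 2 ≤ L ^ 2 := pow_le_pow_left₀ hly.le hly2 _
      linarith
  have g4 : (Nat.primeCounting y : ℝ) ≤ P + M := by
    rw [hPd]
    exact_mod_cast hy3.le
  have g5 : ((y : ℝ) / L + (y : ℝ) / (3 * L ^ 2)) * v ≤ (1 + 3 / v ^ 2) * (y + 1) + M * L := by
    calc ((y : ℝ) / L + (y : ℝ) / (3 * L ^ 2)) * v ≤ (P + M) * v :=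
          mul_le_mul_of_nonneg_right (g3.trans g4) hv0.le
      _ = P * v + M * v := by ring
      _ ≤ _ := by
          apply add_le_add g1
          exact mul_le_mul_of_nonneg_left hvL (Nat.cast_nonneg _)
  have g6 : (y : ℝ) + (y : ℝ) / (3 * L) - 4 ≤ ((y : ℝ) / L + (y : ℝ) / (3 * L ^ 2)) * v := by
    have q1 : ((y : ℝ) / L + (y : ℝ) / (3 * L ^ 2)) * (L - 2 / n) ≤
        ((y : ℝ) / L + (y : ℝ) / (3 * L ^ 2)) * v := by gcongr
    refine le_trans ?_ q1
    have q2 : ((y : ℝ) / L + (y : ℝ) / (3 * L ^ 2)) * (L - 2 / n) =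
        (y : ℝ) + (y : ℝ) / (3 * L) - (y / n) * (2 / L + 2 / (3 * L ^ 2)) := by
      field_simp
    rw [q2]
    have q3 : (y : ℝ) / n ≤ 1 := by rw [div_le_one (by linarith)]; exact hyn
    have q4 : 2 / L ≤ 2 := by
      rw [div_le_iff₀ hL0]; linarith
    have q5 : 2 / (3 * L ^ 2) ≤ 2 := by
      rw [div_le_iff₀ (by positivity)]
      have : 1 ≤ L ^ 2 := one_le_pow₀ (by linarith)
      linarith
    have q6 : ((y : ℝ) / n) * (2 / L + 2 / (3 * L ^ 2)) ≤ 1 * (2 + 2) := by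
      apply mul_le_mul q3 (by linarith) (by positivity) (by norm_num)
    linarith
  have g7 : (1 + 3 / v ^ 2) * ((y : ℝ) + 1) ≤ y + 1 + 24 * y / L ^ 2 := by
    have q1 : 3 / v ^ 2 ≤ 12 / L ^ 2 := by
      rw [div_le_div_iff₀ (by positivity) (by positivity)]
      have q4 : L ≤ 2 * v := by linarith
      have q5 := pow_le_pow_left₀ hL0.le q4 2
      linarith
    have q2 : (3 / v ^ 2) * ((y : ℝ) + 1) ≤ 12 / L ^ 2 * (2 * y) := by
      apply mul_le_mul q1 (by linarith) (by linarith) (by positivity)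
    have q3 : 12 / L ^ 2 * (2 * (y : ℝ)) = 24 * y / L ^ 2 := by ring
    rw [← q3]
    linarith
  have g8 : 24 * (y : ℝ) / L ^ 2 ≤ y / (6 * L) := by
    rw [div_le_div_iff₀ (by positivity) (by positivity)]
    have : 24 * (y : ℝ) * (6 * L) = 144 * (y * L) := by ring
    rw [this]
    have h9 : 144 * (y * L) ≤ L * (y * L) := by
      apply mul_le_mul_of_nonneg_right (by linarith) (by positivity)
    linarith
  have g9 : (y : ℝ) / (3 * L) = y / (6 * L) + y / (6 * L) := by field_simp; norm_num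
  have g10 : (y : ℝ) / (6 * L) ≤ 5 + M * L := by linarith
  rw [div_le_iff₀ (by positivity)] at g10
  have g11 : (5 + (M : ℝ) * L) * (6 * L) ≤ (30 + 6 * M) * (L + 3) ^ 2 := by
    have hM : (0 : ℝ) ≤ M := Nat.cast_nonneg M
    have q2 : L ^ 2 ≤ (L + 3) ^ 2 := pow_le_pow_left₀ hL0.le (by linarith) _
    have q1 : L ≤ (L + 3) ^ 2 := by
      have q3 := mul_le_mul_of_nonneg_left (by linarith : 1 ≤ L) hL0.le
      linarith
    have q4 := mul_le_mul_of_nonneg_left q2 hM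
    linarith
  have g12 : (30 + 6 * (M : ℝ)) * (L + 3) ^ 2 ≤ 1 / 2 * Real.exp (L / 2) := by
    have e4 : Real.exp (-(1 / 2 * L)) * Real.exp (L / 2) = 1 := by
      rw [← Real.exp_add]
      have : -(1 / 2 * L) + L / 2 = 0 := by ring
      rw [this, Real.exp_zero]
    have e5 := mul_le_mul_of_nonneg_right c3 (Real.exp_pos (L / 2)).le
    have e6 : (30 + 6 * (M : ℝ)) * (L + 3) ^ 2 * Real.exp (-(1 / 2 * L)) * Real.exp (L / 2) =
        (30 + 6 * (M : ℝ)) * (L + 3) ^ 2 := by rw [mul_assoc, e4, mul_one]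
    linarith
  have := Real.exp_pos (L / 2)
  linarith

end Pool.Agent.U762.HU
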