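import Pool.Agent.U762.HU.Fj
import Pool.Agent.U762.GP.Big
import Pool.Agent.N490.OW.KT
import Pool.Agent.N455.OW.PV

/-! Smoothed prime sums at the scale `e^(-cY)` in mean, and averages against the Fejer kernel. -/

set_option autoImplicit false

namespace Pool.Agent.U762.HU

open Finset Filter Topology MeasureTheory Set
open Pool.Agent.W66 (TT tri)
open Pool.Agent.U762.GP (TT_cont tri_int1 tri_ii tri_int_zero)
open Pool.Agent.H376R2.MR (Fj Fj_nonneg)

lemma l1_l2 {F : ℝ → ℝ} (hF : Continuous F) {Z W : ℝ} (hW : 0 < W)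
    (h : ∫ z in Z..(Z + 1), (F z) ^ 2 ≤ 1 / W ^ 2) : ∫ z in Z..(Z + 1), |F z| ≤ 1 / W := by
  have h1 : ∫ z in Z..(Z + 1), |F z| ≤ ∫ z in Z..(Z + 1), (W / 2 * (F z) ^ 2 + 1 / (2 * W)) := by
    apply intervalIntegral.integral_mono_on (by linarith) (hF.abs.intervalIntegrable _ _)
    · apply Continuous.intervalIntegrable
      fun_prop
    · intro x _
      have h2 : 0 ≤ (W * |F x| - 1) ^ 2 := sq_nonneg _
      have h3 : (W * |F x| - 1) ^ 2 = W ^ 2 * (F x) ^ 2 - 2 * W * |F x| + 1 := by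
        rw [← sq_abs (F x)]
        ring
      rw [h3] at h2
      have h4 : W / 2 * (F x) ^ 2 + 1 / (2 * W) - |F x| =
          (W ^ 2 * (F x) ^ 2 - 2 * W * |F x| + 1) / (2 * W) := by
        field_simp
        ring
      have h5 : 0 ≤ (W ^ 2 * (F x) ^ 2 - 2 * W * |F x| + 1) / (2 * W) := by positivity
      linarith
  have h2 : ∫ z in Z..(Z + 1), (W / 2 * (F z) ^ 2 + 1 / (2 * W)) =
      W / 2 * (∫ z in Z..(Z + 1), (F z) ^ 2) + 1 / (2 * W) := by
    rw [intervalIntegral.integral_add, intervalIntegral.integral_const_mul,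
      intervalIntegral.integral_const]
    · simp
    · apply Continuous.intervalIntegrable
      fun_prop
    · exact intervalIntegrable_const
  rw [h2] at h1
  have h3 : W / 2 * (∫ z in Z..(Z + 1), (F z) ^ 2) ≤ W / 2 * (1 / W ^ 2) :=
    mul_le_mul_of_nonneg_left h (by positivity)
  have h4 : W / 2 * (1 / W ^ 2) + 1 / (2 * W) = 1 / W := by field_simp; norm_num
  linarith

/-- the smoothed prime sums in `L^1` -/
theorem tt_L1 (B : ℕ) : ∃ c Y₀ : ℝ, 0 < c ∧ c ≤ 1 / 10 ∧ ∀ Y : ℝ, Y₀ ≤ Y → ∀ N : ℕ,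
    Real.exp (Y + 3) ≤ N →
    ∫ z in (Y - 1)..(Y + 1), |TT (Real.exp (-(c * Y))) N z - 1| ≤ 1 / Y ^ B := by
  obtain ⟨c0, Z0, hc0, hZ0, hKT⟩ := Pool.Agent.N490.OW.kt Pool.Agent.N455.OW.pv (2 * (B + 1))
  obtain ⟨c, hc⟩ : ∃ c : ℝ, c = min (c0 / 2) (1 / 10) := ⟨_, rfl⟩
  have hcp : 0 < c := by rw [hc]; exact lt_min (by linarith) (by norm_num)
  have hc1 : c ≤ c0 / 2 := by rw [hc]; exact min_le_left _ _
  have hc2 : c ≤ 1 / 10 := by rw [hc]; exact min_le_right _ _
  refine ⟨c, max (max (Z0 + 1) (1 / c ^ 2)) (2 ^ (B + 2)), hcp, hc2, fun Y hY N hN => ?_⟩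
  have hY1 : Z0 + 1 ≤ Y := ((le_max_left _ _).trans (le_max_left _ _)).trans hY
  have hY2 : 1 / c ^ 2 ≤ Y := ((le_max_right _ _).trans (le_max_left _ _)).trans hY
  have hY3 : (2 : ℝ) ^ (B + 2) ≤ Y := (le_max_right _ _).trans hY
  have hY4 : 2 ≤ Y := by linarith
  obtain ⟨h, hh⟩ : ∃ h : ℝ, h = Real.exp (-(c * Y)) := ⟨_, rfl⟩
  rw [← hh]
  have hcY : √(Y + 1) ≤ c * Y * 2 := by
    rw [Real.sqrt_le_left (by positivity)]
    rw [div_le_iff₀ (by positivity)] at hY2
    nlinarith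
  have hsq : √Y ≤ c * Y := by
    rw [Real.sqrt_le_left (by positivity)]
    rw [div_le_iff₀ (by positivity)] at hY2
    have : c ^ 2 * Y * Y ≥ 1 * Y := by
      apply mul_le_mul_of_nonneg_right _ (by linarith)
      linarith
    nlinarith
  have hunit : ∀ Z : ℝ, Y - 1 ≤ Z → Z ≤ Y → ∫ z in Z..(Z + 1), |TT h N z - 1| ≤
      1 / (Y - 1) ^ (B + 1) := by
    intro Z hZ1 hZ2
    have h1 := hKT Z (c * Y) h (by linarith) hh ((Real.sqrt_le_sqrt hZ2).trans hsq) (by
      have e1 : c * Y ≤ c0 / 2 * Y := mul_le_mul_of_nonneg_right hc1 (by linarith)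
      have e2 : c0 / 2 * Y ≤ c0 * (Y - 1) := by nlinarith
      have e3 : c0 * (Y - 1) ≤ c0 * Z := mul_le_mul_of_nonneg_left hZ1 hc0.le
      linarith) N (le_trans (Real.exp_le_exp.2 (by linarith)) hN)
    have hZ0' : 0 < Z := by linarith
    have h2 := l1_l2 (F := fun z => TT h N z - 1) (W := Z ^ (B + 1))
      ((TT_cont h N).sub continuous_const) (by positivity) (by
        rw [← pow_mul]
        have e : (B + 1) * 2 = 2 * (B + 1) := by ring
        rw [e]
        exact h1)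
    refine h2.trans ?_
    apply one_div_le_one_div_of_le
    · have : 0 < Y - 1 := by linarith
      positivity
    · exact pow_le_pow_left₀ (by linarith) hZ1 _
  have hFi : ∀ a b, IntervalIntegrable (fun z => |TT h N z - 1|) volume a b := fun a b =>
    ((TT_cont h N).sub continuous_const).abs.intervalIntegrable a b
  have h1 := hunit (Y - 1) le_rfl (by linarith)
  have h2 := hunit Y (by linarith) le_rfl
  rw [sub_add_cancel] at h1
  have h3 := intervalIntegral.integral_add_adjacent_intervals (hFi (Y - 1) Y) (hFi Y (Y + 1))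
  have h4 : 2 / (Y - 1) ^ (B + 1) ≤ 1 / Y ^ B := by
    have hY0 : 0 < Y - 1 := by linarith
    rw [div_le_div_iff₀ (by positivity) (by positivity)]
    have e1 : (Y / 2) ^ (B + 1) ≤ (Y - 1) ^ (B + 1) := pow_le_pow_left₀ (by linarith) (by linarith) _
    have e2 : (Y / 2) ^ (B + 1) = Y ^ B * (Y / 2 ^ (B + 1)) := by
      rw [div_pow, pow_succ Y B]; ring
    have e3 : 2 ≤ Y / 2 ^ (B + 1) := by
      rw [le_div_iff₀ (by positivity)]
      calc (2 : ℝ) * 2 ^ (B + 1) = 2 ^ (B + 2) := by ring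
        _ ≤ Y := hY3
    have e4 : 2 * Y ^ B ≤ Y ^ B * (Y / 2 ^ (B + 1)) := by
      rw [mul_comm]
      gcongr
    linarith
  have e5 : 2 / (Y - 1) ^ (B + 1) = 1 / (Y - 1) ^ (B + 1) + 1 / (Y - 1) ^ (B + 1) := by ring
  linarith

/-- the mean of the convolution with the Fejer kernel -/
theorem conv_int {F : ℝ → ℝ} (hF : Continuous F) (h0 : ∀ x, 0 ≤ F x) {K : ℕ} (hK : 1 ≤ K) (Y : ℝ) :
    ∫ u in (Y - 0.39)..(Y + 0.39), ∫ t in (Y - 1)..(Y + 1), Fj K (t - u) * F t ≤
      2 * Real.pi * ∫ t in (Y - 1)..(Y + 1), F t := by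
  have hswap : ∫ u in (Y - 0.39)..(Y + 0.39), ∫ t in (Y - 1)..(Y + 1), Fj K (t - u) * F t =
      ∫ t in (Y - 1)..(Y + 1), ∫ u in (Y - 0.39)..(Y + 0.39), Fj K (t - u) * F t := by
    apply intervalIntegral_intervalIntegral_swap
    have hc : Continuous (Function.uncurry fun u t : ℝ => Fj K (t - u) * F t) := by
      have := Fj_cont K
      have h1 : Continuous fun p : ℝ × ℝ => Fj K (p.2 - p.1) * F p.2 := by fun_prop
      exact h1
    have hcomp : IsCompact (uIcc (Y - 0.39) (Y + 0.39) ×ˢ uIcc (Y - 1) (Y + 1)) :=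
      isCompact_uIcc.prod isCompact_uIcc
    exact (hc.continuousOn.integrableOn_compact hcomp).mono_set
      (prod_mono uIoc_subset_uIcc uIoc_subset_uIcc)
  rw [hswap]
  have hpi3 := Real.pi_gt_three
  have hin : ∀ t ∈ Icc (Y - 1) (Y + 1), ∫ u in (Y - 0.39)..(Y + 0.39), Fj K (t - u) * F t ≤
      2 * Real.pi * F t := by
    intro t ht
    rw [intervalIntegral.integral_mul_const]
    apply mul_le_mul_of_nonneg_right _ (h0 t)
    rw [intervalIntegral.integral_comp_sub_left (fun x => Fj K x)]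
    rw [← Fj_int hK]
    apply intervalIntegral.integral_mono_interval
    · linarith [ht.1, ht.2]
    · linarith
    · linarith [ht.1, ht.2]
    · exact Filter.Eventually.of_forall fun x => Fj_nonneg K x
    · exact Fj_ii K _ _
  have h2 : ∫ t in (Y - 1)..(Y + 1), ∫ u in (Y - 0.39)..(Y + 0.39), Fj K (t - u) * F t ≤
      ∫ t in (Y - 1)..(Y + 1), 2 * Real.pi * F t := by
    apply intervalIntegral.integral_mono_on (by linarith)
    · apply Continuous.intervalIntegrable
      have hcf : Continuous (fun x => Fj K x) := Fj_cont K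
      exact intervalIntegral.continuous_parametric_intervalIntegral_of_continuous'
        (f := fun t u => Fj K (t - u) * F t) (by
          have h1 : Continuous fun p : ℝ × ℝ => Fj K (p.1 - p.2) * F p.1 := by fun_prop
          exact h1) _ _
    · exact (hF.const_mul _).intervalIntegrable _ _
    · exact hin
  rwa [intervalIntegral.integral_const_mul] at h2

end Pool.Agent.U762.HU
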