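import Pool.Agent.U762.HU.K
import Pool.Agent.U762.SH.Met

/-! The second Hardy-Littlewood conjecture at almost all `x`, for all `y ≤ x`. -/

set_option autoImplicit false

namespace Pool.Agent.U762.HU

open Finset Filter Topology
open Pool.Agent.R516 (pcn St_U)
open Pool.Agent.U762.SH (Ex ExH main1 main2 all_X ev_log_pow tendsto_log_nat)

/-- some `y` between `y0` and `n` has `π(n + y) > π(n) + π(y) - M` -/
def Cl (M y0 n : ℕ) : Prop := ∃ y : ℕ, y0 ≤ y ∧ y ≤ n ∧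
  Nat.primeCounting n + Nat.primeCounting y < Nat.primeCounting (n + y) + M

lemma cl_pcn {M n y : ℕ} (h : Nat.primeCounting n + Nat.primeCounting y <
    Nat.primeCounting (n + y) + M) : Nat.primeCounting y < pcn n (n + y) + M := by
  have h1 := Pool.Agent.U762.GP.pcn_sub (a := n) (b := n + y) (by omega)
  have h2 : (pcn n (n + y) : ℝ) + Nat.primeCounting n = Nat.primeCounting (n + y) := by linarith
  have h3 : pcn n (n + y) + Nat.primeCounting n = Nat.primeCounting (n + y) := by exact_mod_cast h2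
  omega

/-- the three ranges of `y` -/
lemma cases3 {κ : ℝ} {M y0 n : ℕ} (hn : 1 ≤ n) (h : Cl M y0 n) :
    (∃ y : ℕ, y0 ≤ y ∧ (y : ℝ) ≤ (n : ℝ) ^ (1 / 5 : ℝ) ∧ Nat.primeCounting y < pcn n (n + y) + M) ∨
      Q3 κ M n ∨ Q4 κ M n := by
  obtain ⟨y, h1, h2, h3⟩ := h
  have h4 := cl_pcn h3
  rcases le_total (y : ℝ) ((n : ℝ) ^ (1 / 5 : ℝ)) with h5 | h5
  · exact Or.inl ⟨y, h1, h5, h4⟩
  · rcases le_total (y : ℝ) ((n : ℝ) ^ (1 - κ)) with h6 | h6
    · exact Or.inr (Or.inl ⟨y, h5, h6, h4⟩)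
    · exact Or.inr (Or.inr ⟨y, h6, h2, h4⟩)

open Classical in
theorem full (hU : St_U) (M A : ℕ) : ∃ y0 : ℕ, 2 ≤ y0 ∧ ∀ᶠ X : ℕ in atTop,
    (((Icc 1 X).filter (fun n => Cl M y0 n)).card : ℝ) ≤ X / (Real.log X) ^ A := by
  obtain ⟨κ, hκ, hκ1, h4⟩ := cnt4 A
  have h4M := h4 M inferInstance
  have h3 := cnt3 κ hκ hκ1 M A
  obtain ⟨w0, hw0, h1⟩ := main1 hU (49 / 50) (1 / 20) (by norm_num) (by norm_num) (by norm_num) (A + 1)
  have hpi : Tendsto (fun m : ℕ => (Nat.primeCounting m : ℝ)) atTop atTop :=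
    tendsto_natCast_atTop_atTop.comp Nat.tendsto_primeCounting
  obtain ⟨m1, hm1⟩ := (hpi.eventually_ge_atTop (50 * (M : ℝ) + 1)).exists_forall_of_atTop
  obtain ⟨y0, hy0⟩ : ∃ y0 : ℕ, y0 = max (max ⌈w0⌉₊ m1) 2 := ⟨_, rfl⟩
  have hy0m : m1 ≤ y0 := by rw [hy0]; exact (le_max_right _ _).trans (le_max_left _ _)
  have hy0w : w0 ≤ y0 := by
    refine (Nat.le_ceil w0).trans ?_
    rw [hy0]
    exact_mod_cast (le_max_left _ _).trans (le_max_left _ _)
  refine ⟨y0, by rw [hy0]; exact le_max_right _ _, ?_⟩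
  filter_upwards [h4M, h3, h1, tendsto_log_nat.eventually_ge_atTop 3] with X a1 a2 a3 a4
  have hsub : (Icc 1 X).filter (fun n => Cl M y0 n) ⊆
      (Icc 1 X).filter (fun n => Ex (49 / 50) (1 / 20) w0 n) ∪
        ((Icc 1 X).filter (Q3 κ M) ∪ (Icc 1 X).filter (Q4 κ M)) := by
    intro n hn
    rw [mem_filter, mem_Icc] at hn
    obtain ⟨⟨hn1, hnX⟩, hcl⟩ := hn
    rw [mem_union, mem_union, mem_filter, mem_filter, mem_filter, mem_Icc]
    rcases cases3 (κ := κ) hn1 hcl with h | h | h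
    · left
      refine ⟨⟨hn1, hnX⟩, ?_⟩
      obtain ⟨y, b1, b2, b3⟩ := h
      have hnr : (1 : ℝ) ≤ n := by exact_mod_cast hn1
      refine ⟨(y : ℝ), hy0w.trans (by exact_mod_cast b1), ?_, ?_⟩
      · calc (y : ℝ) ≤ (n : ℝ) ^ (1 / 5 : ℝ) := b2
          _ ≤ ((n : ℝ) + 1) ^ (1 / 5 : ℝ) := Real.rpow_le_rpow (by linarith) (by linarith) (by norm_num)
          _ ≤ ((n : ℝ) + 1) ^ (5 * (49 / 50) / 18 - 1 / 20 : ℝ) := by
              apply Real.rpow_le_rpow_of_exponent_le (by linarith)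
              norm_num
      · have e : ⌊((n : ℕ) : ℝ) + (y : ℕ)⌋₊ = n + y := by
          have : ((n : ℕ) : ℝ) + (y : ℕ) = ((n + y : ℕ) : ℝ) := by push_cast; ring
          rw [this, Nat.floor_natCast]
        rw [e, Nat.floor_natCast]
        have c1 := hm1 y (hy0m.trans b1)
        have c2 : (Nat.primeCounting y : ℝ) < (pcn n (n + y) : ℝ) + M := by exact_mod_cast b3
        have c3 : (pcn n (n + y) : ℝ) ≤ (pcn n (n + y + 1) : ℝ) := by
          exact_mod_cast Pool.Agent.U762.SH.pcn_mono (by omega)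
        linarith
    · right; left; exact ⟨⟨hn1, hnX⟩, h⟩
    · right; right; exact ⟨⟨hn1, hnX⟩, h⟩
  have hc : (((Icc 1 X).filter (fun n => Cl M y0 n)).card : ℝ) ≤
      (((Icc 1 X).filter (fun n => Ex (49 / 50) (1 / 20) w0 n)).card : ℝ) +
        ((((Icc 1 X).filter (Q3 κ M)).card : ℝ) + (((Icc 1 X).filter (Q4 κ M)).card : ℝ)) := by
    have : ((Icc 1 X).filter (fun n => Cl M y0 n)).card ≤
        ((Icc 1 X).filter (fun n => Ex (49 / 50) (1 / 20) w0 n)).card +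
        (((Icc 1 X).filter (Q3 κ M)).card + ((Icc 1 X).filter (Q4 κ M)).card) :=
      (card_le_card hsub).trans ((card_union_le _ _).trans
        (Nat.add_le_add_left (card_union_le _ _) _))
    exact_mod_cast this
  obtain ⟨L, hLd⟩ : ∃ L : ℝ, L = Real.log X := ⟨_, rfl⟩
  rw [← hLd] at a1 a2 a3 a4 ⊢
  have hX0 : (0 : ℝ) ≤ X := Nat.cast_nonneg X
  have hL0 : 0 < L := by linarith
  calc (((Icc 1 X).filter (fun n => Cl M y0 n)).card : ℝ)
      ≤ X / L ^ (A + 1) + (X / L ^ (A + 1) + X / L ^ (A + 1)) := by linarith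
    _ = 3 / L * (X / L ^ A) := by rw [pow_succ]; field_simp; norm_num
    _ ≤ 1 * (X / L ^ A) := by
        apply mul_le_mul_of_nonneg_right _ (by positivity)
        rw [div_le_one hL0]; exact a4
    _ = X / L ^ A := one_mul _

open Classical in
theorem full2 (hU : St_U) : ∃ K : ℝ, 0 < K ∧ ∀ X : ℕ, 2 ≤ X →
    (((Icc 1 X).filter (fun n => Cl 0 2 n)).card : ℝ) ≤ K * X / (Real.log X) ^ 20 := by
  obtain ⟨κ, hκ, hκ1, h4⟩ := cnt4 20
  have h4M := h4 0 inferInstance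
  have h3 := cnt3 κ hκ hκ1 0 20
  obtain ⟨K, hK, h1⟩ := main2 hU (1 / 20) (by norm_num)
  have hev : ∀ᶠ X : ℕ in atTop, (((Icc 1 X).filter (fun n => Q3 κ 0 n ∨ Q4 κ 0 n)).card : ℝ) ≤
      X / (Real.log X) ^ 20 := by
    filter_upwards [h4M, h3, tendsto_log_nat.eventually_ge_atTop 3] with X a1 a2 a4
    have hsub : (Icc 1 X).filter (fun n => Q3 κ 0 n ∨ Q4 κ 0 n) ⊆
        ((Icc 1 X).filter (Q3 κ 0) ∪ (Icc 1 X).filter (Q4 κ 0)) := by
      intro n hn
      rw [mem_filter] at hn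
      rw [mem_union, mem_filter, mem_filter]
      rcases hn.2 with h | h
      · exact Or.inl ⟨hn.1, h⟩
      · exact Or.inr ⟨hn.1, h⟩
    have hc : (((Icc 1 X).filter (fun n => Q3 κ 0 n ∨ Q4 κ 0 n)).card : ℝ) ≤
        (((Icc 1 X).filter (Q3 κ 0)).card : ℝ) + (((Icc 1 X).filter (Q4 κ 0)).card : ℝ) := by
      exact_mod_cast (card_le_card hsub).trans (card_union_le _ _)
    obtain ⟨L, hLd⟩ : ∃ L : ℝ, L = Real.log X := ⟨_, rfl⟩
    rw [← hLd] at a1 a2 a4 ⊢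
    have hX0 : (0 : ℝ) ≤ X := Nat.cast_nonneg X
    have hL0 : 0 < L := by linarith
    calc (((Icc 1 X).filter (fun n => Q3 κ 0 n ∨ Q4 κ 0 n)).card : ℝ)
        ≤ X / L ^ (20 + 1) + X / L ^ (20 + 1) := by linarith
      _ = 2 / L * (X / L ^ 20) := by rw [pow_succ]; field_simp; norm_num
      _ ≤ 1 * (X / L ^ 20) := by
          apply mul_le_mul_of_nonneg_right _ (by positivity)
          rw [div_le_one hL0]; linarith
      _ = X / L ^ 20 := one_mul _
  obtain ⟨K2, hK2, h2⟩ := all_X hev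
  refine ⟨K + K2, by linarith, fun X hX => ?_⟩
  have hsub : (Icc 1 X).filter (fun n => Cl 0 2 n) ⊆
      (Icc 1 X).filter (fun n => ExH (1 / 20) n) ∪
        (Icc 1 X).filter (fun n => Q3 κ 0 n ∨ Q4 κ 0 n) := by
    intro n hn
    rw [mem_filter, mem_Icc] at hn
    obtain ⟨⟨hn1, hnX⟩, hcl⟩ := hn
    rw [mem_union, mem_filter, mem_filter, mem_Icc]
    rcases cases3 (κ := κ) hn1 hcl with h | h
    · left
      refine ⟨⟨hn1, hnX⟩, ?_⟩
      obtain ⟨y, b1, b2, b3⟩ := h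
      have hnr : (1 : ℝ) ≤ n := by exact_mod_cast hn1
      refine ⟨y, b1, ?_, by simpa using b3⟩
      calc (y : ℝ) ≤ (n : ℝ) ^ (1 / 5 : ℝ) := b2
        _ ≤ ((n : ℝ) + 1) ^ (1 / 5 : ℝ) := Real.rpow_le_rpow (by linarith) (by linarith) (by norm_num)
        _ ≤ ((n : ℝ) + 1) ^ (5 / 18 - 1 / 20 : ℝ) := by
            apply Real.rpow_le_rpow_of_exponent_le (by linarith)
            norm_num
    · right; exact ⟨⟨hn1, hnX⟩, h⟩
  have hc : (((Icc 1 X).filter (fun n => Cl 0 2 n)).card : ℝ) ≤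
      (((Icc 1 X).filter (fun n => ExH (1 / 20) n)).card : ℝ) +
        (((Icc 1 X).filter (fun n => Q3 κ 0 n ∨ Q4 κ 0 n)).card : ℝ) := by
    exact_mod_cast (card_le_card hsub).trans (card_union_le _ _)
  have e : (K + K2) * (X : ℝ) / (Real.log X) ^ 20 = K * X / (Real.log X) ^ 20 +
    K2 * X / (Real.log X) ^ 20 := by ring
  rw [e]
  exact hc.trans (add_le_add (h1 X hX) (h2 X hX))

end Pool.Agent.U762.HU
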