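import Pool.Agent.Q278.KT.Asm
import Pool.Agent.Q278.KT.Fin

/-! Few points with a large exponential sum over primes (the counting part of the proof of
`Pool.Agent.Q278.KT.t_MAIN2`, for arbitrary points, thresholds and smoothing parameters). -/

set_option autoImplicit false

namespace Pool.Agent.U762.HU

open Finset Filter Topology Pool.Agent.H376R2.MR Pool.Agent.Q240.KS Pool.Agent.Q278.KS
  Pool.Agent.Q278.KT

/-- the exponential sum -/
noncomputable def ES (ε₃ L₀ Y h u : ℝ) : ℂ :=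
  ∑ k ∈ (FK ⌈L₀ * Real.exp Y / h⌉₊).filter (fun k => (⌈Real.exp (ε₃ * Y)⌉₊ : ℤ) ≤ |k|),
    ((mK (⌈Real.exp (ε₃ * Y)⌉₊ ^ 3) ⌈L₀ * Real.exp Y / h⌉₊ k : ℝ) : ℂ) *
      Complex.exp (((k : ℝ) * u : ℝ) * Complex.I) * AA (zY Y) Y k

theorem mainX (hCLS : S_CLS) (hNEAR : S_NEAR2) (hLSD : S_LSD) (hT : S_TRI)
    (hDUA : S_DUA) : ∀ lam0 e0 : ℝ, 0 < lam0 → lam0 ≤ 13 / 16 → FAR2 lam0 e0 →
    ∀ ε₃ c₃ L₀ : ℝ, 0 < ε₃ → ε₃ ≤ 1 / 100 → 0 < c₃ → 1 ≤ L₀ →
    ∃ η Y₀ : ℝ, 0 < η ∧ ∀ Y : ℝ, Y₀ ≤ Y → ∀ h : ℝ,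
      Real.exp ((1 - lam0 - η) * Y) ≤ h → h ≤ Real.exp (0.9 * Y) → ∀ U : Finset ℝ,
      (∀ y ∈ U, 0 < y ∧ |Real.log y - Y| ≤ 2 / 5 ∧ c₃ ≤ ‖ES ε₃ L₀ Y h (Real.log (y + h / 2))‖) →
      (∀ y ∈ U, ∀ y' ∈ U, y ≠ y' → h ≤ |y - y'|) → (U.card : ℝ) ≤ Real.exp ((e0 - η) * Y) := by
  classical
  intro lam0 e0 hl0 hl1 hFAR ε₃ c₃ L₀ hε₃pos hε₃1 hc₃ hL₀
  obtain ⟨ε₀, hε₀, hε₀1, HN⟩ := hNEAR ε₃ hε₃pos
  obtain ⟨YN, HN⟩ := HN 13
  obtain ⟨ε', η₁, YF, hε', hε'0, hη₁, HF⟩ := hFAR (ε₃ / 2) (ε₀ / 2) (by positivity) (by positivity) (by linarith)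
  set η : ℝ := min (η₁ / 64) (1 / 1000) with hη
  have hηpos : 0 < η := lt_min (by positivity) (by norm_num)
  have hη64 : η ≤ η₁ / 64 := min_le_left _ _
  have hη8 : η ≤ η₁ / 8 := by linarith
  have hη1 : η ≤ 1 / 1000 := min_le_right _ _
  obtain ⟨CD, YD, hCD, HD⟩ := hDUA (η₁ / 64) (by positivity)
  obtain ⟨C6, hC6, HL⟩ := hLSD
  set G : ℕ := ⌈3 / ε'⌉₊ with hG
  have hGpos : 3 ≤ ε' * G := by
    have := Nat.le_ceil (3 / ε')
    rw [div_le_iff₀ hε'] at this
    linarith
  set A : ℝ := 21 ^ 10 * 2 * ((G : ℝ) + 1) ^ 10 with hA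
  have hA0 : 0 < A := by positivity
  have hev : ∀ᶠ Y : ℝ in atTop, 100 ≤ Y ∧ YN ≤ Y ∧ YF ≤ Y ∧ A ≤ Y ∧ 31 / c₃ * A ≤ Y ∧
      2 * (1 + 50 * Y) ^ 0 ≤ Real.exp (ε₃ / 2 * Y) ∧ 8 * (1 + 50 * Y) ^ 0 ≤ Real.exp (0.07 * Y) ∧
      2 * L₀ * (1 + 50 * Y) ^ 0 ≤ Real.exp (0.005 * Y) ∧ 2 * L₀ * (1 + 50 * Y) ^ 0 ≤ Real.exp (η₁ / 2 * Y) ∧
      2 * (1 + 50 * Y) ^ 22 ≤ Real.exp (1 * Y) ∧ 1 * (1 + 50 * Y) ^ 22 ≤ Real.exp (η₁ / 2 * Y) ∧
      C6 * (2 * L₀ + 3) * (1 + 50 * Y) ^ 44 ≤ Real.exp (3 * η₁ / 8 * Y) ∧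
      1 * (1 + 50 * Y) ^ 12 ≤ Real.exp (η₁ / 8 * Y) ∧ YD ≤ Y ∧ 2 * CD * (1 + 50 * Y) ^ 44 ≤ Real.exp (η₁ / 2 * Y) ∧
      4 * CD * (1 + 50 * Y) ^ 44 ≤ Real.exp (η₁ / 32 * Y) ∧ 2 * L₀ * (1 + 50 * Y) ^ 0 ≤ Real.exp (η * Y) := by
    refine (eventually_ge_atTop 100).and ((eventually_ge_atTop YN).and ((eventually_ge_atTop YF).and
      ((eventually_ge_atTop A).and
      ((eventually_ge_atTop (31 / c₃ * A)).and ((ev_poly' _ (by norm_num) 0 (by positivity)).and
      ((ev_poly' _ (by norm_num) 0 (by norm_num)).and ((ev_poly' _ (by linarith) 0 (by norm_num)).and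
      ((ev_poly' _ (by linarith) 0 (by positivity)).and ((ev_poly' _ (by norm_num) 22 (by norm_num)).and
      ((ev_poly' _ (by norm_num) 22 (by positivity)).and ((ev_poly' _ (by positivity) 44 (by positivity)).and
      ((ev_poly' _ (by norm_num) 12 (by positivity)).and ((eventually_ge_atTop YD).and
      ((ev_poly' _ (by positivity) 44 (by positivity)).and ((ev_poly' _ (by positivity) 44 (by positivity)).and
      (ev_poly' _ (by positivity) 0 hηpos))))))))))))))))
  obtain ⟨Y₀, hY₀⟩ := eventually_atTop.1 hev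
  refine ⟨η, Y₀, hηpos, ?_⟩
  intro Y hYY h hh1 hh2 U hU hUsep
  obtain ⟨hY, kN, kF, kA, kA', k1, k2, k3, k4, k5, k6, k7, k8, kD, k9, k10, k11⟩ := hY₀ Y hYY
  simp only [pow_zero, mul_one, one_mul] at k1 k2 k3 k4 k5 k6 k8 k11
  have hYpos : 0 < Y := by linarith
  have hh0 : 0 < h := lt_of_lt_of_le (Real.exp_pos _) hh1
  -- the parameters
  set K₀ : ℕ := ⌈Real.exp (ε₃ * Y)⌉₊ with hK₀
  set K : ℕ := ⌈L₀ * Real.exp Y / h⌉₊ with hK
  set s : ℝ := ε' * Y with hs
  have hs0 : 0 ≤ s := by positivity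
  have hK₀1 : Real.exp (ε₃ * Y) ≤ K₀ := Nat.le_ceil _
  have hK₀2 : (K₀ : ℝ) ≤ 2 * Real.exp (ε₃ * Y) := by
    have h1 := Nat.ceil_lt_add_one (Real.exp_pos (ε₃ * Y)).le
    have h2 : 1 ≤ Real.exp (ε₃ * Y) := by rw [Real.one_le_exp_iff]; positivity
    rw [← hK₀] at h1
    linarith
  have hK₀pos : 1 ≤ K₀ := by
    rw [hK₀, Nat.one_le_ceil_iff]; exact Real.exp_pos _
  have hK1 : L₀ * Real.exp Y / h ≤ K := Nat.le_ceil _
  have hdiv : Real.exp Y / h ≤ Real.exp ((lam0 + η) * Y) := by
    rw [div_le_iff₀ hh0]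
    calc Real.exp Y = Real.exp ((lam0 + η) * Y) * Real.exp ((1 - lam0 - η) * Y) := by
          rw [← Real.exp_add]; congr 1; ring
      _ ≤ Real.exp ((lam0 + η) * Y) * h := by gcongr
  have hdiv2 : Real.exp (0.1 * Y) ≤ Real.exp Y / h := by
    rw [le_div_iff₀ hh0]
    calc Real.exp (0.1 * Y) * h ≤ Real.exp (0.1 * Y) * Real.exp (0.9 * Y) := by gcongr
      _ = Real.exp Y := by rw [← Real.exp_add]; congr 1; ring
  have hK2 : (K : ℝ) ≤ 2 * L₀ * Real.exp ((lam0 + η) * Y) := by
    have h1 := Nat.ceil_lt_add_one (a := L₀ * Real.exp Y / h) (by positivity)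
    rw [← hK, mul_div_assoc] at h1
    have h2 : L₀ * (Real.exp Y / h) ≤ L₀ * Real.exp ((lam0 + η) * Y) := by gcongr
    have h3 : 1 ≤ Real.exp ((lam0 + η) * Y) := by rw [Real.one_le_exp_iff]; positivity
    have h4 := lemA hL₀ h3
    linarith
  have hK3 : (K : ℝ) ≤ Real.exp ((lam0 + η₁) * Y) := by
    refine hK2.trans ?_
    calc 2 * L₀ * Real.exp ((lam0 + η) * Y) ≤ Real.exp (η₁ / 2 * Y) * Real.exp ((lam0 + η) * Y) := by gcongr
      _ = Real.exp ((η₁ / 2 + lam0 + η) * Y) := by rw [← Real.exp_add]; congr 1; ring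
      _ ≤ Real.exp ((lam0 + η₁) * Y) := by
        apply Real.exp_le_exp.2; apply mul_le_mul_of_nonneg_right _ hYpos.le; linarith
  have hK4 : (K : ℝ) ≤ Real.exp (0.82 * Y) := by
    refine hK2.trans ?_
    calc 2 * L₀ * Real.exp ((lam0 + η) * Y) ≤ Real.exp (0.005 * Y) * Real.exp ((lam0 + η) * Y) := by gcongr
      _ = Real.exp ((0.005 + lam0 + η) * Y) := by rw [← Real.exp_add]; congr 1; ring
      _ ≤ Real.exp (0.82 * Y) := by
        apply Real.exp_le_exp.2; apply mul_le_mul_of_nonneg_right _ hYpos.le; norm_num at *; linarith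
  have hKK : K₀ ^ 3 ≤ K := by
    have h1 : ((K₀ : ℝ)) ^ 3 ≤ K := by
      calc ((K₀ : ℝ)) ^ 3 ≤ (2 * Real.exp (ε₃ * Y)) ^ 3 := by gcongr
        _ = 8 * Real.exp (3 * ε₃ * Y) := by
          rw [mul_pow, ← Real.exp_nat_mul]; congr 1
          · norm_num
          · congr 1; push_cast; ring
        _ ≤ Real.exp (0.07 * Y) * Real.exp (0.03 * Y) := by
          gcongr
          norm_num; linarith
        _ = Real.exp (0.1 * Y) := by rw [← Real.exp_add]; congr 1; ring
        _ ≤ Real.exp Y / h := hdiv2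
        _ ≤ L₀ * Real.exp Y / h := by
          rw [mul_div_assoc]
          have : 0 ≤ Real.exp Y / h := by positivity
          exact le_mul_of_one_le_left this hL₀
        _ ≤ K := hK1
    exact_mod_cast h1
  have hKpos : 1 ≤ K := le_trans (Nat.one_le_pow _ _ hK₀pos) hKK
  have hK0R : (0:ℝ) < K := by exact_mod_cast hKpos
  set m : ℤ → ℝ := mK (K₀ ^ 3) K with hm
  have hmb : ∀ k, |m k| ≤ 1 := fun k => mK_bd (Nat.one_le_pow _ _ hK₀pos) hKK k
  -- the number of classes
  have hlog : ((Nat.log 2 K : ℕ) : ℝ) + 1 ≤ 2 * Y := lemB2 hY hKpos hK4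
  set Q : ℝ := ((DY Y).card : ℝ) * ((Nat.log 2 K : ℕ) + 1) * ((G : ℝ) + 1) ^ 10 with hQ
  have hQ0 : 0 ≤ Q := by positivity
  have hQ1 : Q ≤ A * Y ^ 11 := by
    calc Q ≤ (21 * Y) ^ 10 * (2 * Y) * ((G : ℝ) + 1) ^ 10 := by
          rw [hQ]
          gcongr
          exact card_DY (by linarith)
      _ = A * Y ^ 11 := by rw [hA]; ring
  have hQ2 : Q ≤ Y ^ 12 := by
    calc Q ≤ A * Y ^ 11 := hQ1
      _ ≤ Y * Y ^ 11 := by gcongr
      _ = Y ^ 12 := by ring
  set ρ : ℝ := 1 / Y ^ 12 with hρ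
  have hρ0 : 0 < ρ := by positivity
  have h50 : 50 * Y ≤ 1 + 50 * Y := by linarith
  have hY50 : Y ^ 12 ≤ (50 * Y) ^ 12 := by gcongr; linarith
  -- one class
  have key : ∀ d ∈ DY Y, ∀ r : ℕ, ∀ g ∈ Fintype.piFinset (fun _ : Fin 10 => range (G + 1)),
      ((U.filter (fun y => ρ ≤ ‖SS Y G s K₀ K r d g m (Real.log (y + h / 2))‖)).card : ℝ) ≤
        Real.exp ((e0 - η₁ / 4) * Y) := by
    intro d hd r g hg
    rw [Fintype.mem_piFinset] at hg
    set U' := U.filter (fun y => ρ ≤ ‖SS Y G s K₀ K r d g m (Real.log (y + h / 2))‖) with hU'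
    rcases U'.eq_empty_or_nonempty with he | ⟨y₁, hy₁⟩
    · rw [he]; simp; positivity
    have hy₁' : ρ ≤ ‖SS Y G s K₀ K r d g m (Real.log (y₁ + h / 2))‖ := (mem_filter.1 hy₁).2
    set L := LS Y G s K₀ K r d g with hL
    set S : ℝ := ∑ i, (g i : ℝ) with hS
    have hSs : S * s = (∑ i, ε' * (g i : ℝ)) * Y := by
      rw [hS, hs, ← Finset.mul_sum]; ring
    set κ : Fin 10 → ℝ := fun i => ε' * (g i : ℝ) with hκ
    set kap : ℝ := ∑ i, κ i with hkap
    have hkapS : S * s = kap * Y := by rw [hSs]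
    have hκ0 : ∀ i, 0 ≤ κ i := fun i => by simp only [hκ]; positivity
    have hkle : ∀ i, κ i ≤ kap := fun i => Finset.single_le_sum (fun j _ => hκ0 j) (mem_univ i)
    have hk0 : 0 ≤ kap := Finset.sum_nonneg fun i _ => hκ0 i
    have hbd := SS_le' (s := s) (G := G) (K₀ := K₀) (K := K) (r := r) (g := g) hT (Real.log (y₁ + h / 2)) hmb
      (by linarith) hd hs0
    rw [← hL, ← hS, hkapS] at hbd
    have hbd' : ρ ≤ (L.card : ℝ) * ((50 * Y) ^ 10 * Real.exp (-(kap * Y))) := hy₁'.trans hbd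
    have hLne : L.Nonempty := by
      rcases L.eq_empty_or_nonempty with he | he
      · rw [he] at hbd'; simp at hbd'; linarith
      · exact he
    have hLc : (L.card : ℝ) ≤ 2 * K := by
      have h1 : L ⊆ FK K := fun k hk => (mem_LS.1 hk).1
      exact le_trans (by exact_mod_cast Finset.card_le_card h1) (card_FK K)
    have hkl : ∀ k ∈ L, Real.exp (ε₃ * Y) ≤ |(k : ℝ)| ∧ |(k : ℝ)| < K := by
      intro k hk
      have h1 := mem_LS.1 hk
      constructor
      · refine hK₀1.trans ?_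
        have := h1.2.1
        exact_mod_cast this
      · have h2 := h1.1
        unfold FK at h2
        rw [mem_Ioo] at h2
        rw [abs_lt]
        constructor
        · exact_mod_cast h2.1
        · exact_mod_cast h2.2
    by_cases hcase1 : ∃ i, g i = G
    · exfalso
      obtain ⟨i, hi⟩ := hcase1
      have h3 : 3 ≤ kap := by
        refine hGpos.trans ?_
        have := hkle i
        simp only [hκ] at this
        rw [hi] at this
        exact this
      have h4 : (L.card : ℝ) * ((50 * Y) ^ 10 * Real.exp (-(kap * Y))) ≤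
          2 * Real.exp (0.82 * Y) * ((50 * Y) ^ 10 * Real.exp (-(3 * Y))) := by
        gcongr
        linarith
      have h5 : 2 * (50 * Y) ^ 22 ≤ Real.exp Y := le_trans (by gcongr) k5
      have h6 : 2 * Real.exp (0.82 * Y) * ((50 * Y) ^ 10 * Real.exp (-(3 * Y))) * (50 * Y) ^ 12 ≤
          Real.exp (-(1 * Y)) := by
        calc 2 * Real.exp (0.82 * Y) * ((50 * Y) ^ 10 * Real.exp (-(3 * Y))) * (50 * Y) ^ 12
            = (2 * (50 * Y) ^ 22) * (Real.exp (0.82 * Y) * Real.exp (-(3 * Y))) := by ring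
          _ ≤ Real.exp Y * (Real.exp (0.82 * Y) * Real.exp (-(3 * Y))) := by gcongr
          _ = Real.exp ((1 + 0.82 - 3) * Y) := by rw [← Real.exp_add, ← Real.exp_add]; congr 1; ring
          _ ≤ Real.exp (-(1 * Y)) := by
            apply Real.exp_le_exp.2; norm_num; linarith
      have h7 : Real.exp (-(1 * Y)) < 1 := by
        rw [Real.exp_lt_one_iff]; linarith
      have h8 : ρ * (50 * Y) ^ 12 ≤ 2 * Real.exp (0.82 * Y) * ((50 * Y) ^ 10 * Real.exp (-(3 * Y))) * (50 * Y) ^ 12 := by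
        apply mul_le_mul_of_nonneg_right (hbd'.trans h4); positivity
      have h9 : 1 ≤ ρ * (50 * Y) ^ 12 := by
        rw [hρ, one_div, ← div_eq_inv_mul, le_div_iff₀ (by positivity)]; linarith
      linarith
    · push Not at hcase1
      have hgG : ∀ i, g i < G := by
        intro i
        have := hg i
        rw [mem_range] at this
        have := hcase1 i
        omega
      have hPF : ∀ k ∈ L, ∀ i, Real.exp (-((κ i + ε') * Y)) ≤ ‖PF (zY Y) (ty i) (d i) k‖ := by
        intro k hk i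
        have h1 := cg_high hs0 ((mem_LS.1 hk).2.2.2.2 i) (hgG i)
        refine le_of_eq_of_le ?_ h1.le
        congr 1
        simp only [hκ, hs]
        ring
      by_cases hcase2 : kap < ε₀ / 2
      · exfalso
        have h1 := HN Y kN d hd L (by
          intro k hk
          have := hkl k hk
          exact ⟨this.1, (this.2.le).trans hK4⟩) (by
          intro k hk i
          refine le_trans ?_ (hPF k hk i)
          apply Real.exp_le_exp.2
          have := hkle i
          apply neg_le_neg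
          apply mul_le_mul_of_nonneg_right _ hYpos.le
          linarith)
        have h2 := (hy₁'.trans (SS_le _ hmb)).trans h1
        have h3 : 1 / Y ^ 13 < 1 / Y ^ 12 := lemC (by linarith)
        rw [hρ] at h2
        linarith
      · push Not at hcase2
        obtain ⟨k₁, hk₁⟩ := hLne
        have hk₁' := mem_LS.1 hk₁
        have hT1 : (2:ℝ) ^ r ≤ |(k₁ : ℝ)| := by exact_mod_cast hk₁'.2.2.1
        have hT2 : |(k₁ : ℝ)| < (2:ℝ) ^ (r + 1) := by exact_mod_cast hk₁'.2.2.2.1
        have h1 := HF Y kF d hd ((2:ℝ) ^ r) (by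
            have h2 := (hkl k₁ hk₁).1
            have h3 : Real.exp (ε₃ * Y) = Real.exp (ε₃ / 2 * Y) * Real.exp (ε₃ / 2 * Y) := by
              rw [← Real.exp_add]; congr 1; ring
            have h5 : (2:ℝ) ^ (r + 1) = 2 * 2 ^ r := by ring
            rw [h3] at h2
            rw [h5] at hT2
            exact lemD (B := 0) h2 hT2 k1) (by
            exact (hT1.trans (hkl k₁ hk₁).2.le).trans hK3) L ⟨k₁, hk₁⟩ (by
            intro k hk
            have h2 := mem_LS.1 hk
            constructor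
            · exact_mod_cast h2.2.2.1
            · have h3 : |(k : ℝ)| < (2:ℝ) ^ (r + 1) := by exact_mod_cast h2.2.2.2.1
              have h5 : (2:ℝ) ^ (r + 1) = 2 * 2 ^ r := by ring
              linarith) κ hκ0 hcase2 hPF
        obtain ⟨R, hLR, hAlt⟩ := h1
        unfold Alt at hAlt
        rw [← hkap] at hAlt
        have hh8 : h / 2 ≤ 0.1 * Real.exp Y := by
          have a1 : 5 * Real.exp (0.9 * Y) ≤ Real.exp Y := by
            have a2 : Real.exp Y = Real.exp (0.07 * Y) * Real.exp (0.03 * Y) * Real.exp (0.9 * Y) := by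
              rw [← Real.exp_add, ← Real.exp_add]; congr 1; ring
            have a3 : 1 ≤ Real.exp (0.03 * Y) := by
              rw [Real.one_le_exp_iff]; positivity
            rw [a2]
            exact lemE (by linarith) a3 k2 (Real.exp_pos (0.9 * Y))
          norm_num
          linarith
        have hrange : ∀ y ∈ U', 0 < y ∧ 0 < y + h / 2 ∧ y + h / 2 ≤ 2 * Real.exp Y ∧
            Y - 2 / 5 ≤ Real.log (y + h / 2) ∧ Real.log (y + h / 2) ≤ Y + 3 / 5 := by
          intro y hy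
          obtain ⟨b1, b2, b3⟩ := hU y (mem_filter.1 hy).1
          have b4 := abs_le.1 b2
          have b5 : y ≤ 1.5 * Real.exp Y := by
            calc y = Real.exp (Real.log y) := (Real.exp_log b1).symm
              _ ≤ Real.exp (2 / 5 + Y) := by apply Real.exp_le_exp.2; linarith
              _ = Real.exp (2 / 5) * Real.exp Y := Real.exp_add _ _
              _ ≤ 1.5 * Real.exp Y := by gcongr; exact exp04'
          have b6' : y + h / 2 ≤ 1.6 * Real.exp Y := by
            have := Real.exp_pos Y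
            norm_num at b5 hh8 ⊢
            linarith
          have b6 : y + h / 2 ≤ 2 * Real.exp Y := by
            have := Real.exp_pos Y
            norm_num at b6'
            linarith
          refine ⟨b1, by linarith, b6, ?_, ?_⟩
          · calc Y - 2 / 5 ≤ Real.log y := by linarith
              _ ≤ Real.log (y + h / 2) := Real.log_le_log b1 (by linarith)
          · calc Real.log (y + h / 2) ≤ Real.log (Real.exp (Y + 3 / 5)) := by
                  apply Real.log_le_log (by linarith)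
                  rw [Real.exp_add]
                  exact lemG2 b6'
              _ = Y + 3 / 5 := Real.log_exp _
        set σ : ℝ := h / (2 * Real.exp Y) with hσ
        have hσ0 : 0 < σ := by positivity
        have hσ1 : σ ≤ 1 := by
          rw [hσ, div_le_one (by positivity)]
          norm_num at hh8
          have := Real.exp_pos Y
          linarith
        have hsep1 : ∀ y ∈ U', ∀ y' ∈ U', y < y' → σ ≤ Real.log (y' + h / 2) - Real.log (y + h / 2) := by
          intro y hy y' hy' hlt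
          have b1 := hrange y hy
          have b2 := hrange y' hy'
          apply log_sep b1.2.1 b2.2.2.1 hh0
          have b3 := hUsep y (mem_filter.1 hy).1 y' (mem_filter.1 hy').1 hlt.ne
          rw [abs_sub_comm, abs_of_pos (by linarith)] at b3
          linarith
        have hsep2 : ∀ y ∈ U', ∀ y' ∈ U', y ≠ y' → σ ≤ |Real.log (y + h / 2) - Real.log (y' + h / 2)| := by
          intro y hy y' hy' hne
          rcases lt_or_gt_of_ne hne with hlt | hlt
          · have b := hsep1 y hy y' hy' hlt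
            rw [abs_sub_comm]
            exact b.trans (le_abs_self _)
          · exact (hsep1 y' hy' y hy hlt).trans (le_abs_self _)
        have hinj : Set.InjOn (fun y : ℝ => Real.log (y + h / 2)) U' := by
          intro y hy y' hy' heq
          by_contra hne
          have b := hsep2 y hy y' hy' hne
          simp only at heq
          rw [heq, sub_self, abs_zero] at b
          linarith
        rcases hAlt with hA1 | hA2 | ⟨S', hS'⟩
        · exfalso
          have h1 : (L.card : ℝ) ≤ Real.exp ((kap - η₁) * Y) := by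
            refine hLR.trans ?_
            apply Real.exp_le_exp.2
            apply mul_le_mul_of_nonneg_right _ hYpos.le
            linarith
          have h4 : (L.card : ℝ) * ((50 * Y) ^ 10 * Real.exp (-(kap * Y))) ≤
              Real.exp ((kap - η₁) * Y) * ((50 * Y) ^ 10 * Real.exp (-(kap * Y))) := by
            gcongr
          have h5 : (50 * Y) ^ 22 ≤ Real.exp (η₁ / 2 * Y) := le_trans (by gcongr) k6
          have h6 : Real.exp ((kap - η₁) * Y) * ((50 * Y) ^ 10 * Real.exp (-(kap * Y))) * (50 * Y) ^ 12 ≤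
              Real.exp (-(η₁ / 2 * Y)) := by
            calc Real.exp ((kap - η₁) * Y) * ((50 * Y) ^ 10 * Real.exp (-(kap * Y))) * (50 * Y) ^ 12
                = ((50 * Y) ^ 22) * (Real.exp ((kap - η₁) * Y) * Real.exp (-(kap * Y))) := by ring
              _ ≤ Real.exp (η₁ / 2 * Y) * (Real.exp ((kap - η₁) * Y) * Real.exp (-(kap * Y))) := by gcongr
              _ = Real.exp (-(η₁ / 2 * Y)) := by rw [← Real.exp_add, ← Real.exp_add]; congr 1; ring
          have h7 : Real.exp (-(η₁ / 2 * Y)) < 1 := by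
            rw [Real.exp_lt_one_iff]; have : 0 < η₁ / 2 * Y := by positivity
            linarith
          have h8 : ρ * (50 * Y) ^ 12 ≤
              Real.exp ((kap - η₁) * Y) * ((50 * Y) ^ 10 * Real.exp (-(kap * Y))) * (50 * Y) ^ 12 := by
            apply mul_le_mul_of_nonneg_right (hbd'.trans h4); positivity
          have h9 : 1 ≤ ρ * (50 * Y) ^ 12 := by
            rw [hρ, one_div, ← div_eq_inv_mul, le_div_iff₀ (by positivity)]; linarith
          linarith
        · have h1 : (L.card : ℝ) ≤ Real.exp ((2 * kap + e0 - lam0 - η₁) * Y) := by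
            refine hLR.trans ?_
            apply Real.exp_le_exp.2
            apply mul_le_mul_of_nonneg_right _ hYpos.le
            linarith
          -- the large sieve
          have hls := SS_ls (Y := Y) (G := G) (s := s) (K₀ := K₀) (K := K) (r := r) (d := d) (g := g) (m := m)
            (σ := σ) (v := Y - 1) (ρ := ρ) (U := U'.image (fun y : ℝ => Real.log (y + h / 2))) hT hC6 HL hmb
            (by linarith) hd hs0 hKpos hσ0 hσ1 (by
              intro u hu
              obtain ⟨y, hy, rfl⟩ := mem_image.1 hu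
              have := hrange y hy
              exact ⟨by linarith [this.2.2.2.1], by linarith [this.2.2.2.2]⟩) (by
              intro u hu u' hu' hne
              obtain ⟨y, hy, rfl⟩ := mem_image.1 hu
              obtain ⟨y', hy', rfl⟩ := mem_image.1 hu'
              apply hsep2 y hy y' hy'
              intro h0
              apply hne
              rw [h0]) hρ0.le (by
              intro u hu
              obtain ⟨y, hy, rfl⟩ := mem_image.1 hu
              exact (mem_filter.1 hy).2)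
          rw [Finset.card_image_of_injOn hinj, ← hL, ← hS, hkapS] at hls
          have hKσ : (K : ℝ) + 1 / σ ≤ (2 * L₀ + 3) * Real.exp ((lam0 + η) * Y) := by
            have b1 : 1 / σ = 2 * (Real.exp Y / h) := by
              rw [hσ]; field_simp
            rw [b1]
            have b2 := Real.exp_pos ((lam0 + η) * Y)
            have b3 := lemF hK2 hdiv
            linarith
          have hfin : (U'.card : ℝ) * ρ ^ 2 ≤ C6 * (2 * L₀ + 3) * (50 * Y) ^ 20 *
              Real.exp ((e0 + η - η₁) * Y) := by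
            refine hls.trans ?_
            calc C6 * ((K : ℝ) + 1 / σ) * ((L.card : ℝ) * ((50 * Y) ^ 10 * Real.exp (-(kap * Y))) ^ 2)
                ≤ C6 * ((2 * L₀ + 3) * Real.exp ((lam0 + η) * Y)) *
                  (Real.exp ((2 * kap + e0 - lam0 - η₁) * Y) * ((50 * Y) ^ 10 * Real.exp (-(kap * Y))) ^ 2) := by
                  gcongr
              _ = C6 * (2 * L₀ + 3) * (50 * Y) ^ 20 * (Real.exp ((lam0 + η) * Y) *
                  Real.exp ((2 * kap + e0 - lam0 - η₁) * Y) * (Real.exp (-(kap * Y)) * Real.exp (-(kap * Y)))) := by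
                  ring
              _ = C6 * (2 * L₀ + 3) * (50 * Y) ^ 20 * Real.exp ((e0 + η - η₁) * Y) := by
                  rw [← Real.exp_add, ← Real.exp_add, ← Real.exp_add]; congr 2; ring
          have hfin2 : (U'.card : ℝ) ≤ C6 * (2 * L₀ + 3) * (50 * Y) ^ 44 * Real.exp ((e0 + η - η₁) * Y) := by
            have b1 : (U'.card : ℝ) = (U'.card : ℝ) * ρ ^ 2 * (Y ^ 12) ^ 2 := by
              rw [hρ]; field_simp
            rw [b1]
            calc (U'.card : ℝ) * ρ ^ 2 * (Y ^ 12) ^ 2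
                ≤ C6 * (2 * L₀ + 3) * (50 * Y) ^ 20 * Real.exp ((e0 + η - η₁) * Y) * ((50 * Y) ^ 12) ^ 2 := by
                  gcongr
              _ = _ := by ring
          refine hfin2.trans ?_
          calc C6 * (2 * L₀ + 3) * (50 * Y) ^ 44 * Real.exp ((e0 + η - η₁) * Y)
              ≤ C6 * (2 * L₀ + 3) * (1 + 50 * Y) ^ 44 * Real.exp ((e0 + η - η₁) * Y) := by gcongr
            _ ≤ Real.exp (3 * η₁ / 8 * Y) * Real.exp ((e0 + η - η₁) * Y) := by gcongr
            _ = Real.exp ((e0 + η - 5 * η₁ / 8) * Y) := by rw [← Real.exp_add]; congr 1; ring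
            _ ≤ Real.exp ((e0 - η₁ / 4) * Y) := by
              apply Real.exp_le_exp.2; apply mul_le_mul_of_nonneg_right _ hYpos.le; linarith
        · -- the mean value
          refine alt3 (ε' := ε') (G := G) (g := g) (K₀ := K₀) (r := r) (m := m) (R := R) (S' := S') (ρ := ρ)
            hT (HD Y kD) (by linarith) hd hs0 hKpos hmb hrange hsep2 hσ hh0 hL₀ hK1 hs hκ hρ
            (Finset.card_pos.2 ⟨y₁, hy₁⟩) (fun y hy => (mem_filter.1 hy).2) hCD hη₁ hη64 hηpos hK2
            (hK4.trans (by apply Real.exp_le_exp.2; norm_num; linarith)) hLR hS' k9 k10 k11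
  -- every point belongs to a class
  set T : Finset ((Fin 10 → ℕ) × ℕ × (Fin 10 → ℕ)) :=
    DY Y ×ˢ range (Nat.log 2 K + 1) ×ˢ Fintype.piFinset (fun _ : Fin 10 => range (G + 1)) with hTdef
  have hcov : U ⊆ T.biUnion (fun t => U.filter (fun y => ρ ≤ ‖SS Y G s K₀ K t.2.1 t.1 t.2.2 m (Real.log (y + h / 2))‖)) := by
    intro y hy
    obtain ⟨b1, b2, b3⟩ := hU y hy
    have b5 : c₃ ≤ ‖∑ k ∈ (FK K).filter (fun k => (K₀ : ℤ) ≤ |k|), ((m k : ℝ) : ℂ) *
        Complex.exp (((k : ℝ) * Real.log (y + h / 2) : ℝ) * Complex.I) * AA (zY Y) Y k‖ := by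
      have b4 := b3
      unfold ES at b4
      rw [← hK₀, ← hK] at b4
      exact b4
    obtain ⟨d, hd, r, hr, g, hg, hb⟩ := hCLS Y K₀ K G s (Real.log (y + h / 2)) c₃ m hK₀pos hc₃ b5
    rw [mem_biUnion]
    refine ⟨(d, r, g), ?_, ?_⟩
    · rw [hTdef, mem_product, mem_product]
      exact ⟨hd, hr, hg⟩
    · rw [mem_filter]
      refine ⟨hy, le_trans ?_ hb⟩
      have hdpos : (0:ℝ) < ((DY Y).card : ℝ) := by
        have : 0 < (DY Y).card := Finset.card_pos.2 ⟨d, hd⟩
        exact_mod_cast this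
      have hQpos : 0 < Q := by positivity
      have b6 : c₃ / (31 * ((DY Y).card : ℝ) * ((Nat.log 2 K : ℕ) + 1) * ((G : ℝ) + 1) ^ 10) = c₃ / (31 * Q) := by
        rw [hQ]; congr 1; ring
      rw [b6, hρ, div_le_div_iff₀ (by positivity) (by positivity), one_mul]
      have b7 : 31 * Q ≤ 31 * (A * Y ^ 11) := by linarith
      have b8 : 31 * (A * Y ^ 11) = c₃ * ((31 / c₃ * A) * Y ^ 11) := by
        field_simp
      rw [b8] at b7
      refine b7.trans ?_
      calc c₃ * ((31 / c₃ * A) * Y ^ 11) ≤ c₃ * (Y * Y ^ 11) := by gcongr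
        _ = c₃ * Y ^ 12 := by ring
  have hcard : (U.card : ℝ) ≤ (T.card : ℝ) * Real.exp ((e0 - η₁ / 4) * Y) := by
    have b1 := (Finset.card_le_card hcov).trans Finset.card_biUnion_le
    have b2 : (U.card : ℝ) ≤ ∑ t ∈ T, ((U.filter (fun y => ρ ≤ ‖SS Y G s K₀ K t.2.1 t.1 t.2.2 m
        (Real.log (y + h / 2))‖)).card : ℝ) := by exact_mod_cast b1
    refine b2.trans ?_
    rw [← nsmul_eq_mul]
    apply Finset.sum_le_card_nsmul
    intro t ht
    rw [hTdef, mem_product, mem_product] at ht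
    exact key t.1 ht.1 t.2.1 t.2.2 ht.2.2
  have hTc : (T.card : ℝ) = Q := by
    rw [hTdef, Finset.card_product, Finset.card_product, Fintype.card_piFinset, Finset.card_range, hQ]
    simp only [Finset.card_range, Finset.prod_const, Finset.card_univ, Fintype.card_fin]
    push_cast
    ring
  rw [hTc] at hcard
  refine hcard.trans ?_
  calc Q * Real.exp ((e0 - η₁ / 4) * Y) ≤ (50 * Y) ^ 12 * Real.exp ((e0 - η₁ / 4) * Y) := by
        gcongr
        exact hQ2.trans hY50
    _ ≤ (1 + 50 * Y) ^ 12 * Real.exp ((e0 - η₁ / 4) * Y) := by gcongr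
    _ ≤ Real.exp (η₁ / 8 * Y) * Real.exp ((e0 - η₁ / 4) * Y) := by gcongr
    _ = Real.exp ((e0 - η₁ / 8) * Y) := by rw [← Real.exp_add]; congr 1; ring
    _ ≤ Real.exp ((e0 - η) * Y) := by
      apply Real.exp_le_exp.2; apply mul_le_mul_of_nonneg_right _ hYpos.le; linarith

end Pool.Agent.U762.HU
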